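import Pool.Agent.H64.PCA.Inv

/-!
# Locality of the algorithm and independence of the set of participating sites
-/

open Set

namespace H64.PCA

variable {d : ℕ} {α S : Type} {P : Par d α S}

/-- the dynamic parts of the states agree at `u` -/
def AgU (s s' : St P) (u : V d) : Prop :=
  (∀ t, 1 ≤ t → s.col u t = s'.col u t) ∧ s.use u = s'.use u ∧ s.dn u = s'.dn u

lemma AgU.rd {s s' : St P} {u : V d} (h : AgU s s' u) (p : V d × Fin P.M) (c : V d × ℕ) (b : α) :
    AgU (s.rd p c b) (s'.rd p c b) u := by
  refine ⟨fun t ht => ?_, ?_, h.2.2⟩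
  · simp only [St.rd]; rw [h.1 t ht]
  · funext m; simp only [St.rd]; rw [h.2.1]

section agree

variable (hl : IsLocal P.h P.a) {s s' : St P} {i : ℕ} {x : V d}
  (h1 : ∀ u ∈ ball x (2 * P.a * i), AgU s s' u) (h0 : ∀ u ∈ ball x P.a, s.col u 0 = s'.col u 0)

include h1 h0 in
lemma tot_agree {t' : ℕ} (ht' : t' < i + 1) {y : V d}
    (hy : y ∈ reqd P.h P.a s.tot {x} t') : s.col y t' = s'.col y t' := by
  obtain ⟨z, hz, hn⟩ := reqd_near hy
  rw [Finset.mem_singleton] at hz
  subst hz
  rcases Nat.eq_zero_or_pos t' with h | h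
  · subst h
    exact h0 y (by simpa using hn)
  · refine (h1 y (ball_mono ?_ hn)).1 t' h
    calc (t' + 1) * P.a ≤ (2 * i) * P.a := Nat.mul_le_mul_right _ (by omega)
      _ = 2 * P.a * i := by ring

include hl h1 h0

lemma front_agree {t : ℕ} (ht : t ≤ i + 1) :
    front P.h P.a s'.tot {x} t = front P.h P.a s.tot {x} t := by
  refine front_congr hl ?_
  intro t' ht' y hy
  unfold St.tot
  rw [tot_agree h1 h0 (by omega) hy]

lemma reqd_agree {t : ℕ} (ht : t ≤ i + 1) :
    reqd P.h P.a s'.tot {x} t = reqd P.h P.a s.tot {x} t := by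
  unfold reqd
  rw [front_agree hl h1 h0 ht]

lemma miss_agree {t : ℕ} (ht : t ≤ i) : miss s x t = miss s' x t := by
  ext u
  rw [mem_miss, mem_miss, reqd_agree hl h1 h0 (by omega)]
  constructor
  · rintro ⟨h2, h3⟩
    exact ⟨h2, by rw [← tot_agree h1 h0 (by omega) h2]; exact h3⟩
  · rintro ⟨h2, h3⟩
    exact ⟨h2, by rw [tot_agree h1 h0 (by omega) h2]; exact h3⟩

lemma firstCol_agree : firstCol x (miss s x) i = firstCol x (miss s' x) i :=
  firstCol_congr fun _ _ ht => miss_agree hl h1 h0 ht

omit hl h0 in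
lemma free_agree : free s i x = free s' i x := by
  ext p
  rw [mem_free, mem_free]
  constructor
  · rintro ⟨h2, h3⟩; exact ⟨h2, by rw [← (h1 _ h2).2.1]; exact h3⟩
  · rintro ⟨h2, h3⟩; exact ⟨h2, by rw [(h1 _ h2).2.1]; exact h3⟩

lemma want_agree : want s i x = want s' i x := by
  unfold want
  rw [firstCol_agree hl h1 h0, free_agree h1]

lemma ev_agree (he : front P.h P.a s.tot {x} (i + 1) = ∅) (ξ ξ' : V d → S) :
    ev P.h s.tot 0 (i + 1) ξ x = ev P.h s'.tot 0 (i + 1) ξ' x := by
  refine ev_eq hl (A := {x}) (i := i) ?_ he (i + 1) 0 (by omega) x (by simp) (i + 1) le_rfl ξ ξ'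
  intro t' ht' y hy
  unfold St.tot
  rw [tot_agree h1 h0 ht' hy]

end agree

lemma fin_agree (hl : IsLocal P.h P.a) {s s' : St P} {i : ℕ} {x : V d}
    (h1 : ∀ u ∈ ball x (2 * P.a * i), AgU s s' u)
    (h0 : ∀ u ∈ ball x P.a, s.col u 0 = s'.col u 0) {u : V d} (hu : AgU s s' u) :
    AgU (fin s i x) (fin s' i x) u := by
  refine ⟨?_, ?_, ?_⟩
  · rw [fin_col, fin_col]; exact hu.1
  · rw [fin_use, fin_use]; exact hu.2.1
  · unfold fin
    rw [← firstCol_agree hl h1 h0, front_agree hl h1 h0 le_rfl]
    split_ifs with hc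
    · simp only
      split_ifs
      · rw [ev_agree hl h1 h0 hc.2 _ (fun _ => P.s0)]
      · exact hu.2.2
    · exact hu.2.2

lemma loop_agree (hl : IsLocal P.h P.a) {g g' : Qy P → α} {i : ℕ} {x : V d}
    (hg : ∀ q : Qy P, q.1.1 ∈ ball x (2 * P.a * i) → g q = g' q) (n : ℕ) :
    ∀ s s' : St P, (∀ u ∈ ball x (2 * P.a * i), AgU s s' u) →
      (∀ u ∈ ball x P.a, s.col u 0 = s'.col u 0) → ∀ u, AgU s s' u →
      AgU ((loop n i x s).eval g) ((loop n i x s').eval g') u := by
  induction n with
  | zero => intro s s' _ _ u hu; exact hu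
  | succ n ih =>
    intro s s' h1 h0 u hu
    have hw := want_agree hl h1 h0
    cases hw1 : want s i x with
    | none =>
      rw [eval_loop_none g _ i x s hw1, eval_loop_none g' _ i x s' (by rw [← hw]; exact hw1)]
      exact hu
    | some pc =>
      rw [eval_loop_some g n i x s hw1, eval_loop_some g' n i x s' (by rw [← hw]; exact hw1),
        ← hg _ (want_near hw1).1]
      refine ih _ _ (fun u hu => (h1 u hu).rd _ _ _) ?_ u (hu.rd _ _ _)
      intro u hu
      simp only [St.rd]
      rw [h0 u hu]

lemma attempt_agree (hl : IsLocal P.h P.a) {g g' : Qy P → α} {i : ℕ} {x : V d}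
    (hg : ∀ q : Qy P, q.1.1 ∈ ball x (2 * P.a * i) → g q = g' q) {s s' : St P}
    (h1 : ∀ u ∈ ball x (2 * P.a * i), AgU s s' u)
    (h0 : ∀ u ∈ ball x P.a, s.col u 0 = s'.col u 0) {u : V d} (hu : AgU s s' u) :
    AgU ((attempt i x s).eval g) ((attempt i x s').eval g') u := by
  have hx := (h1 x (self_mem_ball _ _)).2.2
  by_cases hd : s.dn x = none
  · rw [attempt_undone g i hd, attempt_undone g' i (by rw [← hx]; exact hd)]
    refine fin_agree hl ?_ ?_ ?_
    · intro y hy; exact loop_agree hl hg _ s s' h1 h0 y (h1 y hy)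
    · intro y hy; rw [loop_col_zero, loop_col_zero]; exact h0 y hy
    · exact loop_agree hl hg _ s s' h1 h0 u hu
  · rw [attempt_done g i hd, attempt_done g' i (by rw [← hx]; exact hd)]
    exact hu

/-! ### rounds -/

lemma roundT_cons (g : Qy P → α) (i : ℕ) (x : V d) (L : List (V d)) (s : St P) :
    (roundT i (x :: L) s).eval g = (roundT i L ((attempt i x s).eval g)).eval g := by
  simp [roundT]

lemma runT_succ (g : Qy P → α) (L : List (V d)) (n : ℕ) (s : St P) :
    (runT L (n + 1) s).eval g = (roundT n L ((runT L n s).eval g)).eval g := by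
  simp [runT]

lemma roundT_dn_mono (g : Qy P → α) (i : ℕ) (L : List (V d)) (s : St P) {y : V d} {r : ℕ × S}
    (h : s.dn y = some r) : ((roundT i L s).eval g).dn y = some r := by
  induction L generalizing s with
  | nil => exact h
  | cons x L ih => rw [roundT_cons]; exact ih _ (attempt_dn_mono g i s h)

lemma roundT_dn_new (g : Qy P → α) (i : ℕ) (L : List (V d)) (s : St P) {y : V d}
    (h : s.dn y = none) : ((roundT i L s).eval g).dn y = none ∨
      ∃ v, ((roundT i L s).eval g).dn y = some (i, v) := by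
  induction L generalizing s with
  | nil => exact Or.inl h
  | cons x L ih =>
    rw [roundT_cons]
    have : ((attempt i x s).eval g).dn y = none ∨ ∃ v, ((attempt i x s).eval g).dn y
        = some (i, v) := by
      by_cases hy : y = x
      · subst hy; exact attempt_dn_new g i h
      · left; rw [attempt_dn_ne g i s hy]; exact h
    rcases this with h' | ⟨v, h'⟩
    · exact ih _ h'
    · exact Or.inr ⟨v, roundT_dn_mono g i L _ h'⟩

lemma runT_dn_mono (g : Qy P → α) (L : List (V d)) (s : St P) {y : V d} {r : ℕ × S} {n m : ℕ}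
    (hnm : n ≤ m) (h : ((runT L n s).eval g).dn y = some r) :
    ((runT L m s).eval g).dn y = some r := by
  induction m, hnm using Nat.le_induction with
  | base => exact h
  | succ m _ ih => rw [runT_succ]; exact roundT_dn_mono g m L _ ih

lemma runT_dn_new (g : Qy P → α) (L : List (V d)) (s : St P) {y : V d} {n m : ℕ}
    (hnm : n ≤ m) (h : ((runT L n s).eval g).dn y = none) :
    ((runT L m s).eval g).dn y = none ∨
      ∃ r v, n ≤ r ∧ ((runT L m s).eval g).dn y = some (r, v) := by
  induction m, hnm using Nat.le_induction with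
  | base => exact Or.inl h
  | succ m hm ih =>
    rw [runT_succ]
    rcases ih with h' | ⟨r, v, hr, h'⟩
    · rcases roundT_dn_new g m L _ h' with h'' | ⟨v, h''⟩
      · exact Or.inl h''
      · exact Or.inr ⟨m, v, hm, h''⟩
    · exact Or.inr ⟨r, v, hr, roundT_dn_mono g m L _ h'⟩

/-! ### initial reads -/

lemma initT_eval (g : Qy P → α) (L : List (V d)) (s : St P) :
    (initT L s).eval g =
      ⟨fun u t => if u ∈ L ∧ t = 0 then some (g ((u, none), (u, 0))) else s.col u t,
        s.use, s.dn⟩ := by
  induction L generalizing s with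
  | nil =>
    show s = _
    ext <;> simp
  | cons x L ih =>
    show (initT L (s.col0 x (g ((x, none), (x, 0))))).eval g = _
    rw [ih]
    ext u t b
    · simp only [St.col0, List.mem_cons]
      by_cases h1 : u ∈ L ∧ t = 0
      · simp [h1]
      · rw [if_neg h1]
        by_cases h2 : u = x ∧ t = 0
        · rw [if_pos h2, if_pos ⟨Or.inl h2.1, h2.2⟩, h2.1]
        · rw [if_neg h2, if_neg]
          rintro ⟨h3 | h3, h4⟩
          · exact h2 ⟨h3, h4⟩
          · exact h1 ⟨h3, h4⟩
    · rfl
    · rfl

lemma prog_eval (g : Qy P → α) (N : ℕ) (L0 L : List (V d)) :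
    (prog P N L0 L).eval g = (runT L N ((initT L0 (empt P)).eval g)).eval g := by
  simp [prog]

/-! ### Comparing two sets of participating sites -/

/-- the invariant relating the run on `G` and the run on the larger list -/
structure LocInv (C : Finset (V d)) (rho : V d → ℕ) (i : ℕ) (s s' : St P) : Prop where
  ag : ∀ y ∈ C, i ≤ rho y → ∀ u ∈ ball y (2 * P.a * rho y), AgU s s' u
  dn : ∀ y ∈ C, s.dn y = s'.dn y
  act : ∀ y ∈ C, rho y < i → s.dn y ≠ none
  st : ∀ y ∈ C, ∀ u ∈ ball y P.a, s.col u 0 = s'.col u 0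

open Classical in
lemma LocInv.step (hl : IsLocal P.h P.a) {C G : Finset (V d)} (hCG : C ⊆ G) {rho : V d → ℕ}
    (hC : ∀ z ∈ C, ball z (4 * P.a * rho z) ⊆ C) {g : Qy P → α} {i : ℕ} {s s' : St P}
    (h : LocInv C rho i s s') (x : V d) :
    LocInv C rho i (if x ∈ G then (attempt i x s).eval g else s) ((attempt i x s').eval g) := by
  by_cases hx : x ∈ C
  · rw [if_pos (hCG hx)]
    by_cases hd : s.dn x = none
    · have hi : i ≤ rho x := by
        by_contra hcon
        exact h.act x hx (by omega) hd
      have hsub : ball x (2 * P.a * i) ⊆ ball x (2 * P.a * rho x) :=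
        ball_mono (Nat.mul_le_mul_left _ hi)
      have key : ∀ u, AgU s s' u →
          AgU ((attempt i x s).eval g) ((attempt i x s').eval g) u := fun u hu =>
        attempt_agree hl (fun _ _ => rfl) (fun y hy => h.ag x hx hi y (hsub hy)) (h.st x hx) hu
      refine ⟨?_, ?_, ?_, ?_⟩
      · intro y hy hiy u hu; exact key u (h.ag y hy hiy u hu)
      · intro y hy
        by_cases hyx : y = x
        · subst hyx
          exact (key y (h.ag y hy hi y (self_mem_ball _ _))).2.2
        · rw [attempt_dn_ne g i s hyx, attempt_dn_ne g i s' hyx]; exact h.dn y hy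
      · intro y hy hri hn
        cases hdy : s.dn y with
        | none => exact h.act y hy hri hdy
        | some r => rw [attempt_dn_mono g i s hdy] at hn; cases hn
      · intro y hy u hu
        rw [attempt_col_zero, attempt_col_zero]; exact h.st y hy u hu
    · rw [attempt_done g i hd, attempt_done g i (by rw [← h.dn x hx]; exact hd)]
      exact h
  · have hout : ∀ y ∈ C, i ≤ rho y → ∀ u ∈ ball y (2 * P.a * rho y),
        u ∉ ball x (2 * P.a * i) := by
      intro y hy hiy u hu hux
      apply hx
      refine hC y hy ?_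
      have h3 := mem_ball_trans hu (mem_ball_comm.1 hux)
      refine ball_mono ?_ h3
      have : 2 * P.a * i ≤ 2 * P.a * rho y := Nat.mul_le_mul_left _ hiy
      calc 2 * P.a * rho y + 2 * P.a * i ≤ 2 * P.a * rho y + 2 * P.a * rho y := by omega
        _ = 4 * P.a * rho y := by ring
    have hne : ∀ y ∈ C, y ≠ x := fun y hy hh => hx (hh ▸ hy)
    have e1 : ∀ u, u ∉ ball x (2 * P.a * i) →
        (if x ∈ G then (attempt i x s).eval g else s).col u = s.col u ∧
        (if x ∈ G then (attempt i x s).eval g else s).use u = s.use u ∧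
        (if x ∈ G then (attempt i x s).eval g else s).dn u = s.dn u := by
      intro u hu
      split_ifs
      · exact attempt_outside g i x s hu
      · exact ⟨rfl, rfl, rfl⟩
    refine ⟨?_, ?_, ?_, ?_⟩
    · intro y hy hiy u hu
      have hu' := hout y hy hiy u hu
      obtain ⟨a1, a2, a3⟩ := e1 u hu'
      obtain ⟨b1, b2, b3⟩ := attempt_outside g i x s' hu'
      obtain ⟨c1, c2, c3⟩ := h.ag y hy hiy u hu
      exact ⟨fun t ht => by rw [a1, b1]; exact c1 t ht, by rw [a2, b2]; exact c2,
        by rw [a3, b3]; exact c3⟩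
    · intro y hy
      rw [attempt_dn_ne g i s' (hne y hy)]
      split_ifs
      · rw [attempt_dn_ne g i s (hne y hy)]; exact h.dn y hy
      · exact h.dn y hy
    · intro y hy hri
      split_ifs
      · rw [attempt_dn_ne g i s (hne y hy)]; exact h.act y hy hri
      · exact h.act y hy hri
    · intro y hy u hu
      rw [attempt_col_zero]
      split_ifs
      · rw [attempt_col_zero]; exact h.st y hy u hu
      · exact h.st y hy u hu

open Classical in
lemma LocInv.round (hl : IsLocal P.h P.a) {C G : Finset (V d)} (hCG : C ⊆ G) {rho : V d → ℕ}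
    (hC : ∀ z ∈ C, ball z (4 * P.a * rho z) ⊆ C) {g : Qy P → α} {i : ℕ} (L : List (V d)) :
    ∀ {s s' : St P}, LocInv C rho i s s' →
    LocInv C rho i ((roundT i (L.filter (fun x => x ∈ G)) s).eval g)
      ((roundT i L s').eval g) := by
  induction L with
  | nil => intro s s' h; exact h
  | cons x L ih =>
    intro s s' h
    have h' := h.step (g := g) hl hCG hC x
    rw [roundT_cons]
    by_cases hx : x ∈ G
    · rw [List.filter_cons_of_pos (by simpa using hx), roundT_cons]
      rw [if_pos hx] at h'
      exact ih h'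
    · rw [List.filter_cons_of_neg (by simpa using hx)]
      rw [if_neg hx] at h'
      exact ih h'

open Classical in
/-- sites in a closed set of the run on `G` get the same result in the run on a larger set -/
theorem run_stable (hl : IsLocal P.h P.a) {C G : Finset (V d)} (hCG : C ⊆ G)
    {g : Qy P → α} {N N' : ℕ} (hN : N ≤ N') {L0 L0' L : List (V d)}
    (h0 : ∀ y ∈ C, ∀ u ∈ ball y P.a, u ∈ L0 ∧ u ∈ L0')
    (hC : ∀ z ∈ C, ∃ r v, ((prog P N L0 (L.filter (fun x => x ∈ G))).eval g).dn z = some (r, v) ∧
      ball z (4 * P.a * r) ⊆ C) :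
    ∀ z ∈ C, ((prog P N' L0' L).eval g).dn z
      = ((prog P N L0 (L.filter (fun x => x ∈ G))).eval g).dn z := by
  set s0 := (initT L0 (empt P)).eval g with hs0
  set s0' := (initT L0' (empt P)).eval g with hs0'
  set LG := L.filter (fun x => x ∈ G) with hLG
  simp only [prog_eval] at hC ⊢
  rw [← hs0] at hC ⊢
  rw [← hs0']
  set rho : V d → ℕ := fun z => (((runT LG N s0).eval g).dn z).elim 0 Prod.fst with hrho
  have hC' : ∀ z ∈ C, ball z (4 * P.a * rho z) ⊆ C := by
    intro z hz
    obtain ⟨r, v, h1, h2⟩ := hC z hz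
    have : rho z = r := by simp [hrho, h1]
    rw [this]; exact h2
  have hinv : ∀ i ≤ N, LocInv C rho i ((runT LG i s0).eval g) ((runT L i s0').eval g) := by
    intro i
    induction i with
    | zero =>
      intro _
      show LocInv C rho 0 s0 s0'
      have hst : ∀ y ∈ C, ∀ u ∈ ball y P.a, s0.col u 0 = s0'.col u 0 := by
        intro y hy u hu
        rw [hs0, hs0', initT_eval, initT_eval]
        simp [h0 y hy u hu]
      refine ⟨?_, ?_, ?_, hst⟩
      · intro y hy _ u hu
        rw [hs0, hs0', initT_eval, initT_eval]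
        refine ⟨fun t ht => ?_, rfl, rfl⟩
        have : t ≠ 0 := by omega
        simp [this]
      · intro y hy
        rw [hs0, hs0', initT_eval, initT_eval]
      · intro y hy hh; omega
    | succ i ih =>
      intro hi
      have h1 := LocInv.round (g := g) hl hCG hC' L (ih (by omega))
      rw [runT_succ, runT_succ]
      refine ⟨?_, h1.dn, ?_, h1.st⟩
      · intro y hy hiy; exact h1.ag y hy (by omega)
      · intro y hy hri hn
        obtain ⟨r, v, h2, h3⟩ := hC y hy
        have hr : rho y = r := by simp [hrho, h2]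
        have hn' : ((runT LG (i + 1) s0).eval g).dn y = none := by rw [runT_succ]; exact hn
        rcases runT_dn_new g LG s0 hi hn' with h4 | ⟨r', v', hr', h4⟩
        · rw [h4] at h2; cases h2
        · rw [h4] at h2
          simp only [Option.some.injEq, Prod.mk.injEq] at h2
          omega
  intro z hz
  obtain ⟨r, v, h2, h3⟩ := hC z hz
  have h4 := (hinv N le_rfl).dn z hz
  rw [h2]
  rw [h2] at h4
  exact runT_dn_mono g L s0' hN h4.symm

end H64.PCA
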