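import Mathlib

/-!
# Random local maps on ℤ^d: needed sets and coalescence
-/

open Set

namespace H64.PCA

/-- the sites -/
abbrev V (d : ℕ) := Fin d → ℤ

variable {d : ℕ}

/-- sup-norm ball -/
noncomputable def ball (x : V d) (r : ℕ) : Finset (V d) :=
  Finset.Icc (fun i => x i - r) (fun i => x i + r)

lemma mem_ball {x y : V d} {r : ℕ} : y ∈ ball x r ↔ ∀ i, |y i - x i| ≤ r := by
  simp only [ball, Finset.mem_Icc, Pi.le_def, abs_le]
  constructor
  · rintro ⟨h1, h2⟩ i
    have := h1 i; have := h2 i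
    constructor <;> linarith
  · intro h
    constructor
    · intro i; have := (h i).1; linarith
    · intro i; have := (h i).2; linarith

lemma self_mem_ball (x : V d) (r : ℕ) : x ∈ ball x r := by
  rw [mem_ball]; intro i; simp

lemma mem_ball_comm {x y : V d} {r : ℕ} : y ∈ ball x r ↔ x ∈ ball y r := by
  simp only [mem_ball]
  constructor <;> intro h i <;> rw [abs_sub_comm] <;> exact h i

lemma mem_ball_trans {x y z : V d} {r s : ℕ} (h1 : y ∈ ball x r) (h2 : z ∈ ball y s) :
    z ∈ ball x (r + s) := by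
  rw [mem_ball] at *
  intro i
  have e : z i - x i = (z i - y i) + (y i - x i) := by ring
  rw [e]
  refine (abs_add_le _ _).trans ?_
  push_cast
  have := h1 i; have := h2 i
  linarith

lemma ball_mono {x : V d} {r s : ℕ} (h : r ≤ s) : ball x r ⊆ ball x s := by
  intro y hy
  rw [mem_ball] at *
  intro i
  have := hy i
  have h' : (r : ℤ) ≤ s := by exact_mod_cast h
  linarith

lemma mem_ball_add {x y v : V d} {r : ℕ} : y + v ∈ ball (x + v) r ↔ y ∈ ball x r := by
  simp only [mem_ball]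
  constructor <;> intro h i
  · have := h i; simpa using this
  · have := h i; simpa using this

lemma card_ball (x : V d) (r : ℕ) : (ball x r).card = (2 * r + 1) ^ d := by
  unfold ball
  rw [Pi.card_Icc]
  simp only [Int.card_Icc]
  have : ∀ i : Fin d, (x i + (r : ℤ) + 1 - (x i - r)).toNat = 2 * r + 1 := by
    intro i
    have : x i + (r : ℤ) + 1 - (x i - r) = ((2 * r + 1 : ℕ) : ℤ) := by push_cast; ring
    rw [this]; exact Int.toNat_natCast _
  simp [this]

section model

variable {α S : Type} (h : (V d → α) → (V d → S) → S) (a : ℕ)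

/-- the local map has range `a` -/
def IsLocal : Prop := ∀ (w w' : V d → α) (ξ ξ' : V d → S),
  (∀ y ∈ ball (0 : V d) a, w y = w' y) → (∀ y ∈ ball (0 : V d) a, ξ y = ξ' y) → h w ξ = h w' ξ'

/-- the global map -/
def stepH (w : V d → α) (ξ : V d → S) : V d → S :=
  fun u => h (fun y => w (u + y)) (fun y => ξ (u + y))

/-- the global map is not constant at `u` -/
def Bad (w : V d → α) (u : V d) : Prop := ∃ ξ ξ' : V d → S, stepH h w ξ u ≠ stepH h w ξ' u

open Classical in
/-- the sites whose value at level `t` is needed to know the values at level `0` on `A` -/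
noncomputable def front (ζ : V d → ℕ → α) (A : Finset (V d)) : ℕ → Finset (V d)
  | 0 => A
  | t + 1 => ((front ζ A t).filter (fun u => Bad h (fun y => ζ y t) u)).biUnion
      (fun u => ball u a)

open Classical in
/-- the sites whose column at level `t` is read -/
noncomputable def reqd (ζ : V d → ℕ → α) (A : Finset (V d)) (t : ℕ) : Finset (V d) :=
  (front h a ζ A t).biUnion (fun u => ball u a)

/-- the values at level `t`, starting from `ξ` at level `t + m` -/
def ev (ζ : V d → ℕ → α) : ℕ → ℕ → (V d → S) → (V d → S)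
  | _, 0, ξ => ξ
  | t, m + 1, ξ => stepH h (fun y => ζ y t) (ev ζ (t + 1) m ξ)

variable {h a}

lemma mem_ball_zero_sub {u y : V d} {r : ℕ} (hy : y ∈ ball (0 : V d) r) : u + y ∈ ball u r := by
  rw [mem_ball] at *
  intro i
  have := hy i
  simpa using this

lemma stepH_congr (hl : IsLocal h a) {w w' : V d → α} {ξ ξ' : V d → S} {u : V d}
    (hw : ∀ y ∈ ball u a, w y = w' y) (hξ : ∀ y ∈ ball u a, ξ y = ξ' y) :
    stepH h w ξ u = stepH h w' ξ' u := by
  apply hl
  · intro y hy; exact hw _ (mem_ball_zero_sub hy)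
  · intro y hy; exact hξ _ (mem_ball_zero_sub hy)

lemma bad_congr (hl : IsLocal h a) {w w' : V d → α} {u : V d}
    (hw : ∀ y ∈ ball u a, w y = w' y) : Bad h w u ↔ Bad h w' u := by
  unfold Bad
  constructor
  · rintro ⟨ξ, ξ', hne⟩
    refine ⟨ξ, ξ', ?_⟩
    rwa [← stepH_congr hl hw (fun _ _ => rfl), ← stepH_congr hl hw (fun _ _ => rfl)]
  · rintro ⟨ξ, ξ', hne⟩
    refine ⟨ξ, ξ', ?_⟩
    rwa [stepH_congr hl hw (fun _ _ => rfl), stepH_congr hl hw (fun _ _ => rfl)]

lemma mem_front_succ {ζ : V d → ℕ → α} {A : Finset (V d)} {t : ℕ} {u : V d} :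
    u ∈ front h a ζ A (t + 1) ↔
      ∃ v ∈ front h a ζ A t, Bad h (fun y => ζ y t) v ∧ u ∈ ball v a := by
  simp only [front, Finset.mem_biUnion, Finset.mem_filter]
  constructor
  · rintro ⟨v, ⟨h1, h2⟩, h3⟩; exact ⟨v, h1, h2, h3⟩
  · rintro ⟨v, h1, h2, h3⟩; exact ⟨v, ⟨h1, h2⟩, h3⟩

lemma mem_reqd {ζ : V d → ℕ → α} {A : Finset (V d)} {t : ℕ} {u : V d} :
    u ∈ reqd h a ζ A t ↔ ∃ v ∈ front h a ζ A t, u ∈ ball v a := by
  simp [reqd]

@[simp] lemma front_zero {ζ : V d → ℕ → α} {A : Finset (V d)} : front h a ζ A 0 = A := rfl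

lemma front_near {ζ : V d → ℕ → α} {A : Finset (V d)} {t : ℕ} {u : V d}
    (hu : u ∈ front h a ζ A t) : ∃ x ∈ A, u ∈ ball x (t * a) := by
  induction t generalizing u with
  | zero => exact ⟨u, hu, self_mem_ball _ _⟩
  | succ t ih =>
    obtain ⟨v, hv, -, huv⟩ := mem_front_succ.1 hu
    obtain ⟨x, hx, hvx⟩ := ih hv
    exact ⟨x, hx, by rw [Nat.succ_mul]; exact mem_ball_trans hvx huv⟩

lemma reqd_near {ζ : V d → ℕ → α} {A : Finset (V d)} {t : ℕ} {u : V d}
    (hu : u ∈ reqd h a ζ A t) : ∃ x ∈ A, u ∈ ball x ((t + 1) * a) := by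
  obtain ⟨v, hv, huv⟩ := mem_reqd.1 hu
  obtain ⟨x, hx, hvx⟩ := front_near hv
  exact ⟨x, hx, by rw [Nat.succ_mul]; exact mem_ball_trans hvx huv⟩

lemma front_mono {ζ : V d → ℕ → α} {A B : Finset (V d)} (hAB : A ⊆ B) (t : ℕ) :
    front h a ζ A t ⊆ front h a ζ B t := by
  induction t with
  | zero => exact hAB
  | succ t ih =>
    intro u hu
    obtain ⟨v, hv, hb, huv⟩ := mem_front_succ.1 hu
    exact mem_front_succ.2 ⟨v, ih hv, hb, huv⟩

lemma reqd_mono {ζ : V d → ℕ → α} {A B : Finset (V d)} (hAB : A ⊆ B) (t : ℕ) :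
    reqd h a ζ A t ⊆ reqd h a ζ B t := by
  intro u hu
  obtain ⟨v, hv, huv⟩ := mem_reqd.1 hu
  exact mem_reqd.2 ⟨v, front_mono hAB t hv, huv⟩

lemma front_congr (hl : IsLocal h a) {ζ ζ' : V d → ℕ → α} {A : Finset (V d)} {t : ℕ}
    (hz : ∀ t' < t, ∀ y ∈ reqd h a ζ A t', ζ y t' = ζ' y t') :
    front h a ζ' A t = front h a ζ A t := by
  induction t with
  | zero => rfl
  | succ t ih =>
    have ih' := ih (fun t' ht' => hz t' (by omega))
    ext u
    rw [mem_front_succ, mem_front_succ, ih']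
    constructor
    · rintro ⟨v, hv, hb, huv⟩
      refine ⟨v, hv, ?_, huv⟩
      refine (bad_congr hl ?_).1 hb
      intro y hy
      exact (hz t (by omega) y (mem_reqd.2 ⟨v, hv, hy⟩)).symm
    · rintro ⟨v, hv, hb, huv⟩
      refine ⟨v, hv, ?_, huv⟩
      refine (bad_congr hl ?_).1 hb
      intro y hy
      exact hz t (by omega) y (mem_reqd.2 ⟨v, hv, hy⟩)

lemma reqd_congr (hl : IsLocal h a) {ζ ζ' : V d → ℕ → α} {A : Finset (V d)} {t : ℕ}
    (hz : ∀ t' < t, ∀ y ∈ reqd h a ζ A t', ζ y t' = ζ' y t') :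
    reqd h a ζ' A t = reqd h a ζ A t := by
  unfold reqd
  rw [front_congr hl hz]

/-- coalescence: if nothing is needed at level `i + 1`, the value at level `0` is known -/
lemma ev_eq (hl : IsLocal h a) {ζ ζ' : V d → ℕ → α} {A : Finset (V d)} {i : ℕ}
    (hz : ∀ t' < i + 1, ∀ y ∈ reqd h a ζ A t', ζ y t' = ζ' y t')
    (he : front h a ζ A (i + 1) = ∅) :
    ∀ k t, t + k = i + 1 → ∀ u ∈ front h a ζ A t, ∀ m, k ≤ m → ∀ ξ ξ' : V d → S,
      ev h ζ t m ξ u = ev h ζ' t k ξ' u := by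
  intro k
  induction k with
  | zero =>
    intro t ht u hu
    have : t = i + 1 := by omega
    subst this
    rw [he] at hu
    simp at hu
  | succ k ih =>
    intro t ht u hu m hm ξ ξ'
    obtain ⟨m, rfl⟩ : ∃ m', m = m' + 1 := ⟨m - 1, by omega⟩
    show stepH h (fun y => ζ y t) (ev h ζ (t + 1) m ξ) u
      = stepH h (fun y => ζ' y t) (ev h ζ' (t + 1) k ξ') u
    have hzt : ∀ y ∈ ball u a, ζ y t = ζ' y t := fun y hy =>
      hz t (by omega) y (mem_reqd.2 ⟨u, hu, hy⟩)
    by_cases hb : Bad h (fun y => ζ y t) u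
    · refine stepH_congr hl hzt ?_
      intro y hy
      exact ih (t + 1) (by omega) y (mem_front_succ.2 ⟨u, hu, hb, hy⟩) m (by omega) ξ ξ'
    · unfold Bad at hb
      push Not at hb
      rw [hb _ (ev h ζ' (t + 1) k ξ')]
      exact stepH_congr hl hzt (fun _ _ => rfl)

/-! ### Translations -/

lemma stepH_shift (w : V d → α) (ξ : V d → S) (v u : V d) :
    stepH h (fun y => w (y + v)) (fun y => ξ (y + v)) u = stepH h w ξ (u + v) := by
  unfold stepH
  have e : ∀ y, u + y + v = u + v + y := fun y => add_right_comm u y v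
  simp only [e]

lemma bad_shift (w : V d → α) (v u : V d) :
    Bad h (fun y => w (y + v)) u ↔ Bad h w (u + v) := by
  unfold Bad
  constructor
  · rintro ⟨ξ, ξ', hne⟩
    refine ⟨fun y => ξ (y - v), fun y => ξ' (y - v), ?_⟩
    rw [← stepH_shift, ← stepH_shift]
    simpa using hne
  · rintro ⟨ξ, ξ', hne⟩
    refine ⟨fun y => ξ (y + v), fun y => ξ' (y + v), ?_⟩
    rw [stepH_shift, stepH_shift]
    exact hne

lemma mem_front_shift (ζ : V d → ℕ → α) (v x : V d) (t : ℕ) (u : V d) :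
    u ∈ front h a (fun y t => ζ (y + v) t) {x} t ↔ u + v ∈ front h a ζ {x + v} t := by
  induction t generalizing u with
  | zero => simp
  | succ t ih =>
    rw [mem_front_succ, mem_front_succ]
    constructor
    · rintro ⟨y, hy, hb, huy⟩
      exact ⟨y + v, (ih y).1 hy, (bad_shift (fun y => ζ y t) v y).1 hb, mem_ball_add.2 huy⟩
    · rintro ⟨y, hy, hb, huy⟩
      refine ⟨y - v, (ih (y - v)).2 (by simpa using hy), ?_, ?_⟩
      · refine (bad_shift (fun y => ζ y t) v (y - v)).2 ?_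
        simpa using hb
      · rw [← mem_ball_add (v := v)]; simpa using huy

lemma mem_reqd_shift (ζ : V d → ℕ → α) (v x : V d) (t : ℕ) (u : V d) :
    u ∈ reqd h a (fun y t => ζ (y + v) t) {x} t ↔ u + v ∈ reqd h a ζ {x + v} t := by
  rw [mem_reqd, mem_reqd]
  constructor
  · rintro ⟨y, hy, huy⟩
    exact ⟨y + v, (mem_front_shift ζ v x t y).1 hy, mem_ball_add.2 huy⟩
  · rintro ⟨y, hy, huy⟩
    refine ⟨y - v, (mem_front_shift ζ v x t (y - v)).2 (by simpa using hy), ?_⟩
    rw [← mem_ball_add (v := v)]; simpa using huy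

lemma ev_shift (ζ : V d → ℕ → α) (v : V d) (t m : ℕ) (ξ : V d → S) (u : V d) :
    ev h (fun y t => ζ (y + v) t) t m (fun y => ξ (y + v)) u = ev h ζ t m ξ (u + v) := by
  induction m generalizing t u with
  | zero => rfl
  | succ m ih =>
    show stepH h (fun y => ζ (y + v) t) (ev h (fun y t => ζ (y + v) t) (t + 1) m
        (fun y => ξ (y + v))) u = stepH h (fun y => ζ y t) (ev h ζ (t + 1) m ξ) (u + v)
    rw [← stepH_shift]
    congr 1
    funext y
    exact ih (t + 1) y

end model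

end H64.PCA
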