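import Pool.Agent.H64.PCA.Tree
import Pool.Agent.H64.PCA.Model

/-!
# The allocation algorithm
-/

open Set

namespace H64.PCA

namespace Tree

variable {ι κ α β γ : Type}

/-- labels are fresh, and the result records at least the set of labels used -/
def OK (π : ι → κ) (acc : β → Set κ) : Tree ι α β → Set κ → Prop
  | ret b, U => U ⊆ acc b
  | read i k, U => π i ∉ U ∧ ∀ a, (k a).OK π acc (insert (π i) U)

lemma OK.fresh {π : ι → κ} {acc : β → Set κ} {t : Tree ι α β} {U : Set κ}
    (h : t.OK π acc U) : t.Fresh π U := by
  induction t generalizing U with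
  | ret b => trivial
  | read i k ih => exact ⟨h.1, fun a => ih a (h.2 a)⟩

lemma OK.mono {π : ι → κ} {acc : β → Set κ} {t : Tree ι α β} {U U' : Set κ}
    (h : t.OK π acc U) (hU : U' ⊆ U) : t.OK π acc U' := by
  induction t generalizing U U' with
  | ret b => exact hU.trans h
  | read i k ih => exact ⟨fun hh => h.1 (hU hh), fun a => ih a (h.2 a) (insert_subset_insert hU)⟩

lemma OK.bind {π : ι → κ} {acc : β → Set κ} {acc' : γ → Set κ} {t : Tree ι α β}
    {f : β → Tree ι α γ} {U : Set κ} (h : t.OK π acc U) (hf : ∀ b, (f b).OK π acc' (acc b)) :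
    (t.bind f).OK π acc' U := by
  induction t generalizing U with
  | ret b => exact (hf b).mono h
  | read i k ih => exact ⟨h.1, fun a => ih a (h.2 a)⟩

/-- all queries lie in `W` -/
def Within (W : Set ι) : Tree ι α β → Prop
  | ret _ => True
  | read i k => i ∈ W ∧ ∀ a, (k a).Within W

lemma Within.bind {W : Set ι} {t : Tree ι α β} {f : β → Tree ι α γ}
    (h : t.Within W) (hf : ∀ b, (f b).Within W) : (t.bind f).Within W := by
  induction t with
  | ret b => exact hf b
  | read i k ih => exact ⟨h.1, fun a => ih a (h.2 a)⟩

lemma Within.eval_congr {W : Set ι} {t : Tree ι α β} (h : t.Within W) {g g' : ι → α}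
    (hg : ∀ i ∈ W, g i = g' i) : t.eval g = t.eval g' := by
  induction t with
  | ret b => rfl
  | read i k ih =>
    rw [eval_read, eval_read, hg i h.1]
    exact ih _ (h.2 _)

end Tree

section pick

variable {d : ℕ} {κ : Type}

/-- translation as an embedding -/
def tr (κ : Type) (x : V d) : V d × κ ↪ V d × κ :=
  ⟨fun p => (p.1 - x, p.2), fun p q h => by
    simp only [Prod.mk.injEq, sub_left_inj] at h
    exact Prod.ext h.1 h.2⟩

@[simp] lemma tr_apply (x : V d) (p : V d × κ) : tr κ x p = (p.1 - x, p.2) := rfl

/-- a translation equivariant choice of an element of a finite set -/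
noncomputable def rpick (x : V d) (F : Finset (V d × κ)) : Option (V d × κ) := by
  classical
  exact if h : (F.map (tr κ x)).Nonempty then some (h.choose.1 + x, h.choose.2) else none

lemma rpick_mem {x : V d} {F : Finset (V d × κ)} {p : V d × κ} (h : rpick x F = some p) :
    p ∈ F := by
  unfold rpick at h
  split_ifs at h with hne
  have h1 := hne.choose_spec
  rw [Finset.mem_map] at h1
  obtain ⟨q, hq, he⟩ := h1
  have : p = q := by
    rw [← Option.some.inj h, ← he]
    simp
  rw [this]; exact hq

lemma rpick_eq_none {x : V d} {F : Finset (V d × κ)} : rpick x F = none ↔ F = ∅ := by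
  unfold rpick
  split_ifs with hne
  · simp only [reduceCtorEq, false_iff]
    intro hF
    rw [hF] at hne
    simp at hne
  · simp only [true_iff]
    simpa using hne

lemma rpick_shift (x v : V d) (F : Finset (V d × κ)) :
    rpick x (F.map (tr κ v)) = (rpick (x + v) F).map (fun p => (p.1 - v, p.2)) := by
  have hF : (F.map (tr κ v)).map (tr κ x) = F.map (tr κ (x + v)) := by
    rw [Finset.map_map]
    congr 1
    ext p
    · simp [sub_sub, add_comm]
    · simp
  unfold rpick
  simp only [hF]
  split_ifs with hne
  · simp only [Option.map_some, Option.some.injEq, Prod.mk.injEq, and_true]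
    abel
  · rfl

/-- the first level `t` between `1` and `i` with `m t` nonempty, and an element of it -/
noncomputable def firstCol (x : V d) (m : ℕ → Finset (V d)) : ℕ → Option (V d × ℕ)
  | 0 => none
  | i + 1 => (firstCol x m i).orElse (fun _ => rpick x (m (i + 1) ×ˢ {i + 1}))

lemma firstCol_none {x : V d} {m : ℕ → Finset (V d)} {i : ℕ} :
    firstCol x m i = none ↔ ∀ t, 1 ≤ t → t ≤ i → m t = ∅ := by
  induction i with
  | zero => simp only [firstCol, true_iff]; intro t h1 h2; omega
  | succ i ih =>
    unfold firstCol
    cases hc : firstCol x m i with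
    | none =>
      simp only [Option.orElse_none]
      rw [rpick_eq_none]
      have ih' := ih.1 hc
      constructor
      · intro he t h1 h2
        rcases Nat.lt_or_ge i t with h3 | h3
        · have : t = i + 1 := by omega
          subst this
          simpa [Finset.product_eq_empty] using he
        · exact ih' t h1 h3
      · intro hh
        rw [hh (i + 1) (by omega) le_rfl]
        simp
    | some c =>
      simp only [Option.orElse_some, reduceCtorEq, false_iff]
      intro hh
      have := ih.2 (fun t h1 h2 => hh t h1 (by omega))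
      rw [this] at hc
      cases hc

lemma firstCol_some {x : V d} {m : ℕ → Finset (V d)} {i : ℕ} {c : V d × ℕ}
    (h : firstCol x m i = some c) :
    1 ≤ c.2 ∧ c.2 ≤ i ∧ c.1 ∈ m c.2 ∧ ∀ t, 1 ≤ t → t < c.2 → m t = ∅ := by
  induction i with
  | zero => simp [firstCol] at h
  | succ i ih =>
    unfold firstCol at h
    cases hc : firstCol x m i with
    | none =>
      rw [hc] at h
      simp only [Option.orElse_none] at h
      have h1 := rpick_mem h
      rw [Finset.mem_product, Finset.mem_singleton] at h1
      have hn := firstCol_none.1 hc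
      refine ⟨by omega, by omega, by rw [h1.2]; exact h1.1, ?_⟩
      intro t ht1 ht2
      exact hn t ht1 (by omega)
    | some c' =>
      rw [hc] at h
      simp only [Option.orElse_some, Option.some.injEq] at h
      subst h
      obtain ⟨h1, h2, h3, h4⟩ := ih hc
      exact ⟨h1, by omega, h3, h4⟩

lemma firstCol_congr {x : V d} {m m' : ℕ → Finset (V d)} {i : ℕ}
    (h : ∀ t, 1 ≤ t → t ≤ i → m t = m' t) : firstCol x m i = firstCol x m' i := by
  induction i with
  | zero => rfl
  | succ i ih =>
    unfold firstCol
    rw [ih (fun t h1 h2 => h t h1 (by omega)), h (i + 1) (by omega) le_rfl]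

lemma firstCol_shift (x v : V d) {m m' : ℕ → Finset (V d)} {i : ℕ}
    (h : ∀ t u, u ∈ m' t ↔ u + v ∈ m t) :
    firstCol x m' i = (firstCol (x + v) m i).map (fun p => (p.1 - v, p.2)) := by
  induction i with
  | zero => rfl
  | succ i ih =>
    unfold firstCol
    rw [ih]
    have e : m' (i + 1) ×ˢ {i + 1} = (m (i + 1) ×ˢ {i + 1}).map (tr ℕ v) := by
      ext p
      simp only [Finset.mem_product, Finset.mem_singleton, Finset.mem_map, tr_apply,
        Prod.exists]
      constructor
      · rintro ⟨h1, h2⟩
        exact ⟨p.1 + v, p.2, ⟨(h _ _).1 h1, h2⟩, by simp⟩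
      · rintro ⟨u, t, ⟨h1, h2⟩, h3⟩
        rw [← h3]
        exact ⟨(h _ _).2 (by simpa using h1), h2⟩
    rw [e, rpick_shift]
    cases firstCol (x + v) m i with
    | none => simp
    | some c => simp

end pick

section alg

variable {d : ℕ} {α S : Type}

/-- the data: local map, range, number of spare packets per site, default values -/
structure Par (d : ℕ) (α S : Type) where
  h : (V d → α) → (V d → S) → S
  a : ℕ
  M : ℕ
  dflt : α
  s0 : S

variable {P : Par d α S}

/-- state of the algorithm: known columns, used packets, finished sites (round and value) -/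
@[ext] structure St (P : Par d α S) where
  col : V d → ℕ → Option α
  use : V d → Fin P.M → Bool
  dn : V d → Option (ℕ × S)

/-- queries: a packet (`none` = the packet reserved for level 0) and the column it is read for -/
abbrev Qy (P : Par d α S) := (V d × Option (Fin P.M)) × (V d × ℕ)

/-- columns completed by a default value -/
def St.tot (s : St P) : V d → ℕ → α := fun u t => (s.col u t).getD P.dflt

open Classical in
/-- the unknown columns of level `t` needed by `x` -/
noncomputable def miss (s : St P) (x : V d) (t : ℕ) : Finset (V d) :=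
  (reqd P.h P.a s.tot {x} t).filter (fun u => s.col u t = none)

open Classical in
/-- free packets near `x` -/
noncomputable def free (s : St P) (i : ℕ) (x : V d) : Finset (V d × Fin P.M) :=
  ((ball x (2 * P.a * i)) ×ˢ Finset.univ).filter (fun p => s.use p.1 p.2 = false)

/-- what `x` wants to read in round `i` -/
noncomputable def want (s : St P) (i : ℕ) (x : V d) : Option ((V d × Fin P.M) × (V d × ℕ)) :=
  (firstCol x (miss s x) i).bind fun c => (rpick x (free s i x)).map fun p => (p, c)

/-- assign the packet `p`, of value `b`, to the column `c` -/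
def St.rd (s : St P) (p : V d × Fin P.M) (c : V d × ℕ) (b : α) : St P where
  col u t := if u = c.1 ∧ t = c.2 then some b else s.col u t
  use u m := if u = p.1 ∧ m = p.2 then true else s.use u m
  dn := s.dn

/-- exploration by `x` in round `i` -/
noncomputable def loop : ℕ → ℕ → V d → St P → Tree (Qy P) α (St P)
  | 0, _, _, s => .ret s
  | n + 1, i, x, s =>
    match want s i x with
    | none => .ret s
    | some pc => .read ((pc.1.1, some pc.1.2), pc.2) (fun b => loop n i x (s.rd pc.1 pc.2 b))

open Classical in
/-- end of the turn of `x` in round `i` -/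
noncomputable def fin (s : St P) (i : ℕ) (x : V d) : St P :=
  if firstCol x (miss s x) i = none ∧ front P.h P.a s.tot {x} (i + 1) = ∅ then
    ⟨s.col, s.use, fun u => if u = x then some (i, ev P.h s.tot 0 (i + 1) (fun _ => P.s0) x)
      else s.dn u⟩
  else s

/-- enough fuel -/
def fuel (P : Par d α S) (i : ℕ) : ℕ := (2 * (2 * P.a * i) + 1) ^ d * P.M

/-- turn of `x` in round `i` -/
noncomputable def attempt (i : ℕ) (x : V d) (s : St P) : Tree (Qy P) α (St P) :=
  if (s.dn x).isSome then .ret s
  else (loop (fuel P i) i x s).bind (fun s' => .ret (fin s' i x))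

/-- round `i` -/
noncomputable def roundT (i : ℕ) : List (V d) → St P → Tree (Qy P) α (St P)
  | [], s => .ret s
  | x :: L, s => (attempt i x s).bind (roundT i L)

/-- rounds `0, …, n-1` -/
noncomputable def runT (L : List (V d)) : ℕ → St P → Tree (Qy P) α (St P)
  | 0, s => .ret s
  | n + 1, s => (runT L n s).bind (roundT n L)

/-- store the level 0 column at `u` -/
def St.col0 (s : St P) (u : V d) (b : α) : St P where
  col u' t := if u' = u ∧ t = 0 then some b else s.col u' t
  use := s.use
  dn := s.dn

/-- reading the level 0 columns -/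
noncomputable def initT : List (V d) → St P → Tree (Qy P) α (St P)
  | [], s => .ret s
  | u :: L, s => .read ((u, none), (u, 0)) (fun b => initT L (s.col0 u b))

/-- the empty state -/
def empt (P : Par d α S) : St P where
  col _ _ := none
  use _ _ := false
  dn _ := none

/-- the whole algorithm: `L0` are the sites where level 0 is read, `L` the participating sites -/
noncomputable def prog (P : Par d α S) (N : ℕ) (L0 L : List (V d)) : Tree (Qy P) α (St P) :=
  (initT L0 (empt P)).bind (runT L N)

/-! ### basic facts on `want` -/

lemma want_some {s : St P} {i : ℕ} {x : V d} {pc : (V d × Fin P.M) × (V d × ℕ)}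
    (h : want s i x = some pc) :
    firstCol x (miss s x) i = some pc.2 ∧ pc.1 ∈ free s i x := by
  unfold want at h
  rw [Option.bind_eq_some_iff] at h
  obtain ⟨c, hc, h2⟩ := h
  rw [Option.map_eq_some_iff] at h2
  obtain ⟨p, hp, h3⟩ := h2
  rw [← h3]
  exact ⟨hc, rpick_mem hp⟩

lemma want_none {s : St P} {i : ℕ} {x : V d} (h : want s i x = none) :
    firstCol x (miss s x) i = none ∨ free s i x = ∅ := by
  unfold want at h
  cases hc : firstCol x (miss s x) i with
  | none => exact Or.inl rfl
  | some c =>
    rw [hc] at h
    simp only [Option.bind_some, Option.map_eq_none_iff] at h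
    exact Or.inr (rpick_eq_none.1 h)

lemma mem_free {s : St P} {i : ℕ} {x : V d} {p : V d × Fin P.M} :
    p ∈ free s i x ↔ p.1 ∈ ball x (2 * P.a * i) ∧ s.use p.1 p.2 = false := by
  simp [free]

lemma mem_miss {s : St P} {x : V d} {t : ℕ} {u : V d} :
    u ∈ miss s x t ↔ u ∈ reqd P.h P.a s.tot {x} t ∧ s.col u t = none := by
  simp [miss]

/-! ### evaluating the loop -/

lemma eval_loop_none (g : Qy P → α) (n i : ℕ) (x : V d) (s : St P) (h : want s i x = none) :
    (loop n i x s).eval g = s := by
  cases n with
  | zero => rfl
  | succ n => rw [loop, h]; rfl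

lemma eval_loop_some (g : Qy P → α) (n i : ℕ) (x : V d) (s : St P)
    {pc : (V d × Fin P.M) × (V d × ℕ)} (h : want s i x = some pc) :
    (loop (n + 1) i x s).eval g
      = (loop n i x (s.rd pc.1 pc.2 (g ((pc.1.1, some pc.1.2), pc.2)))).eval g := by
  rw [loop, h]; rfl

/-- invariants of the loop -/
lemma loop_inv (g : Qy P → α) {i : ℕ} {x : V d} (I : St P → Prop)
    (hstep : ∀ s pc, I s → want s i x = some pc →
      I (s.rd pc.1 pc.2 (g ((pc.1.1, some pc.1.2), pc.2)))) :
    ∀ n s, I s → I ((loop n i x s).eval g) := by
  intro n
  induction n with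
  | zero => intro s hs; exact hs
  | succ n ih =>
    intro s hs
    cases hw : want s i x with
    | none => rw [eval_loop_none g _ i x s hw]; exact hs
    | some pc =>
      rw [eval_loop_some g n i x s hw]
      exact ih _ (hstep s pc hs hw)

lemma free_rd {s : St P} {i : ℕ} {x : V d} {p : V d × Fin P.M} {c : V d × ℕ} {b : α}
    (hp : p ∈ free s i x) : free (s.rd p c b) i x = (free s i x).erase p := by
  ext q
  rw [Finset.mem_erase, mem_free, mem_free]
  simp only [St.rd]
  rw [mem_free] at hp
  by_cases hq : q = p
  · subst hq
    simp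
  · have hne : ¬ (q.1 = p.1 ∧ q.2 = p.2) := fun hh => hq (Prod.ext hh.1 hh.2)
    simp [hne, hq]

lemma loop_fuel (g : Qy P → α) {i : ℕ} {x : V d} :
    ∀ n s, (free s i x).card ≤ n → want ((loop n i x s).eval g) i x = none := by
  intro n
  induction n with
  | zero =>
    intro s hs
    have h0 : free s i x = ∅ := Finset.card_eq_zero.1 (by omega)
    show want s i x = none
    unfold want
    rw [h0, rpick_eq_none.2 rfl]
    cases firstCol x (miss s x) i <;> rfl
  | succ n ih =>
    intro s hs
    cases hw : want s i x with
    | none => rw [eval_loop_none g _ i x s hw]; exact hw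
    | some pc =>
      rw [eval_loop_some g n i x s hw]
      apply ih
      have hp := (want_some hw).2
      rw [free_rd hp, Finset.card_erase_of_mem hp]
      omega

lemma card_free_le (s : St P) (i : ℕ) (x : V d) : (free s i x).card ≤ fuel P i := by
  unfold free fuel
  refine (Finset.card_filter_le _ _).trans ?_
  rw [Finset.card_product, card_ball]
  simp

end alg

end H64.PCA
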