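import Pool.Agent.H64.PCA.StuckProb

/-!
# The union bound over chains
-/

open MeasureTheory ProbabilityTheory Set
open scoped ENNReal NNReal

namespace H64.PCA

variable {d : ℕ}

/-- far apart -/
def Far (a : ℕ) (e e' : V d × ℕ) : Prop := e.1 ∉ ball e'.1 (5 * a * (e.2 + e'.2))

/-- chains, newest element first -/
def GoodL (a : ℕ) : List (V d × ℕ) → Prop
  | [] => True
  | [x] => x.1 = 0 ∧ 1 ≤ x.2
  | x :: y :: rest => 1 ≤ x.2 ∧ x.1 ∈ ball y.1 (5 * a * (x.2 + y.2)) ∧
      (∀ z ∈ rest, Far a x z) ∧ GoodL a (y :: rest)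

lemma GoodL.tail {a : ℕ} {x : V d × ℕ} {l : List (V d × ℕ)} (h : GoodL a (x :: l)) :
    GoodL a l := by
  cases l with
  | nil => trivial
  | cons y rest => exact h.2.2.2

lemma GoodL.append_right {a : ℕ} {l p : List (V d × ℕ)} (h : GoodL a (l ++ p)) : GoodL a p := by
  induction l with
  | nil => exact h
  | cons x l ih => exact ih h.tail

lemma GoodL.head {a : ℕ} {x : V d × ℕ} {l : List (V d × ℕ)} (h : GoodL a (x :: l)) :
    1 ≤ x.2 := by
  cases l with
  | nil => exact h.2
  | cons y rest => exact h.1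

lemma GoodL.pos {a : ℕ} {l : List (V d × ℕ)} (h : GoodL a l) : ∀ e ∈ l, 1 ≤ e.2 := by
  induction l with
  | nil => simp
  | cons x l ih =>
    intro e he
    rcases List.mem_cons.1 he with h1 | h1
    · rw [h1]; exact h.head
    · exact ih h.tail e h1

/-- every second element -/
def alt {β : Type*} : List β → List β
  | [] => []
  | [x] => [x]
  | x :: _ :: rest => x :: alt rest

lemma alt_mem {β : Type*} : ∀ (l : List β) (e : β), e ∈ alt l → e ∈ l
  | [], e, h => by simp [alt] at h
  | [x], e, h => by simpa [alt] using h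
  | x :: y :: rest, e, h => by
    simp only [alt, List.mem_cons] at h
    rcases h with h | h
    · simp [h]
    · have := alt_mem rest e h
      simp [this]

lemma alt_pairwise {a : ℕ} : ∀ (l : List (V d × ℕ)), GoodL a l → (alt l).Pairwise (Far a)
  | [], _ => by simp [alt]
  | [x], _ => by simp [alt]
  | x :: y :: rest, h => by
    simp only [alt, List.pairwise_cons]
    exact ⟨fun z hz => h.2.2.1 z (alt_mem rest z hz), alt_pairwise rest h.2.2.2.tail⟩

lemma alt_sum : ∀ (l : List (V d × ℕ)),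
    ((alt l).map Prod.snd).sum + ((alt l.tail).map Prod.snd).sum = (l.map Prod.snd).sum
  | [] => by simp [alt]
  | [x] => by simp [alt]
  | x :: y :: rest => by
    have ih := alt_sum rest
    have e : alt (y :: rest) = y :: alt rest.tail := by
      cases rest with
      | nil => rfl
      | cons z r => rfl
    simp only [alt, List.tail_cons, e, List.map_cons, List.sum_cons]
    omega

section prob

variable {α S : Type} [Finite α] [MeasurableSpace α] [DiscreteMeasurableSpace α]
  {P : Par d α S}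

/-- all sites of the list are stuck in the corresponding rounds -/
def AllStuck (P : Par d α S) (l : List (V d × ℕ)) (X : V d × ℕ → α) : Prop :=
  ∀ e ∈ l, Stuck P (cur X) (e.2 - 1) e.1

omit [Finite α] [DiscreteMeasurableSpace α] [MeasurableSpace α] in
lemma allStuck_dependsOn (hl : IsLocal P.h P.a) (l : List (V d × ℕ)) (hl1 : ∀ e ∈ l, 1 ≤ e.2) :
    ∃ J : Finset (V d × ℕ), DependsOn (AllStuck P l) (J : Set (V d × ℕ)) ∧
      ∀ q ∈ J, ∃ e ∈ l, q.1 ∈ ball e.1 (5 * P.a * e.2) := by
  classical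
  refine ⟨l.toFinset.biUnion (fun e => rg {e.1} (5 * P.a * e.2) e.2), ?_, ?_⟩
  · intro X X' hX
    refine propext (forall_congr' fun e => ?_)
    by_cases he : e ∈ l
    · have h1 : ∀ q ∈ (rg {e.1} (5 * P.a * (e.2 - 1 + 1)) (e.2 - 1 + 1) : Set (V d × ℕ)),
          X q = X' q := by
        intro q hq
        refine hX q ?_
        have e1 : e.2 - 1 + 1 = e.2 := Nat.sub_add_cancel (hl1 e he)
        rw [e1] at hq
        simp only [Finset.coe_biUnion, mem_iUnion]
        exact ⟨e, by simpa using he, hq⟩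
      have := stuck_dependsOn hl (e.2 - 1) e.1 h1
      simp only at this
      rw [this]
    · simp [he]
  · intro q hq
    rw [Finset.mem_biUnion] at hq
    obtain ⟨e, he, hq⟩ := hq
    obtain ⟨⟨x, hx, hn⟩, -⟩ := mem_rg.1 hq
    rw [Finset.mem_singleton] at hx
    subst hx
    exact ⟨e, by simpa using he, hn⟩

lemma prob_allStuck_far (hl : IsLocal P.h P.a) (ν : Measure α) [IsProbabilityMeasure ν]
    {θ : ℝ≥0∞} (hst : ∀ i x, (Pr (V d × ℕ) ν) {X | Stuck P (cur X) i x} ≤ θ ^ (2 * (i + 1)))
    (l : List (V d × ℕ)) (hl1 : ∀ e ∈ l, 1 ≤ e.2) (hfar : l.Pairwise (Far P.a)) :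
    (Pr (V d × ℕ) ν) {X | AllStuck P l X} ≤ θ ^ (2 * (l.map Prod.snd).sum) := by
  classical
  induction l with
  | nil => simp [AllStuck]
  | cons x l ih =>
    rw [List.pairwise_cons] at hfar
    have ih' := ih (fun e he => hl1 e (by simp [he])) hfar.2
    obtain ⟨J, hJ, hJ2⟩ := allStuck_dependsOn hl l (fun e he => hl1 e (by simp [he]))
    have hx1 : x.2 - 1 + 1 = x.2 := Nat.sub_add_cancel (hl1 x (by simp))
    have hset : {X : V d × ℕ → α | AllStuck P (x :: l) X}
        = {X | Stuck P (cur X) (x.2 - 1) x.1 ∧ AllStuck P l X} := by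
      ext X; simp [AllStuck]
    rw [hset, measure_and_of_dependsOn ν (stuck_dependsOn hl (x.2 - 1) x.1) hJ]
    · rw [List.map_cons, List.sum_cons, mul_add, pow_add]
      refine mul_le_mul' ?_ ih'
      have := hst (x.2 - 1) x.1
      rwa [hx1] at this
    · rw [Finset.disjoint_left]
      intro q hq hq'
      rw [hx1] at hq
      obtain ⟨⟨z, hz, hn⟩, -⟩ := mem_rg.1 hq
      rw [Finset.mem_singleton] at hz
      subst hz
      obtain ⟨e, he, hn'⟩ := hJ2 q hq'
      apply hfar.1 e he
      have := mem_ball_trans hn' (mem_ball_comm.1 hn)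
      refine ball_mono (le_of_eq ?_) this
      ring

lemma prob_allStuck_good (hl : IsLocal P.h P.a) (ν : Measure α) [IsProbabilityMeasure ν]
    {θ : ℝ≥0∞} (hθ : θ ≤ 1)
    (hst : ∀ i x, (Pr (V d × ℕ) ν) {X | Stuck P (cur X) i x} ≤ θ ^ (2 * (i + 1)))
    (l : List (V d × ℕ)) (hgood : GoodL P.a l) :
    (Pr (V d × ℕ) ν) {X | AllStuck P l X} ≤ θ ^ (l.map Prod.snd).sum := by
  have hsum := alt_sum l
  have key : ∀ l' : List (V d × ℕ), GoodL P.a l' → (∀ e ∈ alt l', e ∈ l) →
      (l.map Prod.snd).sum ≤ 2 * ((alt l').map Prod.snd).sum →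
      (Pr (V d × ℕ) ν) {X | AllStuck P l X} ≤ θ ^ (l.map Prod.snd).sum := by
    intro l' hg hsub hle
    calc (Pr (V d × ℕ) ν) {X | AllStuck P l X}
        ≤ (Pr (V d × ℕ) ν) {X | AllStuck P (alt l') X} :=
          measure_mono fun X hX e he => hX e (hsub e he)
      _ ≤ θ ^ (2 * ((alt l').map Prod.snd).sum) :=
          prob_allStuck_far hl ν hst _ (fun e he => hg.pos e (alt_mem _ e he)) (alt_pairwise _ hg)
      _ ≤ θ ^ (l.map Prod.snd).sum := pow_le_pow_right_of_le_one' hθ hle
  rcases Nat.lt_or_ge ((alt l).map Prod.snd).sum ((alt l.tail).map Prod.snd).sum with h | h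
  · refine key l.tail ?_ ?_ (by omega)
    · cases l with
      | nil => trivial
      | cons x l => exact hgood.tail
    · intro e he
      exact List.mem_of_mem_tail (alt_mem _ e he)
  · exact key l hgood (fun e he => alt_mem _ e he) (by omega)

end prob

end H64.PCA
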