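import Pool.Agent.H64.PCA.Chain

/-!
# The union bound over chains, summation
-/

open MeasureTheory ProbabilityTheory Set
open scoped ENNReal NNReal

namespace H64.PCA

variable {d : ℕ}

lemma geom_bound {K x : ℝ≥0∞} (hK : 1 ≤ K) (hx : 4 * (K * x) ≤ 1) :
    K * ∑' j : ℕ, x ^ (j + 1) ≤ 2⁻¹ := by
  have hx4 : 4 * x ≤ 1 := by
    refine le_trans ?_ hx
    gcongr
    calc x = 1 * x := (one_mul x).symm
      _ ≤ K * x := by gcongr
  have hx1 : x ≤ 2⁻¹ := by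
    rw [ENNReal.le_inv_iff_mul_le]
    refine le_trans ?_ hx4
    rw [mul_comm]
    gcongr
    norm_num
  have h1 : ∑' j : ℕ, x ^ (j + 1) = x * (1 - x)⁻¹ := by
    simp only [pow_succ']
    rw [ENNReal.tsum_mul_left, ENNReal.tsum_geometric]
  have h2 : (1 - x)⁻¹ ≤ 2 := by
    rw [ENNReal.inv_le_iff_inv_le]
    have : (2 : ℝ≥0∞)⁻¹ = 1 - 2⁻¹ := by
      rw [ENNReal.one_sub_inv_two]
    rw [this]
    exact tsub_le_tsub_left hx1 1
  rw [h1]
  rw [ENNReal.le_inv_iff_mul_le]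
  calc K * (x * (1 - x)⁻¹) * 2 ≤ K * (x * 2) * 2 := by gcongr
    _ = 4 * (K * x) := by ring
    _ ≤ 1 := hx

lemma card_ball_chain {a : ℕ} (ha : 1 ≤ a) (x : V d) {n : ℕ} (hn : 1 ≤ n) :
    (ball x (5 * a * n)).card ≤ (11 * a) ^ d * (2 ^ d) ^ n := by
  rw [card_ball, ← pow_mul, mul_comm d n, pow_mul, ← mul_pow]
  refine Nat.pow_le_pow_left ?_ d
  have h1 : 1 ≤ a * n := Nat.one_le_iff_ne_zero.2 (Nat.mul_ne_zero (by omega) (by omega))
  have h2 : n ≤ 2 ^ n := Nat.lt_two_pow_self.le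
  calc 2 * (5 * a * n) + 1 ≤ 11 * (a * n) := by nlinarith
    _ ≤ 11 * (a * 2 ^ n) := by gcongr
    _ = 11 * a * 2 ^ n := by ring

section prob

variable {α S : Type} [Finite α] [MeasurableSpace α] [DiscreteMeasurableSpace α]
  {P : Par d α S}

/-- there is a chain extending `p` by `k` elements, all of whose sites are stuck -/
def Ev (P : Par d α S) (m k : ℕ) (p : List (V d × ℕ)) : Set (V d × ℕ → α) :=
  {X | ∃ l : List (V d × ℕ), l.length = k ∧ GoodL P.a (l ++ p) ∧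
    m ≤ ((l ++ p).map Prod.snd).sum ∧ AllStuck P (l ++ p) X}

lemma union_bound (ha : 1 ≤ P.a) (hl : IsLocal P.h P.a) (ν : Measure α) [IsProbabilityMeasure ν]
    {θ : ℝ≥0∞} (hθ : θ ≤ 1)
    (hx : 4 * ((((11 * P.a) ^ d : ℕ) : ℝ≥0∞) * (2 * θ * (2 ^ d * 2 ^ d))) ≤ 1)
    (hst : ∀ i x, (Pr (V d × ℕ) ν) {X | Stuck P (cur X) i x} ≤ θ ^ (2 * (i + 1))) (m : ℕ) :
    ∀ (k : ℕ) (e : V d × ℕ) (p : List (V d × ℕ)), GoodL P.a (e :: p) →
      (Pr (V d × ℕ) ν) (Ev P m k (e :: p)) ≤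
        (2⁻¹) ^ m * (2 * θ) ^ ((e :: p).map Prod.snd).sum * (2⁻¹) ^ k * (2 ^ d) ^ e.2 := by
  have h2d : (1 : ℝ≥0∞) ≤ 2 ^ d := one_le_pow₀ (by norm_num)
  intro k
  induction k with
  | zero =>
    intro e p hg
    set s := ((e :: p).map Prod.snd).sum with hs
    by_cases hm : m ≤ s
    · calc (Pr (V d × ℕ) ν) (Ev P m 0 (e :: p))
          ≤ (Pr (V d × ℕ) ν) {X | AllStuck P (e :: p) X} := by
            refine measure_mono ?_
            rintro X ⟨l, hl0, -, -, hX⟩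
            rw [List.length_eq_zero_iff] at hl0
            subst hl0
            exact hX
        _ ≤ θ ^ s := prob_allStuck_good hl ν hθ hst _ hg
        _ = 1 * θ ^ s * 1 * 1 := by simp
        _ ≤ ((2⁻¹) ^ m * 2 ^ s) * θ ^ s * 1 * (2 ^ d) ^ e.2 := by
            gcongr
            · obtain ⟨r, hr⟩ := Nat.exists_eq_add_of_le hm
              rw [hr, pow_add, ← mul_assoc, ← mul_pow, ENNReal.inv_mul_cancel (by norm_num)
                (by norm_num), one_pow, one_mul]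
              exact one_le_pow₀ (by norm_num)
            · exact one_le_pow₀ h2d
        _ = (2⁻¹) ^ m * (2 * θ) ^ s * (2⁻¹) ^ 0 * (2 ^ d) ^ e.2 := by
            rw [mul_pow, pow_zero]; ring
    · have : Ev P m 0 (e :: p) = ∅ := by
        rw [Set.eq_empty_iff_forall_notMem]
        rintro X ⟨l, hl0, -, h2, -⟩
        rw [List.length_eq_zero_iff] at hl0
        subst hl0
        exact hm h2
      rw [this]; simp
  | succ k ih =>
    intro e p hg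
    classical
    set s := ((e :: p).map Prod.snd).sum with hs
    have hcover : Ev P m (k + 1) (e :: p) ⊆
        ⋃ j : ℕ, ⋃ y ∈ ball e.1 (5 * P.a * (j + 1 + e.2)),
          (if GoodL P.a ((y, j + 1) :: e :: p) then Ev P m k ((y, j + 1) :: e :: p) else ∅) := by
      rintro X ⟨l, hlen, hgood, hsum, hX⟩
      have hne : l ≠ [] := by
        intro hh; rw [hh] at hlen; simp at hlen
      obtain ⟨l', z, rfl⟩ : ∃ l' z, l = l' ++ [z] := ⟨l.dropLast, l.getLast hne,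
        (List.dropLast_append_getLast hne).symm⟩
      have hlen' : l'.length = k := by simpa using hlen
      have e1 : l' ++ [z] ++ e :: p = l' ++ (z :: e :: p) := by simp
      rw [e1] at hgood hsum hX
      have hg' := hgood.append_right
      have hz1 : 1 ≤ z.2 := hg'.head
      have hzb : z.1 ∈ ball e.1 (5 * P.a * (z.2 + e.2)) := hg'.2.1
      obtain ⟨j, hj⟩ : ∃ j, z.2 = j + 1 := ⟨z.2 - 1, by omega⟩
      have hzz : z = (z.1, j + 1) := Prod.ext rfl hj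
      rw [mem_iUnion]
      refine ⟨j, ?_⟩
      rw [mem_iUnion₂]
      refine ⟨z.1, by rw [← hj]; exact hzb, ?_⟩
      rw [← hzz, if_pos hg']
      exact ⟨l', hlen', hgood, hsum, hX⟩
    calc (Pr (V d × ℕ) ν) (Ev P m (k + 1) (e :: p))
        ≤ ∑' j : ℕ, (Pr (V d × ℕ) ν) (⋃ y ∈ ball e.1 (5 * P.a * (j + 1 + e.2)),
          (if GoodL P.a ((y, j + 1) :: e :: p) then Ev P m k ((y, j + 1) :: e :: p) else ∅)) :=
          (measure_mono hcover).trans (measure_iUnion_le _)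
      _ ≤ ∑' j : ℕ, ∑ y ∈ ball e.1 (5 * P.a * (j + 1 + e.2)),
            ((2⁻¹) ^ m * (2 * θ) ^ (j + 1 + s) * (2⁻¹) ^ k * (2 ^ d) ^ (j + 1)) := by
          refine ENNReal.tsum_le_tsum fun j => ?_
          refine (measure_biUnion_finset_le _ _).trans (Finset.sum_le_sum fun y _ => ?_)
          split_ifs with hgg
          · have := ih (y, j + 1) (e :: p) hgg
            have e2 : (((y, j + 1) :: e :: p : List (V d × ℕ)).map Prod.snd).sum = j + 1 + s := by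
              rw [List.map_cons, List.sum_cons]
            rw [e2] at this
            exact this
          · simp
      _ ≤ ∑' j : ℕ, (2⁻¹) ^ m * (2 * θ) ^ s * (2⁻¹) ^ k * (2 ^ d) ^ e.2 *
            ((((11 * P.a) ^ d : ℕ) : ℝ≥0∞) * (2 * θ * (2 ^ d * 2 ^ d)) ^ (j + 1)) := by
          refine ENNReal.tsum_le_tsum fun j => ?_
          rw [Finset.sum_const, nsmul_eq_mul]
          have hc : ((ball e.1 (5 * P.a * (j + 1 + e.2))).card : ℝ≥0∞)
              ≤ (((11 * P.a) ^ d : ℕ) : ℝ≥0∞) * (2 ^ d) ^ (j + 1 + e.2) := by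
            have := card_ball_chain ha e.1 (n := j + 1 + e.2) (by omega)
            have h2 : ((_ : ℕ) : ℝ≥0∞) ≤ ((_ : ℕ) : ℝ≥0∞) := Nat.cast_le.2 this
            rw [Nat.cast_mul] at h2
            refine h2.trans (le_of_eq ?_)
            push_cast
            rfl
          calc ((ball e.1 (5 * P.a * (j + 1 + e.2))).card : ℝ≥0∞)
                * ((2⁻¹) ^ m * (2 * θ) ^ (j + 1 + s) * (2⁻¹) ^ k * (2 ^ d) ^ (j + 1))
              ≤ (((11 * P.a) ^ d : ℕ) : ℝ≥0∞) * (2 ^ d) ^ (j + 1 + e.2)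
                * ((2⁻¹) ^ m * (2 * θ) ^ (j + 1 + s) * (2⁻¹) ^ k * (2 ^ d) ^ (j + 1)) := by
                gcongr
            _ = _ := by
              rw [pow_add (2 * θ) (j + 1) s, pow_add (2 ^ d : ℝ≥0∞) (j + 1) e.2, mul_pow (2 * θ),
                mul_pow (2 ^ d : ℝ≥0∞) (2 ^ d)]
              ring
      _ = (2⁻¹) ^ m * (2 * θ) ^ s * (2⁻¹) ^ k * (2 ^ d) ^ e.2 *
            ((((11 * P.a) ^ d : ℕ) : ℝ≥0∞) * ∑' j : ℕ, (2 * θ * (2 ^ d * 2 ^ d)) ^ (j + 1)) := by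
          rw [ENNReal.tsum_mul_left, ENNReal.tsum_mul_left]
      _ ≤ (2⁻¹) ^ m * (2 * θ) ^ s * (2⁻¹) ^ k * (2 ^ d) ^ e.2 * 2⁻¹ := by
          gcongr
          refine geom_bound ?_ hx
          have : 1 ≤ (11 * P.a) ^ d := Nat.one_le_pow _ _ (by omega)
          exact_mod_cast this
      _ = (2⁻¹) ^ m * (2 * θ) ^ s * (2⁻¹) ^ (k + 1) * (2 ^ d) ^ e.2 := by
          rw [pow_succ]; ring

/-- the total bound -/
theorem chain_bound (ha : 1 ≤ P.a) (hl : IsLocal P.h P.a) (ν : Measure α)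
    [IsProbabilityMeasure ν] {θ : ℝ≥0∞} (hθ : θ ≤ 1)
    (hx : 4 * ((((11 * P.a) ^ d : ℕ) : ℝ≥0∞) * (2 * θ * (2 ^ d * 2 ^ d))) ≤ 1)
    (hst : ∀ i x, (Pr (V d × ℕ) ν) {X | Stuck P (cur X) i x} ≤ θ ^ (2 * (i + 1))) (m : ℕ) :
    (Pr (V d × ℕ) ν) {X | ∃ l : List (V d × ℕ), l ≠ [] ∧ GoodL P.a l ∧
      m ≤ (l.map Prod.snd).sum ∧ AllStuck P l X} ≤ (2⁻¹) ^ m := by
  have hcover : {X : V d × ℕ → α | ∃ l : List (V d × ℕ), l ≠ [] ∧ GoodL P.a l ∧
      m ≤ (l.map Prod.snd).sum ∧ AllStuck P l X} ⊆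
      ⋃ k : ℕ, ⋃ j : ℕ, Ev P m k [((0 : V d), j + 1)] := by
    rintro X ⟨l, hne, hgood, hsum, hX⟩
    obtain ⟨l', z, rfl⟩ : ∃ l' z, l = l' ++ [z] := ⟨l.dropLast, l.getLast hne,
      (List.dropLast_append_getLast hne).symm⟩
    have hz := hgood.append_right
    obtain ⟨hz0, hz1⟩ : z.1 = 0 ∧ 1 ≤ z.2 := hz
    obtain ⟨j, hj⟩ : ∃ j, z.2 = j + 1 := ⟨z.2 - 1, by omega⟩
    have hzz : z = (0, j + 1) := Prod.ext hz0 hj
    rw [mem_iUnion]
    refine ⟨l'.length, ?_⟩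
    rw [mem_iUnion]
    refine ⟨j, ?_⟩
    rw [← hzz]
    exact ⟨l', rfl, hgood, hsum, hX⟩
  set K : ℝ≥0∞ := (((11 * P.a) ^ d : ℕ) : ℝ≥0∞) with hK
  set x : ℝ≥0∞ := 2 * θ * (2 ^ d * 2 ^ d) with hxdef
  have hK1 : 1 ≤ K := by
    have : 1 ≤ (11 * P.a) ^ d := Nat.one_le_pow _ _ (by omega)
    rw [hK]
    exact_mod_cast this
  have h2d : (1 : ℝ≥0∞) ≤ 2 ^ d := one_le_pow₀ (by norm_num)
  calc (Pr (V d × ℕ) ν) {X | ∃ l : List (V d × ℕ), l ≠ [] ∧ GoodL P.a l ∧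
        m ≤ (l.map Prod.snd).sum ∧ AllStuck P l X}
      ≤ ∑' k : ℕ, ∑' j : ℕ, (Pr (V d × ℕ) ν) (Ev P m k [((0 : V d), j + 1)]) := by
        refine (measure_mono hcover).trans ((measure_iUnion_le _).trans ?_)
        exact ENNReal.tsum_le_tsum fun k => measure_iUnion_le _
    _ ≤ ∑' k : ℕ, ∑' j : ℕ, (2⁻¹) ^ m * (2⁻¹) ^ k * x ^ (j + 1) := by
        refine ENNReal.tsum_le_tsum fun k => ENNReal.tsum_le_tsum fun j => ?_
        have := union_bound ha hl ν hθ hx hst m k ((0 : V d), j + 1) [] ⟨rfl, by omega⟩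
        refine this.trans ?_
        simp only [List.map_cons, List.map_nil, List.sum_cons, List.sum_nil, add_zero]
        calc (2⁻¹ : ℝ≥0∞) ^ m * (2 * θ) ^ (j + 1) * (2⁻¹) ^ k * (2 ^ d) ^ (j + 1)
            = (2⁻¹) ^ m * (2⁻¹) ^ k * (2 * θ * 2 ^ d) ^ (j + 1) := by
              rw [mul_pow (2 * θ)]; ring
          _ ≤ (2⁻¹) ^ m * (2⁻¹) ^ k * x ^ (j + 1) := by
              gcongr
              rw [hxdef]
              gcongr
              calc (2 : ℝ≥0∞) ^ d = 2 ^ d * 1 := (mul_one _).symm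
                _ ≤ 2 ^ d * 2 ^ d := by gcongr
    _ = (2⁻¹) ^ m * ((∑' k : ℕ, (2⁻¹ : ℝ≥0∞) ^ k) * ∑' j : ℕ, x ^ (j + 1)) := by
        simp only [ENNReal.tsum_mul_left, ENNReal.tsum_mul_right]
        ring
    _ ≤ (2⁻¹) ^ m * (2 * 2⁻¹) := by
        gcongr
        · rw [ENNReal.tsum_geometric, ENNReal.one_sub_inv_two, inv_inv]
        · refine le_trans ?_ (geom_bound hK1 hx)
          calc ∑' j : ℕ, x ^ (j + 1) = 1 * ∑' j : ℕ, x ^ (j + 1) := (one_mul _).symm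
            _ ≤ K * ∑' j : ℕ, x ^ (j + 1) := by gcongr
    _ = (2⁻¹) ^ m := by
        rw [ENNReal.mul_inv_cancel (by norm_num) (by norm_num), mul_one]

end prob

end H64.PCA
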