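import Pool.Agent.H64.PCA.Equi

/-!
# Translation invariant enumeration of finite sets of sites
-/

open Set

namespace H64.PCA

variable {d : ℕ}

/-- the lexicographic order on sites -/
def lle (x y : V d) : Prop := toLex x ≤ toLex y

noncomputable instance : DecidableRel (lle (d := d)) := fun _ _ => Classical.propDecidable _

instance : IsTrans (V d) lle := ⟨fun _ _ _ h1 h2 => le_trans (α := Lex (V d)) h1 h2⟩
instance : Std.Antisymm (lle (d := d)) := ⟨fun _ _ h1 h2 => toLex.injective (le_antisymm h1 h2)⟩
instance : Std.Total (lle (d := d)) := ⟨fun x y => le_total (toLex x) (toLex y)⟩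

lemma lle_add (x y v : V d) (h : lle x y) : lle (x + v) (y + v) := by
  unfold lle at *
  rw [toLex_add, toLex_add]
  exact add_le_add_left h _

/-- enumeration of a finite set in lexicographic order -/
noncomputable def srt (G : Finset (V d)) : List (V d) := G.sort lle

lemma mem_srt {G : Finset (V d)} {x : V d} : x ∈ srt G ↔ x ∈ G := Finset.mem_sort _

lemma nodup_srt (G : Finset (V d)) : (srt G).Nodup := Finset.sort_nodup _ _

lemma pairwise_srt (G : Finset (V d)) : (srt G).Pairwise lle := Finset.pairwise_sort _ _

lemma eq_srt {G : Finset (V d)} {l : List (V d)} (h1 : l.Nodup) (h2 : l.Pairwise lle)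
    (h3 : ∀ x, x ∈ l ↔ x ∈ G) : l = srt G := by
  refine List.Perm.eq_of_pairwise' h2 (pairwise_srt G) ?_
  rw [List.perm_ext_iff_of_nodup h1 (nodup_srt G)]
  intro x
  rw [h3, mem_srt]

open Classical in
lemma srt_filter {G G' : Finset (V d)} (h : G ⊆ G') :
    (srt G').filter (fun x => x ∈ G) = srt G := by
  refine eq_srt ((nodup_srt G').filter _) ((pairwise_srt G').filter _) ?_
  intro x
  rw [List.mem_filter, mem_srt]
  simp only [decide_eq_true_eq]
  exact ⟨fun h => h.2, fun hx => ⟨h hx, hx⟩⟩

/-- translate a finite set -/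
def trs (v : V d) (G : Finset (V d)) : Finset (V d) := G.map (addRightEmbedding v)

lemma mem_trs {v x : V d} {G : Finset (V d)} : x ∈ trs v G ↔ x - v ∈ G := by
  unfold trs
  rw [Finset.mem_map]
  constructor
  · rintro ⟨y, hy, rfl⟩
    simpa using hy
  · intro h
    exact ⟨x - v, h, by simp⟩

lemma srt_map (v : V d) (G : Finset (V d)) : (srt G).map (fun x => x + v) = srt (trs v G) := by
  refine eq_srt ((nodup_srt G).map (add_left_injective v)) ?_ ?_
  · rw [List.pairwise_map]
    exact (pairwise_srt G).imp (fun h => lle_add _ _ v h)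
  · intro x
    rw [List.mem_map, mem_trs]
    constructor
    · rintro ⟨y, hy, rfl⟩
      rw [mem_srt] at hy
      simpa using hy
    · intro h
      exact ⟨x - v, mem_srt.2 h, by simp⟩

end H64.PCA
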