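import Pool.Agent.H64.PCA.Stab
import Pool.Agent.H64.PCA.Sort

/-!
# The coding map
-/

open MeasureTheory ProbabilityTheory Set
open scoped ENNReal NNReal

namespace H64.PCA

variable {d : ℕ} {α S : Type} {P : Par d α S}

/-- the sites near `G` -/
noncomputable def thick (P : Par d α S) (G : Finset (V d)) : Finset (V d) := by
  classical
  exact G.biUnion (fun x => ball x P.a)

lemma mem_thick {G : Finset (V d)} {u : V d} :
    u ∈ thick P G ↔ ∃ x ∈ G, u ∈ ball x P.a := by
  classical
  simp [thick]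

/-- the algorithm on the set `G` of participating sites, rounds `0, …, N` -/
noncomputable def pg (P : Par d α S) (G : Finset (V d)) (N : ℕ) : Tree (Qy P) α (St P) :=
  prog P (N + 1) (thick P G).toList (srt G)

lemma pg_fresh_fst (G : Finset (V d)) (N : ℕ) : (pg P G N).Fresh Prod.fst (usedP (empt P)) :=
  prog_fresh_fst _ (Finset.nodup_toList _) _

lemma pg_fresh_snd (G : Finset (V d)) (N : ℕ) : (pg P G N).Fresh Prod.snd (asg (empt P)) :=
  prog_fresh_snd _ (Finset.nodup_toList _) _

/-- the real run: packets are read from `X` -/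
noncomputable def rr (P : Par d α S) (G : Finset (V d)) (N : ℕ)
    (X : V d × Option (Fin P.M) → α) : St P := (pg P G N).eval (fun q => X q.1)

/-- the ideal run: columns are read from `Z` -/
noncomputable def ri (P : Par d α S) (G : Finset (V d)) (N : ℕ)
    (Z : V d × ℕ → α) : St P := (pg P G N).eval (fun q => Z q.2)

lemma ideal_run' (hl : IsLocal P.h P.a) (Z : V d × ℕ → α) (G : Finset (V d)) (N : ℕ) {x : V d}
    (hx : x ∈ G) : ((ri P G N Z).dn x = none → Stuck P (cur Z) N x) ∧
      Fine P (cur Z) N x ((ri P G N Z).dn x) := by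
  refine ideal_run hl (cur Z) (G := G) (fun x => mem_srt) (nodup_srt G) ?_ N hx
  intro x hx u hu
  rw [Finset.mem_toList, mem_thick]
  exact ⟨x, hx, hu⟩

section prob

variable [Fintype α] [MeasurableSpace α] [DiscreteMeasurableSpace α]

/-- the two runs have the same law -/
lemma law_rr_ri (ν : Measure α) [IsProbabilityMeasure ν] (G : Finset (V d)) (N : ℕ)
    (E : Set (St P)) :
    (Pr (V d × Option (Fin P.M)) ν) {X | rr P G N X ∈ E} = (Pr (V d × ℕ) ν) {Z | ri P G N Z ∈ E} :=
  Tree.law_eq ν Prod.fst Prod.snd (pg P G N) (pg_fresh_fst G N) (pg_fresh_snd G N) E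

lemma prob_not_stab (ha : 1 ≤ P.a) (hl : IsLocal P.h P.a) (ν : Measure α)
    [IsProbabilityMeasure ν] {θ : ℝ≥0∞} (hθ : θ ≤ 1)
    (hx : 4 * ((((11 * P.a) ^ d : ℕ) : ℝ≥0∞) * (2 * θ * (2 ^ d * 2 ^ d))) ≤ 1)
    (hst : ∀ i x, (Pr (V d × ℕ) ν) {X | Stuck P (cur X) i x} ≤ θ ^ (2 * (i + 1)))
    {N m : ℕ} (hm : 5 * m ≤ 2 * (N + 1)) :
    (Pr (V d × Option (Fin P.M)) ν) {X | ¬ Stab (rr P (GG P N) N X) N} ≤ (2⁻¹) ^ m := by
  have h1 := law_rr_ri (P := P) ν (GG P N) N {s | ¬ Stab s N}
  simp only [mem_ofPred_eq] at h1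
  rw [h1]
  refine le_trans (measure_mono ?_) (chain_bound ha hl ν hθ hx hst m)
  intro Z hZ
  obtain ⟨l, hne, hg, hmem, hsum⟩ := exists_chain _ N hZ
  refine ⟨l, hne, hg, by omega, ?_⟩
  intro e he
  obtain ⟨h2, h3⟩ := hmem e he
  obtain ⟨h4, h5⟩ := ideal_run' hl Z (GG P N) N h3
  have he1 := hg.pos e he
  unfold mk at h2
  cases hd : (ri P (GG P N) N Z).dn e.1 with
  | none =>
    rw [hd] at h2
    simp only [Option.elim_none] at h2
    rw [h2]
    exact h4 hd
  | some r =>
    rw [hd] at h2
    simp only [Option.elim_some] at h2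
    rw [h2]
    exact (h5 r.1 r.2 hd).2.1 (by omega)

end prob

/-! ### stability -/

lemma rr_stable (hl : IsLocal P.h P.a) {X : V d × Option (Fin P.M) → α} {N N' : ℕ}
    (hN : N ≤ N') {G : Finset (V d)} (hG : GG P N ⊆ G) (h : Stab (rr P (GG P N) N X) N) :
    (rr P G N' X).dn 0 = (rr P (GG P N) N X).dn 0 ∧ (rr P (GG P N) N X).dn 0 ≠ none := by
  classical
  obtain ⟨C, h0, hCG, hC⟩ := h
  have hfil := srt_filter hG
  have key := run_stable (P := P) hl hCG (g := fun q => X q.1) (N := N + 1) (N' := N' + 1)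
    (by omega) (L0 := (thick P (GG P N)).toList) (L0' := (thick P G).toList) (L := srt G)
    ?_ ?_ 0 h0
  · rw [hfil] at key
    refine ⟨key, ?_⟩
    obtain ⟨r, v, hrv, -⟩ := hC 0 h0
    rw [hrv]; simp
  · intro y hy u hu
    rw [Finset.mem_toList, Finset.mem_toList, mem_thick, mem_thick]
    exact ⟨⟨y, hCG hy, hu⟩, ⟨y, hG (hCG hy), hu⟩⟩
  · intro z hz
    rw [hfil]
    exact hC z hz

/-! ### translations -/

/-- translate a configuration of packets -/
def shX {κ : Type} (v : V d) (X : V d × κ → α) : V d × κ → α := fun q => X (q.1 + v, q.2)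

lemma initT_congr (g : Qy P → α) {L L' : List (V d)} (h : ∀ x, x ∈ L ↔ x ∈ L') (s : St P) :
    (initT L s).eval g = (initT L' s).eval g := by
  rw [initT_eval, initT_eval]
  simp only [h]

lemma thick_trs (v : V d) (G : Finset (V d)) (x : V d) :
    x ∈ (thick P G).toList.map (fun x => x + v) ↔ x ∈ (thick P (trs v G)).toList := by
  rw [List.mem_map, Finset.mem_toList, mem_thick]
  constructor
  · rintro ⟨y, hy, rfl⟩
    rw [Finset.mem_toList, mem_thick] at hy
    obtain ⟨z, hz, hyz⟩ := hy
    exact ⟨z + v, mem_trs.2 (by simpa using hz), mem_ball_add.2 hyz⟩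
  · rintro ⟨z, hz, hxz⟩
    refine ⟨x - v, ?_, by simp⟩
    rw [Finset.mem_toList, mem_thick]
    refine ⟨z - v, mem_trs.1 hz, ?_⟩
    rw [← mem_ball_add (v := v)]
    simpa using hxz

lemma rr_shift (v : V d) (G : Finset (V d)) (N : ℕ) (X : V d × Option (Fin P.M) → α) (u : V d) :
    (rr P G N (shX v X)).dn u = (rr P (trs v G) N X).dn (u + v) := by
  have hcomp : Comp (P := P) v (fun q => shX v X q.1) (fun q => X q.1) := by
    intro p m u t
    rfl
  unfold rr pg
  rw [prog_sh hcomp, srt_map]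
  show ((prog P (N + 1) ((thick P G).toList.map (fun x => x + v)) (srt (trs v G))).eval
    (fun q => X q.1)).dn (u + v) = _
  rw [prog_eval, prog_eval, initT_congr _ (thick_trs v G)]

/-! ### the coding map -/

/-- the value found at the origin -/
def vl (P : Par d α S) (r : Option (ℕ × S)) : S := r.elim P.s0 Prod.snd

lemma exists_find (P : Par d α S) (X : V d × Option (Fin P.M) → α) :
    ∃ N, Stab (rr P (GG P N) N X) N ∨ ∀ k, ¬ Stab (rr P (GG P k) k X) k := by
  by_cases h : ∃ N, Stab (rr P (GG P N) N X) N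
  · obtain ⟨N, hN⟩ := h
    exact ⟨N, Or.inl hN⟩
  · push Not at h
    exact ⟨0, Or.inr h⟩

open Classical in
/-- the value at the origin coded from `X` -/
noncomputable def ph0 (P : Par d α S) (X : V d × Option (Fin P.M) → α) : S :=
  vl P ((rr P (GG P (Nat.find (exists_find P X))) (Nat.find (exists_find P X)) X).dn 0)

lemma ph0_eq (hl : IsLocal P.h P.a) {X : V d × Option (Fin P.M) → α} {N N' : ℕ}
    (hN : N ≤ N') {G : Finset (V d)} (hG : GG P N ⊆ G) (h : Stab (rr P (GG P N) N X) N) :
    ph0 P X = vl P ((rr P G N' X).dn 0) ∧ (rr P G N' X).dn 0 ≠ none := by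
  classical
  set k := Nat.find (exists_find P X) with hk
  have hkN : k ≤ N := Nat.find_min' _ (Or.inl h)
  have hst : Stab (rr P (GG P k) k X) k := by
    rcases Nat.find_spec (exists_find P X) with h1 | h1
    · exact h1
    · exact absurd h (h1 N)
  have hGk : GG P k ⊆ G := by
    refine Finset.Subset.trans ?_ hG
    exact ball_mono (Nat.mul_le_mul_left _ (by omega))
  obtain ⟨e1, e2⟩ := rr_stable hl (hkN.trans hN) hGk hst
  refine ⟨?_, by rw [e1]; exact e2⟩
  rw [e1]
  rfl

/-- the coding map -/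
noncomputable def phi (P : Par d α S) (X : V d × Option (Fin P.M) → α) : V d → S :=
  fun v => ph0 P (shX v X)

lemma phi_eq (hl : IsLocal P.h P.a) {X : V d × Option (Fin P.M) → α} {N : ℕ} {v : V d}
    {G : Finset (V d)} (hG : ball v (4 * P.a * (N + 1)) ⊆ G)
    (h : Stab (rr P (GG P N) N (shX v X)) N) :
    phi P X v = vl P ((rr P G N X).dn v) ∧ (rr P G N X).dn v ≠ none := by
  have hG' : GG P N ⊆ trs (-v) G := by
    intro y hy
    rw [mem_trs]
    apply hG
    have := (mem_ball_add (v := v)).2 hy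
    simpa using this
  have htr : trs v (trs (-v) G) = G := by
    ext y
    rw [mem_trs, mem_trs]
    simp
  obtain ⟨e1, e2⟩ := ph0_eq hl le_rfl hG' h
  rw [rr_shift, htr, zero_add] at e1 e2
  exact ⟨e1, e2⟩

/-! ### dependence on finitely many packets -/

lemma rr_dependsOn (P : Par d α S) (N : ℕ) :
    DependsOn (fun X : V d × Option (Fin P.M) → α => rr P (GG P N) N X)
      (((ball (0 : V d) (7 * P.a * (N + 1))) ×ˢ Finset.univ :
        Finset (V d × Option (Fin P.M))) : Set (V d × Option (Fin P.M))) := by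
  intro X X' hX
  refine Tree.Within.eval_congr (W := reg P (ball (0 : V d) (7 * P.a * (N + 1)))) ?_ ?_
  · refine prog_within (N + 1) _ _ ?_ ?_
    · intro x hx
      rw [Finset.mem_toList, mem_thick] at hx
      obtain ⟨y, hy, hxy⟩ := hx
      refine ball_mono ?_ (mem_ball_trans hy hxy)
      have : P.a ≤ P.a * (N + 1) := Nat.le_mul_of_pos_right _ (by omega)
      calc 4 * P.a * (N + 1) + P.a = 4 * (P.a * (N + 1)) + P.a := by ring
        _ ≤ 7 * (P.a * (N + 1)) := by omega
        _ = 7 * P.a * (N + 1) := by ring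
    · intro x hx y hy
      rw [mem_srt] at hx
      refine ball_mono ?_ (mem_ball_trans hx hy)
      calc 4 * P.a * (N + 1) + 2 * P.a * (N + 1) = 6 * (P.a * (N + 1)) := by ring
        _ ≤ 7 * (P.a * (N + 1)) := by omega
        _ = 7 * P.a * (N + 1) := by ring
  · intro q hq
    refine hX q.1 ?_
    simp only [Finset.coe_product, Finset.coe_univ, mem_prod, mem_univ, and_true]
    exact hq

lemma ph0_local {X X' : V d × Option (Fin P.M) → α} {N : ℕ}
    (h : Stab (rr P (GG P N) N X) N)
    (hX : ∀ q : V d × Option (Fin P.M), q.1 ∈ ball (0 : V d) (7 * P.a * (N + 1)) → X q = X' q) :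
    ph0 P X = ph0 P X' := by
  classical
  have hrr : ∀ k ≤ N, rr P (GG P k) k X = rr P (GG P k) k X' := by
    intro k hk
    refine rr_dependsOn P k ?_
    intro q hq
    simp only [Finset.coe_product, Finset.coe_univ, mem_prod, mem_univ, and_true] at hq
    exact hX q (ball_mono (Nat.mul_le_mul_left _ (by omega)) hq)
  have h' : Stab (rr P (GG P N) N X') N := by rw [← hrr N le_rfl]; exact h
  have hfind : Nat.find (exists_find P X) = Nat.find (exists_find P X') := by
    have hle : Nat.find (exists_find P X) ≤ N := Nat.find_min' _ (Or.inl h)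
    have hle' : Nat.find (exists_find P X') ≤ N := Nat.find_min' _ (Or.inl h')
    apply le_antisymm
    · refine Nat.find_min' _ ?_
      rcases Nat.find_spec (exists_find P X') with h1 | h1
      · left
        rw [hrr _ hle']; exact h1
      · exact absurd h' (h1 N)
    · refine Nat.find_min' _ ?_
      rcases Nat.find_spec (exists_find P X) with h1 | h1
      · left
        rw [← hrr _ hle]; exact h1
      · exact absurd h (h1 N)
  have hle : Nat.find (exists_find P X) ≤ N := Nat.find_min' _ (Or.inl h)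
  unfold ph0
  rw [← hfind, hrr _ hle]

end H64.PCA
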