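import Pool.Agent.H64.PCA.Coding

/-!
# The coding theorem for random maps with small non-coalescence probability
-/

open MeasureTheory ProbabilityTheory Set Filter
open scoped ENNReal NNReal Topology

namespace H64.PCA

variable {d : ℕ} {α S : Type} {P : Par d α S}

section meas

variable [Fintype α] [MeasurableSpace α] [DiscreteMeasurableSpace α] [MeasurableSpace S]

lemma measurableSet_stab (P : Par d α S) (N : ℕ) :
    MeasurableSet {X : V d × Option (Fin P.M) → α | Stab (rr P (GG P N) N X) N} := by
  refine measurableSet_of_dependsOn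
    (I := (ball (0 : V d) (7 * P.a * (N + 1))) ×ˢ Finset.univ) ?_
  intro X X' hX
  have := rr_dependsOn P N hX
  simp only at this ⊢
  rw [this]

lemma measurable_ph0 (P : Par d α S) : Measurable (ph0 P) := by
  classical
  unfold ph0
  refine Measurable.find (f := fun N X => vl P ((rr P (GG P N) N X).dn 0)) ?_ ?_
    (exists_find P)
  · intro N
    refine measurable_of_dependsOn
      (I := (ball (0 : V d) (7 * P.a * (N + 1))) ×ˢ Finset.univ) ?_
    intro X X' hX
    have := rr_dependsOn P N hX
    simp only at this ⊢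
    rw [this]
  · intro N
    have h2 : MeasurableSet
        {X : V d × Option (Fin P.M) → α | ∀ k, ¬ Stab (rr P (GG P k) k X) k} := by
      have : {X : V d × Option (Fin P.M) → α | ∀ k, ¬ Stab (rr P (GG P k) k X) k}
          = ⋂ k, {X | Stab (rr P (GG P k) k X) k}ᶜ := by
        ext X; simp
      rw [this]
      exact MeasurableSet.iInter fun k => (measurableSet_stab P k).compl
    exact (measurableSet_stab P N).union h2

lemma measurable_shX {κ : Type} (v : V d) : Measurable (shX (α := α) (κ := κ) v) := by
  unfold shX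
  fun_prop

lemma measurable_phi (P : Par d α S) : Measurable (phi P) := by
  refine measurable_pi_iff.2 fun v => ?_
  exact (measurable_ph0 P).comp (measurable_shX v)

lemma prob_shift (ν : Measure α) [IsProbabilityMeasure ν] (v : V d)
    {A : Set (V d × Option (Fin P.M) → α)} (hA : MeasurableSet A) :
    (Pr (V d × Option (Fin P.M)) ν) {X | shX v X ∈ A}
      = (Pr (V d × Option (Fin P.M)) ν) A := by
  have hinj : Function.Injective
      (fun q : V d × Option (Fin P.M) => ((q.1 + v, q.2) : V d × Option (Fin P.M))) := by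
    intro q q' h
    simp only [Prod.mk.injEq, add_left_inj] at h
    exact Prod.ext h.1 h.2
  have hmap := Measure.map_infinitePi_infinitePi_of_inj
    (P := fun _ : V d × Option (Fin P.M) => ν) hinj
  have e : (Pr (V d × Option (Fin P.M)) ν) A
      = ((Pr (V d × Option (Fin P.M)) ν).map (shX v)) A := by
    conv_lhs => rw [show (Pr (V d × Option (Fin P.M)) ν)
      = (Pr (V d × Option (Fin P.M)) ν).map (shX v) from hmap.symm]
  rw [e, Measure.map_apply (measurable_shX v) hA]
  rfl

end meas

/-- the law of the coded configuration -/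
theorem law_phi [Fintype α] [MeasurableSpace α] [DiscreteMeasurableSpace α]
    [Finite S] [MeasurableSpace S] [DiscreteMeasurableSpace S]
    (hl : IsLocal P.h P.a) (ν : Measure α) [IsProbabilityMeasure ν]
    (hstab : ∀ N m, 5 * m ≤ 2 * (N + 1) →
      (Pr (V d × Option (Fin P.M)) ν) {X | ¬ Stab (rr P (GG P N) N X) N} ≤ (2⁻¹) ^ m)
    (μ : Measure (V d → S)) [IsProbabilityMeasure μ]
    (hμ : ∀ (s : Finset (V d)) (T : Set (s → S)), ∃ ξ : V d → S, Tendsto
      (fun m => (Pr (V d × ℕ) ν) {X | (fun v : s => ev P.h (cur X) 0 m ξ v) ∈ T}) atTop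
      (𝓝 (μ {x | (fun v : s => x v) ∈ T}))) :
    (Pr (V d × Option (Fin P.M)) ν).map (phi P) = μ := by
  classical
  set Q := (Pr (V d × Option (Fin P.M)) ν) with hQ
  -- one inequality for all cylinders
  have key : ∀ (s : Finset (V d)) (T : Set (s → S)),
      Q {X | (fun v : s => phi P X v) ∈ T} ≤ μ {x | (fun v : s => x v) ∈ T} := by
    intro s T
    obtain ⟨ξ, hξ⟩ := hμ s T
    -- finite N
    have hN : ∀ n : ℕ, Q {X | (fun v : s => phi P X v) ∈ T}
        ≤ μ {x | (fun v : s => x v) ∈ T} + 2 * (s.card * (2⁻¹) ^ n) := by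
      intro n
      set N := 3 * n with hNdef
      have hbad : Q {X | ∃ v ∈ s, ¬ Stab (rr P (GG P N) N (shX v X)) N} ≤ s.card * (2⁻¹) ^ n := by
        have e : {X | ∃ v ∈ s, ¬ Stab (rr P (GG P N) N (shX v X)) N}
            = ⋃ v ∈ s, {X | ¬ Stab (rr P (GG P N) N (shX v X)) N} := by
          ext X; simp
        rw [e]
        refine (measure_biUnion_finset_le _ _).trans ?_
        calc ∑ v ∈ s, Q {X | ¬ Stab (rr P (GG P N) N (shX v X)) N}
            ≤ ∑ v ∈ s, (2⁻¹ : ℝ≥0∞) ^ n := by
              refine Finset.sum_le_sum fun v _ => ?_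
              have := prob_shift (P := P) ν v (measurableSet_stab P N).compl
              simp only [mem_compl_iff, mem_ofPred_eq] at this
              rw [hQ, this]
              exact hstab N n (by omega)
          _ = s.card * (2⁻¹) ^ n := by simp
      set G : Finset (V d) := s.biUnion (fun v => ball v (4 * P.a * (N + 1))) with hG
      have hsG : ∀ v ∈ s, ball v (4 * P.a * (N + 1)) ⊆ G := fun v hv y hy =>
        Finset.mem_biUnion.2 ⟨v, hv, hy⟩
      -- the real run
      have h1 : Q {X | (fun v : s => phi P X v) ∈ T}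
          ≤ Q {X | (fun v : s => vl P ((rr P G N X).dn v)) ∈ T} + s.card * (2⁻¹) ^ n := by
        refine le_trans (measure_mono ?_) ((measure_union_le _ _).trans (add_le_add le_rfl hbad))
        intro X hX
        by_cases hb : ∃ v ∈ s, ¬ Stab (rr P (GG P N) N (shX v X)) N
        · exact Or.inr hb
        · push Not at hb
          left
          have : (fun v : s => vl P ((rr P G N X).dn v)) = fun v : s => phi P X v := by
            funext v
            exact (phi_eq hl (hsG v v.2) (hb v v.2)).1.symm
          simp only [mem_ofPred_eq] at hX ⊢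
          rw [this]; exact hX
      have h2 : Q {X | ∃ v ∈ s, (rr P G N X).dn v = none} ≤ s.card * (2⁻¹) ^ n := by
        refine le_trans (measure_mono ?_) hbad
        rintro X ⟨v, hv, hn⟩
        refine ⟨v, hv, fun hst => ?_⟩
        exact (phi_eq hl (hsG v hv) hst).2 hn
      -- transfer to the ideal run
      have h3 : Q {X | (fun v : s => vl P ((rr P G N X).dn v)) ∈ T}
          = (Pr (V d × ℕ) ν) {Z | (fun v : s => vl P ((ri P G N Z).dn v)) ∈ T} :=
        law_rr_ri ν G N {st | (fun v : s => vl P (st.dn v)) ∈ T}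
      have h4 : Q {X | ∃ v ∈ s, (rr P G N X).dn v = none}
          = (Pr (V d × ℕ) ν) {Z | ∃ v ∈ s, (ri P G N Z).dn v = none} :=
        law_rr_ri ν G N {st | ∃ v ∈ s, st.dn v = none}
      have h5 : ∀ m, N + 1 ≤ m →
          (Pr (V d × ℕ) ν) {Z | (fun v : s => vl P ((ri P G N Z).dn v)) ∈ T}
          ≤ (Pr (V d × ℕ) ν) {Z | (fun v : s => ev P.h (cur Z) 0 m ξ v) ∈ T}
            + s.card * (2⁻¹) ^ n := by
        intro m hm
        refine le_trans (measure_mono ?_) ((measure_union_le _ _).trans
          (add_le_add le_rfl (h4 ▸ h2)))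
        intro Z hZ
        by_cases hb : ∃ v ∈ s, (ri P G N Z).dn v = none
        · exact Or.inr hb
        · push Not at hb
          left
          have : (fun v : s => ev P.h (cur Z) 0 m ξ v)
              = fun v : s => vl P ((ri P G N Z).dn v) := by
            funext v
            have hv : (v : V d) ∈ G := hsG v v.2 (self_mem_ball _ _)
            obtain ⟨-, hf⟩ := ideal_run' hl Z G N hv
            cases hd : (ri P G N Z).dn v with
            | none => exact absurd hd (hb v v.2)
            | some r =>
              obtain ⟨hr1, -, hr2⟩ := hf r.1 r.2 hd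
              exact hr2 m (by omega) ξ
          simp only [mem_ofPred_eq] at hZ ⊢
          rw [this]; exact hZ
      have h6 : (Pr (V d × ℕ) ν) {Z | (fun v : s => vl P ((ri P G N Z).dn v)) ∈ T}
          ≤ μ {x | (fun v : s => x v) ∈ T} + s.card * (2⁻¹) ^ n := by
        refine ge_of_tendsto (hξ.add_const (s.card * (2⁻¹ : ℝ≥0∞) ^ n)) ?_
        filter_upwards [eventually_ge_atTop (N + 1)] with m hm using h5 m hm
      calc Q {X | (fun v : s => phi P X v) ∈ T}
          ≤ Q {X | (fun v : s => vl P ((rr P G N X).dn v)) ∈ T} + s.card * (2⁻¹) ^ n := h1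
        _ ≤ μ {x | (fun v : s => x v) ∈ T} + s.card * (2⁻¹) ^ n + s.card * (2⁻¹) ^ n := by
            rw [h3]; gcongr
        _ = μ {x | (fun v : s => x v) ∈ T} + 2 * (s.card * (2⁻¹) ^ n) := by ring
    have hlim : Tendsto (fun n : ℕ => μ {x | (fun v : s => x v) ∈ T}
        + 2 * (s.card * (2⁻¹ : ℝ≥0∞) ^ n)) atTop
        (𝓝 (μ {x | (fun v : s => x v) ∈ T} + 2 * (s.card * 0))) := by
      have h0 : Tendsto (fun n : ℕ => (2⁻¹ : ℝ≥0∞) ^ n) atTop (𝓝 0) :=
        ENNReal.tendsto_pow_atTop_nhds_zero_of_lt_one (by
          rw [ENNReal.inv_lt_one]; norm_num)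
      refine Tendsto.add tendsto_const_nhds ?_
      refine ENNReal.Tendsto.const_mul ?_ (Or.inr (by norm_num))
      exact ENNReal.Tendsto.const_mul h0 (Or.inr (by simp))
    have := ge_of_tendsto' hlim hN
    simpa using this
  have hprob : IsProbabilityMeasure (Q.map (phi P)) :=
    Measure.isProbabilityMeasure_map (measurable_phi P).aemeasurable
  -- equality on cylinders
  refine MeasureTheory.ext_of_generate_finite (measurableCylinders (fun _ : V d => S))
    generateFrom_measurableCylinders.symm isPiSystem_measurableCylinders ?_ (by simp)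
  intro A hA
  rw [mem_measurableCylinders] at hA
  obtain ⟨s, T, hT, rfl⟩ := hA
  have hcyl : ∀ T : Set (s → S), cylinder s T = {x : V d → S | (fun v : s => x v) ∈ T} := by
    intro T; rfl
  have hmT : ∀ T : Set (s → S), MeasurableSet {x : V d → S | (fun v : s => x v) ∈ T} := by
    intro T
    have : MeasurableSet T := MeasurableSet.of_discrete
    rw [← hcyl]
    exact this.cylinder s
  have hmap : ∀ T : Set (s → S), (Q.map (phi P)) {x : V d → S | (fun v : s => x v) ∈ T}
      = Q {X | (fun v : s => phi P X v) ∈ T} := by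
    intro T
    rw [Measure.map_apply (measurable_phi P) (hmT T)]
    rfl
  rw [hcyl]
  apply le_antisymm
  · rw [hmap]; exact key s T
  · have h1 : (Q.map (phi P)) {x : V d → S | (fun v : s => x v) ∈ Tᶜ}
        ≤ μ {x : V d → S | (fun v : s => x v) ∈ Tᶜ} := by rw [hmap]; exact key s Tᶜ
    have e : {x : V d → S | (fun v : s => x v) ∈ Tᶜ}
        = {x : V d → S | (fun v : s => x v) ∈ T}ᶜ := rfl
    rw [e, prob_compl_eq_one_sub (hmT T), prob_compl_eq_one_sub (hmT T)] at h1
    have h2 : μ {x : V d → S | (fun v : s => x v) ∈ T} ≤ 1 := prob_le_one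
    have h3 : (Q.map (phi P)) {x : V d → S | (fun v : s => x v) ∈ T} ≤ 1 := prob_le_one
    exact (ENNReal.sub_le_sub_iff_left h2 (by norm_num)).1 h1

end H64.PCA
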