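import Pool.Agent.H64.PCA.Agree

/-!
# Translation equivariance of the algorithm
-/

open Set

namespace H64.PCA

variable {d : ℕ} {α S : Type} {P : Par d α S}

/-- translate a state -/
def sh (v : V d) (s : St P) : St P where
  col u t := s.col (u + v) t
  use u := s.use (u + v)
  dn u := s.dn (u + v)

/-- translate a query -/
def shq (v : V d) (pc : (V d × Fin P.M) × (V d × ℕ)) : (V d × Fin P.M) × (V d × ℕ) :=
  ((pc.1.1 - v, pc.1.2), (pc.2.1 - v, pc.2.2))

lemma tot_sh (v : V d) (s : St P) : (sh v s).tot = fun y t => s.tot (y + v) t := rfl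

lemma mem_miss_sh (v : V d) (s : St P) (x : V d) (t : ℕ) (u : V d) :
    u ∈ miss (sh v s) x t ↔ u + v ∈ miss s (x + v) t := by
  rw [mem_miss, mem_miss, tot_sh, mem_reqd_shift]
  rfl

lemma free_sh (v : V d) (s : St P) (i : ℕ) (x : V d) :
    free (sh v s) i x = (free s i (x + v)).map (tr _ v) := by
  ext p
  rw [mem_free, Finset.mem_map]
  constructor
  · rintro ⟨h1, h2⟩
    exact ⟨(p.1 + v, p.2), mem_free.2 ⟨mem_ball_add.2 h1, h2⟩, by simp⟩
  · rintro ⟨q, h1, h2⟩
    rw [mem_free] at h1
    rw [← h2]
    refine ⟨?_, ?_⟩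
    · rw [← mem_ball_add (v := v)]; simpa using h1.1
    · show s.use (q.1 - v + v) q.2 = false
      rw [sub_add_cancel]; exact h1.2

lemma firstCol_sh (v : V d) (s : St P) (i : ℕ) (x : V d) :
    firstCol x (miss (sh v s) x) i
      = (firstCol (x + v) (miss s (x + v)) i).map (fun p => (p.1 - v, p.2)) :=
  firstCol_shift x v (mem_miss_sh v s x)

lemma want_sh (v : V d) (s : St P) (i : ℕ) (x : V d) :
    want (sh v s) i x = (want s i (x + v)).map (shq v) := by
  unfold want
  rw [firstCol_sh, free_sh, rpick_shift]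
  cases firstCol (x + v) (miss s (x + v)) i with
  | none => rfl
  | some c =>
    cases rpick (x + v) (free s i (x + v)) with
    | none => rfl
    | some p => rfl

lemma rd_sh (v : V d) (s : St P) (pc : (V d × Fin P.M) × (V d × ℕ)) (b : α) :
    (sh v s).rd (shq v pc).1 (shq v pc).2 b = sh v (s.rd pc.1 pc.2 b) := by
  ext u t b
  · simp only [St.rd, sh, shq, eq_sub_iff_add_eq]
  · simp only [St.rd, sh, shq, eq_sub_iff_add_eq]
  · rfl

/-- compatibility of two oracles under translation -/
def Comp (v : V d) (g g' : Qy P → α) : Prop :=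
  ∀ p m u t, g ((p, m), (u, t)) = g' ((p + v, m), (u + v, t))

lemma loop_sh {v : V d} {g g' : Qy P → α} (hg : Comp v g g') (n i : ℕ) (x : V d) :
    ∀ s : St P, (loop n i x (sh v s)).eval g = sh v ((loop n i (x + v) s).eval g') := by
  induction n with
  | zero => intro s; rfl
  | succ n ih =>
    intro s
    cases hw : want s i (x + v) with
    | none =>
      rw [eval_loop_none g' _ i _ s hw, eval_loop_none g _ i x _ (by rw [want_sh, hw]; rfl)]
    | some pc =>
      have hw' : want (sh v s) i x = some (shq v pc) := by rw [want_sh, hw]; rfl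
      rw [eval_loop_some g' n i _ s hw, eval_loop_some g n i x _ hw', ← ih, rd_sh]
      congr 4
      have := hg (pc.1.1 - v) (some pc.1.2) (pc.2.1 - v) pc.2.2
      simp only [sub_add_cancel] at this
      exact this

lemma front_sh_empty (v : V d) (s : St P) (x : V d) (t : ℕ) :
    front P.h P.a (sh v s).tot {x} t = ∅ ↔ front P.h P.a s.tot {x + v} t = ∅ := by
  rw [tot_sh, Finset.eq_empty_iff_forall_notMem, Finset.eq_empty_iff_forall_notMem]
  constructor
  · intro h u hu
    refine h (u - v) ?_
    rw [mem_front_shift]; simpa using hu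
  · intro h u hu
    rw [mem_front_shift] at hu
    exact h _ hu

lemma fin_sh (v : V d) (s : St P) (i : ℕ) (x : V d) :
    fin (sh v s) i x = sh v (fin s i (x + v)) := by
  unfold fin
  simp only [firstCol_sh, Option.map_eq_none_iff, front_sh_empty]
  split_ifs with hc
  · have e : ev P.h (sh v s).tot 0 (i + 1) (fun _ => P.s0) x
        = ev P.h s.tot 0 (i + 1) (fun _ => P.s0) (x + v) := by
      rw [tot_sh]
      exact ev_shift s.tot v 0 (i + 1) (fun _ => P.s0) x
    rw [e]
    ext u t
    · rfl
    · rfl
    · simp only [sh, add_left_inj]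
  · rfl

lemma attempt_sh {v : V d} {g g' : Qy P → α} (hg : Comp v g g') (i : ℕ) (x : V d) (s : St P) :
    (attempt i x (sh v s)).eval g = sh v ((attempt i (x + v) s).eval g') := by
  by_cases hd : s.dn (x + v) = none
  · rw [attempt_undone g' i hd, attempt_undone g i (x := x) (s := sh v s) hd, loop_sh hg, fin_sh]
  · rw [attempt_done g' i hd, attempt_done g i (x := x) (s := sh v s) hd]

lemma roundT_sh {v : V d} {g g' : Qy P → α} (hg : Comp v g g') (i : ℕ) (L : List (V d)) :
    ∀ s : St P, (roundT i L (sh v s)).eval g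
      = sh v ((roundT i (L.map (fun x => x + v)) s).eval g') := by
  induction L with
  | nil => intro s; rfl
  | cons x L ih =>
    intro s
    rw [roundT_cons, List.map_cons, roundT_cons, attempt_sh hg, ih]

lemma runT_sh {v : V d} {g g' : Qy P → α} (hg : Comp v g g') (L : List (V d)) (n : ℕ) (s : St P) :
    (runT L n (sh v s)).eval g = sh v ((runT (L.map (fun x => x + v)) n s).eval g') := by
  induction n with
  | zero => rfl
  | succ n ih => rw [runT_succ, runT_succ, ih, roundT_sh hg]

lemma initT_sh {v : V d} {g g' : Qy P → α} (hg : Comp v g g') (L : List (V d)) :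
    ∀ s : St P, (initT L (sh v s)).eval g
      = sh v ((initT (L.map (fun x => x + v)) s).eval g') := by
  intro s
  rw [initT_eval, initT_eval]
  ext u t b
  · simp only [sh, List.mem_map, add_left_inj, exists_eq_right]
    rw [hg u none u 0]
  · rfl
  · rfl

lemma empt_sh (v : V d) : sh v (empt P) = empt P := rfl

theorem prog_sh {v : V d} {g g' : Qy P → α} (hg : Comp v g g') (N : ℕ) (L0 L : List (V d)) :
    (prog P N L0 L).eval g
      = sh v ((prog P N (L0.map (fun x => x + v)) (L.map (fun x => x + v))).eval g') := by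
  rw [prog_eval, prog_eval, ← runT_sh hg, ← initT_sh hg, empt_sh]

end H64.PCA
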