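import Pool.Agent.H64.PCA.Core

/-!
# The coding theorem
-/

open MeasureTheory ProbabilityTheory Set Filter
open scoped ENNReal NNReal Topology

namespace H64.PCA

/-- existence of the auxiliary base `v` -/
lemma exists_v {n : ℕ} (hn : 1 ≤ n) : ∃ v : ℝ≥0, v ^ n = 2 ∧ 1 + 1 / (2 * n) ≤ v := by
  refine ⟨(2 : ℝ≥0) ^ ((n : ℝ)⁻¹), ?_, ?_⟩
  · rw [← NNReal.rpow_natCast, ← NNReal.rpow_mul, inv_mul_cancel₀ (by positivity), NNReal.rpow_one]
  · have h1 : (1 + 1 / (2 * n) : ℝ≥0) ^ n ≤ 2 := by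
      rw [← NNReal.coe_le_coe]
      push_cast
      have hnpos : (0 : ℝ) < n := by exact_mod_cast hn
      calc (1 + 1 / (2 * (n : ℝ))) ^ n ≤ (Real.exp (1 / (2 * n))) ^ n := by
            gcongr
            rw [add_comm]
            exact Real.add_one_le_exp _
        _ = Real.exp (1 / 2) := by
            rw [← Real.exp_nat_mul]
            congr 1
            field_simp
        _ ≤ 2 := by
            have h2 : Real.exp (1 / 2) ^ 2 ≤ 2 ^ 2 := by
              rw [← Real.exp_nat_mul]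
              have := Real.exp_one_lt_d9
              norm_num
              linarith
            exact le_of_sq_le_sq h2 (by norm_num)
    have h2 : (1 + 1 / (2 * n) : ℝ≥0) ^ n ≤ ((2 : ℝ≥0) ^ ((n : ℝ)⁻¹)) ^ n := by
      rw [← NNReal.rpow_natCast (x := (2 : ℝ≥0) ^ ((n : ℝ)⁻¹)), ← NNReal.rpow_mul,
        inv_mul_cancel₀ (by positivity), NNReal.rpow_one]
      exact h1
    exact le_of_pow_le_pow_left₀ (by omega) (by positivity) h2

/-- existence of the rate -/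
lemma exists_rate {L : ℕ} (hL : 1 ≤ L) : ∃ ρ : ℝ≥0∞, ρ < 1 ∧
    ∀ r : ℕ, (2⁻¹ : ℝ≥0∞) ^ (r / L) ≤ 2 * ρ ^ r := by
  set ρ : ℝ≥0 := (2⁻¹ : ℝ≥0) ^ ((L : ℝ)⁻¹) with hρ
  have hL0 : (0 : ℝ) < L := by exact_mod_cast hL
  have hpow : ρ ^ L = 2⁻¹ := by
    rw [hρ, ← NNReal.rpow_natCast, ← NNReal.rpow_mul, inv_mul_cancel₀ hL0.ne', NNReal.rpow_one]
  have hlt : ρ < 1 := by
    rw [hρ]
    exact NNReal.rpow_lt_one (by rw [← NNReal.coe_lt_coe]; push_cast; norm_num) (by positivity)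
  refine ⟨ρ, by exact_mod_cast hlt, fun r => ?_⟩
  have h1 : (2⁻¹ : ℝ≥0) ^ (r / L) ≤ 2 * ρ ^ r := by
    have h2 : (2⁻¹ : ℝ≥0) ^ (r / L) = 2 * ρ ^ (L * (r / L) + L) := by
      rw [pow_add, pow_mul, hpow]
      rw [mul_comm ((2⁻¹ : ℝ≥0) ^ (r / L)), ← mul_assoc, mul_inv_cancel₀ (by norm_num), one_mul]
    rw [h2]
    gcongr 2 * ?_
    refine pow_le_pow_right_of_le_one' hlt.le ?_
    have := Nat.div_add_mod r L
    have := Nat.mod_lt r (show 0 < L by omega)
    omega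
  have := ENNReal.coe_le_coe.2 h1
  push_cast at this
  exact this

theorem core {d : ℕ} (hd : 1 ≤ d) {α S : Type} [Fintype α] [MeasurableSpace α]
    [DiscreteMeasurableSpace α] [Finite S] [Nonempty S] [MeasurableSpace S]
    [DiscreteMeasurableSpace S] (ν : Measure α) [IsProbabilityMeasure ν]
    (h : (V d → α) → (V d → S) → S) (a : ℕ) (ha : 1 ≤ a) (hl : IsLocal h a)
    (hp : ((128 * (44 * a) ^ (3 * d) : ℕ) : ℝ≥0∞) * p1 h ν ≤ 1)
    (μ : Measure (V d → S)) [IsProbabilityMeasure μ]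
    (hμ : ∀ (s : Finset (V d)) (T : Set (s → S)), ∃ ξ : V d → S, Tendsto
      (fun m => (Pr (V d × ℕ) ν) {X | (fun v : s => ev h (cur X) 0 m ξ v) ∈ T}) atTop
      (𝓝 (μ {x | (fun v : s => x v) ∈ T}))) :
    ∃ (B : Type) (_ : Finite B) (_ : MeasurableSpace B) (_ : DiscreteMeasurableSpace B)
      (q : Measure B) (_ : IsProbabilityMeasure q) (φ : (V d → B) → (V d → S)),
      Measurable φ ∧ (∀ (u : V d) (x : V d → B), φ (fun v => x (v + u)) = fun v => φ x (v + u)) ∧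
      (Measure.infinitePi (fun _ : V d => q)).map φ = μ ∧
      ∃ (C ρ : ℝ≥0∞), C ≠ ⊤ ∧ ρ < 1 ∧ ∀ r : ℕ, (Measure.infinitePi (fun _ : V d => q))
        {x | ∃ x', (∀ v ∈ ball 0 r, x v = x' v) ∧ φ x 0 ≠ φ x' 0} ≤ C * ρ ^ r := by
  classical
  have hαne : Nonempty α := by
    by_contra hcon
    rw [not_nonempty_iff] at hcon
    have h1 : ν Set.univ = 1 := measure_univ
    rw [Set.univ_eq_empty_iff.2 hcon] at h1
    simp at h1
  -- the constants
  set Δ : ℕ := (2 * a + 1) ^ d with hΔ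
  have hΔ1 : 1 ≤ Δ := Nat.one_le_pow _ _ (by omega)
  set W : ℕ := (44 * a) ^ d with hW
  have hW1 : 1 ≤ W := Nat.one_le_pow _ _ (by omega)
  have hΔW : Δ ≤ W := Nat.pow_le_pow_left (by omega) d
  have hp' : (((128 * W ^ 3 : ℕ)) : ℝ≥0∞) * p1 h ν ≤ 1 := by
    have e : (44 * a) ^ (3 * d) = W ^ 3 := by rw [hW, ← pow_mul, mul_comm 3 d]
    rw [← e]; exact hp
  obtain ⟨v, hv2, hvge⟩ := exists_v (n := 2 * Δ ^ 2) (by nlinarith)
  have hv1 : 1 ≤ v := le_trans (by simp) hvge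
  have hvlt : 1 < v := by
    refine lt_of_lt_of_le ?_ hvge
    rw [lt_add_iff_pos_right]
    positivity
  have hp1top : p1 h ν ≤ 1 := prob_le_one
  -- p1 as a nonnegative real
  obtain ⟨p, hpp⟩ : ∃ p : ℝ≥0, p1 h ν = p :=
    ⟨(p1 h ν).toNNReal, (ENNReal.coe_toNNReal (ne_top_of_le_ne_top (by simp) hp1top)).symm⟩
  have hpW : 128 * (W : ℝ≥0) ^ 3 * p ≤ 1 := by
    rw [hpp] at hp'
    have : ((128 * W ^ 3 : ℕ) : ℝ≥0) * p ≤ 1 := by exact_mod_cast hp'
    push_cast at this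
    exact this
  have hpR : 128 * (W : ℝ) ^ 3 * p ≤ 1 := by exact_mod_cast hpW
  have hWR : (1 : ℝ) ≤ W := by exact_mod_cast hW1
  have hΔR : (1 : ℝ) ≤ Δ := by exact_mod_cast hΔ1
  have hΔWR : (Δ : ℝ) ≤ W := by exact_mod_cast hΔW
  have hp0 : (0 : ℝ) ≤ p := p.2
  have hone : 1 + p1 h ν ≤ v := by
    rw [hpp]
    have : 1 + p ≤ v := by
      refine le_trans ?_ hvge
      gcongr
      rw [← NNReal.coe_le_coe]
      push_cast
      rw [le_div_iff₀ (by positivity)]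
      have h4 : (Δ : ℝ) ^ 2 ≤ (W : ℝ) ^ 3 := by
        calc (Δ : ℝ) ^ 2 ≤ (W : ℝ) ^ 2 := by gcongr
          _ ≤ (W : ℝ) ^ 3 := pow_le_pow_right₀ hWR (by norm_num)
      calc (p : ℝ) * (2 * (2 * (Δ : ℝ) ^ 2)) = 4 * (Δ : ℝ) ^ 2 * (p : ℝ) := by ring
        _ ≤ 128 * (W : ℝ) ^ 3 * (p : ℝ) := by
          gcongr
          norm_num
        _ ≤ 1 := hpR
    exact_mod_cast this
  set θ : ℝ≥0 := 1 / (8 * W) with hθ
  have hθR : (θ : ℝ) = 1 / (8 * W) := by rw [hθ]; push_cast; rfl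
  have hθ1 : θ ≤ 1 := by
    rw [← NNReal.coe_le_coe, hθR]
    push_cast
    rw [div_le_one (by positivity)]
    linarith
  have hθpos : 0 < θ := by rw [hθ]; positivity
  have hp2 : (((2 * a + 1) ^ d : ℕ) : ℝ≥0∞) * p1 h ν ≤ ((θ ^ 2 / 2 : ℝ≥0) : ℝ≥0∞) := by
    rw [hpp]
    have : (Δ : ℝ≥0) * p ≤ θ ^ 2 / 2 := by
      rw [← NNReal.coe_le_coe]
      push_cast
      rw [hθR, div_pow, mul_pow]
      rw [le_div_iff₀ (by norm_num), le_div_iff₀ (by positivity)]
      calc (Δ : ℝ) * (p : ℝ) * 2 * (8 ^ 2 * (W : ℝ) ^ 2)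
          = 128 * ((Δ : ℝ) * (W : ℝ) ^ 2) * (p : ℝ) := by ring
        _ ≤ 128 * ((W : ℝ) * (W : ℝ) ^ 2) * (p : ℝ) := by gcongr
        _ = 128 * (W : ℝ) ^ 3 * (p : ℝ) := by ring
        _ ≤ 1 ^ 2 := by rw [one_pow]; exact hpR
    exact_mod_cast this
  obtain ⟨n, hn⟩ : ∃ n : ℕ, 2 ≤ θ ^ 2 * v ^ n := by
    obtain ⟨n, hn⟩ := pow_unbounded_of_one_lt (2 / θ ^ 2 : ℝ≥0) hvlt
    refine ⟨n, ?_⟩
    rw [div_lt_iff₀ (by positivity)] at hn
    rw [mul_comm]
    exact hn.le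
  set P : Par d α S := ⟨h, a, Δ * (2 ^ d + n), Classical.arbitrary α, Classical.arbitrary S⟩ with hP
  have hst : ∀ i x, (Pr (V d × ℕ) ν) {X | Stuck P (cur X) i x} ≤ (θ : ℝ≥0∞) ^ (2 * (i + 1)) :=
    fun i x => prob_stuck (P := P) hd ha hl ν hv1 hv2 hone hθ1 hp2 hn rfl i x
  have hx : 4 * ((((11 * P.a) ^ d : ℕ) : ℝ≥0∞) * (2 * (θ : ℝ≥0∞) * (2 ^ d * 2 ^ d))) ≤ 1 := by
    have : 4 * ((((11 * a) ^ d : ℕ) : ℝ≥0) * (2 * θ * (2 ^ d * 2 ^ d))) ≤ 1 := by
      rw [← NNReal.coe_le_coe]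
      push_cast
      rw [hθR]
      have hWe : (W : ℝ) = (11 * a) ^ d * (2 ^ d * 2 ^ d) := by
        rw [hW]
        push_cast
        rw [← mul_pow, ← mul_pow]
        congr 1
        ring
      rw [hWe]
      have hpos : (0 : ℝ) < (11 * a) ^ d * (2 ^ d * 2 ^ d) := by
        have : (1 : ℝ) ≤ a := by exact_mod_cast ha
        positivity
      apply le_of_eq
      field_simp
      norm_num
    have h2 := ENNReal.coe_le_coe.2 this
    push_cast at h2 ⊢
    exact h2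
  have hθE : (θ : ℝ≥0∞) ≤ 1 := by exact_mod_cast hθ1
  have hstab : ∀ N m, 5 * m ≤ 2 * (N + 1) →
      (Pr (V d × Option (Fin P.M)) ν) {X | ¬ Stab (rr P (GG P N) N X) N} ≤ (2⁻¹) ^ m :=
    fun N m hm => prob_not_stab (P := P) ha hl ν hθE hx hst hm
  have hlaw := law_phi (P := P) hl ν hstab μ hμ
  -- the coding from blocks of packets
  set q : Measure (Option (Fin P.M) → α) := Measure.infinitePi (fun _ : Option (Fin P.M) => ν)
    with hq
  set fl : (V d → Option (Fin P.M) → α) → (V d × Option (Fin P.M) → α) :=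
    fun x p => x p.1 p.2 with hfl
  have hflm : Measurable fl := by
    rw [hfl]; fun_prop
  have hmap : (Measure.infinitePi (fun _ : V d => q)).map fl = Pr (V d × Option (Fin P.M)) ν :=
    Measure.infinitePi_map_curry_symm (fun (_ : V d) (_ : Option (Fin P.M)) => ν)
  refine ⟨Option (Fin P.M) → α, inferInstance, inferInstance, inferInstance, q, inferInstance,
    fun x => phi P (fl x), (measurable_phi P).comp hflm, ?_, ?_, ?_⟩
  · intro u x
    funext v
    simp only [phi, hfl]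
    congr 1
    funext p
    show x (p.1 + v + u) p.2 = x (p.1 + (v + u)) p.2
    rw [add_assoc]
  · rw [← hlaw, ← hmap, Measure.map_map (measurable_phi P) hflm]
    rfl
  · obtain ⟨ρ, hρ1, hρ⟩ := exists_rate (L := 21 * a) (by omega)
    refine ⟨2, ρ, by norm_num, hρ1, fun r => ?_⟩
    refine le_trans ?_ (hρ r)
    set m := r / (21 * a) with hm
    rcases Nat.eq_zero_or_pos m with hm0 | hm0
    · rw [hm0, pow_zero]; exact prob_le_one
    · have hsub : {x : V d → Option (Fin P.M) → α | ∃ x', (∀ v ∈ ball 0 r, x v = x' v) ∧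
          phi P (fl x) 0 ≠ phi P (fl x') 0}
          ⊆ fl ⁻¹' {X | ¬ Stab (rr P (GG P (3 * m - 1)) (3 * m - 1) X) (3 * m - 1)} := by
        rintro x ⟨x', hxx, hne⟩ hst'
        apply hne
        have hz : ∀ X : V d × Option (Fin P.M) → α, phi P X 0 = ph0 P X := by
          intro X
          unfold phi shX
          simp
        rw [hz, hz]
        refine ph0_local hst' ?_
        intro p hp
        simp only [hfl]
        rw [hxx p.1 (ball_mono ?_ hp)]
        have h1 : 3 * m - 1 + 1 = 3 * m := by omega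
        rw [h1]
        calc 7 * P.a * (3 * m) = (21 * a) * m := by rw [hP]; ring
          _ ≤ r := Nat.mul_div_le r (21 * a)
      refine (measure_mono hsub).trans ?_
      have hms : MeasurableSet
          {X : V d × Option (Fin P.M) → α |
            ¬ Stab (rr P (GG P (3 * m - 1)) (3 * m - 1) X) (3 * m - 1)} :=
        (measurableSet_stab P (3 * m - 1)).compl
      rw [← Measure.map_apply hflm hms, hmap]
      exact hstab (3 * m - 1) m (by omega)

end H64.PCA
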