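import Pool.Agent.H64.PCA.Agree

/-!
# The run in which every column has its true value
-/

open Set

namespace H64.PCA

variable {d : ℕ} {α S : Type} {P : Par d α S}

/-- the oracle giving each column its value in the field `ζ` -/
def gI (P : Par d α S) (ζ : V d → ℕ → α) : Qy P → α := fun q => ζ q.2.1 q.2.2

/-- number of columns needed by `A` at levels `1, …, i` -/
noncomputable def cnt (P : Par d α S) (ζ : V d → ℕ → α) (A : Finset (V d)) (i : ℕ) : ℕ :=
  ∑ t ∈ Finset.Icc 1 i, (reqd P.h P.a ζ A t).card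

/-- the only two reasons for not being finished in round `i` -/
def Stuck (P : Par d α S) (ζ : V d → ℕ → α) (i : ℕ) (x : V d) : Prop :=
  (front P.h P.a ζ {x} (i + 1)).Nonempty ∨
    (1 ≤ i ∧ P.M * (ball x (2 * P.a * i)).card ≤ cnt P ζ (ball x (4 * P.a * i)) i)

/-- invariant on columns and packets -/
structure IdInv (ζ : V d → ℕ → α) (G : Finset (V d)) (i : ℕ) (s : St P) : Prop where
  val : ∀ u t b, s.col u t = some b → b = ζ u t
  zero : ∀ x ∈ G, ∀ u ∈ ball x P.a, s.col u 0 ≠ none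
  own : ∃ own : V d → Fin P.M → V d × V d × ℕ,
    (∀ p m, s.use p m = true → (own p m).1 ∈ G ∧ p ∈ ball (own p m).1 (2 * P.a * i) ∧
      1 ≤ (own p m).2.2 ∧ (own p m).2.2 ≤ i ∧
      (own p m).2.1 ∈ reqd P.h P.a ζ {(own p m).1} (own p m).2.2 ∧
      s.col (own p m).2.1 (own p m).2.2 ≠ none) ∧
    (∀ p m p' m', s.use p m = true → s.use p' m' = true → (own p m).2 = (own p' m').2 →
      p = p' ∧ m = m')

lemma IdInv.mono {ζ : V d → ℕ → α} {G : Finset (V d)} {i j : ℕ} {s : St P}
    (h : IdInv ζ G i s) (hij : i ≤ j) : IdInv ζ G j s := by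
  obtain ⟨own, h1, h2⟩ := h.own
  refine ⟨h.val, h.zero, own, ?_, h2⟩
  intro p m hp
  obtain ⟨a1, a2, a3, a4, a5, a6⟩ := h1 p m hp
  exact ⟨a1, ball_mono (Nat.mul_le_mul_left _ hij) a2, a3, a4.trans hij, a5, a6⟩

/-- below the first missing level the known columns are the true ones -/
lemma IdInv.tot_eq {ζ : V d → ℕ → α} {G : Finset (V d)} {i : ℕ} {s : St P}
    (h : IdInv ζ G i s) {x : V d} (hx : x ∈ G) {T : ℕ}
    (hm : ∀ t, 1 ≤ t → t < T → miss s x t = ∅) {t' : ℕ} (ht' : t' < T) {y : V d}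
    (hy : y ∈ reqd P.h P.a s.tot {x} t') : s.tot y t' = ζ y t' := by
  have hne : s.col y t' ≠ none := by
    rcases Nat.eq_zero_or_pos t' with h0 | h0
    · subst h0
      obtain ⟨z, hz, hn⟩ := reqd_near hy
      rw [Finset.mem_singleton] at hz
      subst hz
      exact h.zero z hx y (by simpa using hn)
    · intro hc
      have := mem_miss.2 ⟨hy, hc⟩
      rw [hm t' h0 ht'] at this
      simp at this
  cases hc : s.col y t' with
  | none => exact absurd hc hne
  | some b =>
    unfold St.tot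
    rw [hc]
    exact h.val y t' b hc

lemma IdInv.rd (hl : IsLocal P.h P.a) {ζ : V d → ℕ → α} {G : Finset (V d)} {i : ℕ} {s : St P}
    (h : IdInv ζ G i s) {x : V d} (hx : x ∈ G) {pc : (V d × Fin P.M) × (V d × ℕ)}
    (hw : want s i x = some pc) :
    IdInv ζ G i (s.rd pc.1 pc.2 (gI P ζ ((pc.1.1, some pc.1.2), pc.2))) := by
  obtain ⟨h1, h2, h3, h4, h5⟩ := want_col hw
  have hfree := (mem_free.1 (want_some hw).2)
  have hreq : reqd P.h P.a ζ {x} pc.2.2 = reqd P.h P.a s.tot {x} pc.2.2 :=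
    reqd_congr hl fun t' ht' y hy => h.tot_eq hx h5 ht' hy
  obtain ⟨own, ho1, ho2⟩ := h.own
  refine ⟨?_, ?_, ?_⟩
  · intro u t b hb
    simp only [St.rd] at hb
    split_ifs at hb with hc
    · rw [hc.1, hc.2]
      exact (Option.some.inj hb).symm
    · exact h.val u t b hb
  · intro y hy u hu
    simp only [St.rd]
    split_ifs
    · simp
    · exact h.zero y hy u hu
  · classical
    obtain ⟨own', hpos, hneg⟩ : ∃ own' : V d → Fin P.M → V d × V d × ℕ,
        (∀ p m, p = pc.1.1 ∧ m = pc.1.2 → own' p m = (x, pc.2.1, pc.2.2)) ∧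
        (∀ p m, ¬ (p = pc.1.1 ∧ m = pc.1.2) → own' p m = own p m) :=
      ⟨fun p m => if p = pc.1.1 ∧ m = pc.1.2 then (x, pc.2.1, pc.2.2) else own p m,
        fun p m hh => if_pos hh, fun p m hh => if_neg hh⟩
    refine ⟨own', ?_, ?_⟩
    · intro p m hp
      by_cases hpm : p = pc.1.1 ∧ m = pc.1.2
      · rw [hpos p m hpm]
        refine ⟨hx, ?_, h1, h2, ?_, ?_⟩
        · rw [hpm.1]; exact mem_ball_comm.1 (mem_ball_comm.1 hfree.1)
        · show pc.2.1 ∈ reqd P.h P.a ζ {x} pc.2.2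
          rw [hreq]; exact h3
        · simp [St.rd]
      · rw [hneg p m hpm]
        simp only [St.rd] at hp
        rw [if_neg hpm] at hp
        obtain ⟨a1, a2, a3, a4, a5, a6⟩ := ho1 p m hp
        refine ⟨a1, a2, a3, a4, a5, ?_⟩
        simp only [St.rd]
        split_ifs
        · simp
        · exact a6
    · intro p m p' m' hp hp' he
      by_cases hpm : p = pc.1.1 ∧ m = pc.1.2
      · by_cases hpm' : p' = pc.1.1 ∧ m' = pc.1.2
        · exact ⟨hpm.1.trans hpm'.1.symm, hpm.2.trans hpm'.2.symm⟩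
        · exfalso
          rw [hpos p m hpm, hneg p' m' hpm'] at he
          simp only [St.rd] at hp'
          rw [if_neg hpm'] at hp'
          obtain ⟨-, -, -, -, -, a6⟩ := ho1 p' m' hp'
          rw [← he] at a6
          exact a6 h4
      · by_cases hpm' : p' = pc.1.1 ∧ m' = pc.1.2
        · exfalso
          rw [hneg p m hpm, hpos p' m' hpm'] at he
          simp only [St.rd] at hp
          rw [if_neg hpm] at hp
          obtain ⟨-, -, -, -, -, a6⟩ := ho1 p m hp
          rw [he] at a6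
          exact a6 h4
        · rw [hneg p m hpm, hneg p' m' hpm'] at he
          simp only [St.rd] at hp hp'
          rw [if_neg hpm] at hp
          rw [if_neg hpm'] at hp'
          exact ho2 p m p' m' hp hp' he

lemma IdInv.of_eq {ζ : V d → ℕ → α} {G : Finset (V d)} {i : ℕ} {s s' : St P}
    (h : IdInv ζ G i s) (h1 : s'.col = s.col) (h2 : s'.use = s.use) : IdInv ζ G i s' := by
  refine ⟨?_, ?_, ?_⟩
  · rw [h1]; exact h.val
  · rw [h1]; exact h.zero
  · rw [h1, h2]; exact h.own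

lemma IdInv.attempt (hl : IsLocal P.h P.a) {ζ : V d → ℕ → α} {G : Finset (V d)} {i : ℕ}
    {s : St P} (h : IdInv ζ G i s) {x : V d} (hx : x ∈ G) :
    IdInv ζ G i ((attempt i x s).eval (gI P ζ)) := by
  by_cases hd : s.dn x = none
  · rw [attempt_undone _ i hd]
    refine (loop_inv (gI P ζ) (IdInv ζ G i) ?_ (fuel P i) s h).of_eq (fin_col _ _ _)
      (fin_use _ _ _)
    intro s' pc hs' hw
    exact hs'.rd hl hx hw
  · rw [attempt_done _ i hd]; exact h

/-- exhaustion of the packets near `x` -/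
lemma IdInv.exhaust {ζ : V d → ℕ → α} {G : Finset (V d)} {i : ℕ} {s : St P}
    (h : IdInv ζ G i s) {x : V d} (hf : free s i x = ∅) :
    P.M * (ball x (2 * P.a * i)).card ≤ cnt P ζ (ball x (4 * P.a * i)) i := by
  classical
  obtain ⟨own, h1, h2⟩ := h.own
  have hused : ∀ p ∈ ball x (2 * P.a * i), ∀ m, s.use p m = true := by
    intro p hp m
    by_contra hcon
    have : (p, m) ∈ free s i x := mem_free.2 ⟨hp, by simpa using hcon⟩
    rw [hf] at this
    simp at this
  have hcard : P.M * (ball x (2 * P.a * i)).card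
      = ((ball x (2 * P.a * i)) ×ˢ (Finset.univ : Finset (Fin P.M))).card := by
    rw [Finset.card_product]; simp [mul_comm]
  have hcnt : cnt P ζ (ball x (4 * P.a * i)) i
      = ((Finset.Icc 1 i).sigma (fun t => reqd P.h P.a ζ (ball x (4 * P.a * i)) t)).card := by
    rw [Finset.card_sigma]; rfl
  rw [hcard, hcnt]
  refine Finset.card_le_card_of_injOn
    (fun pm => (⟨(own pm.1 pm.2).2.2, (own pm.1 pm.2).2.1⟩ : (_ : ℕ) × V d)) ?_ ?_
  · intro pm hpm
    rw [Finset.mem_coe, Finset.mem_product] at hpm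
    obtain ⟨a1, a2, a3, a4, a5, a6⟩ := h1 pm.1 pm.2 (hused pm.1 hpm.1 pm.2)
    rw [Finset.mem_coe, Finset.mem_sigma]
    refine ⟨Finset.mem_Icc.2 ⟨a3, a4⟩, ?_⟩
    refine reqd_mono ?_ _ a5
    rw [Finset.singleton_subset_iff]
    have := mem_ball_trans hpm.1 (mem_ball_comm.1 a2)
    refine ball_mono ?_ this
    apply le_of_eq; ring
  · intro pm hpm pm' hpm' he
    rw [Finset.mem_coe, Finset.mem_product] at hpm hpm'
    simp only [Sigma.mk.injEq, heq_eq_eq] at he
    have := h2 pm.1 pm.2 pm'.1 pm'.2 (hused _ hpm.1 _) (hused _ hpm'.1 _)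
      (Prod.ext he.2 he.1)
    exact Prod.ext this.1 this.2

/-- the property of finished sites -/
def Fine (P : Par d α S) (ζ : V d → ℕ → α) (i : ℕ) (x : V d) (r : Option (ℕ × S)) : Prop :=
  ∀ j v, r = some (j, v) → j ≤ i ∧ (1 ≤ j → Stuck P ζ (j - 1) x) ∧
    ∀ m, j + 1 ≤ m → ∀ ξ : V d → S, ev P.h ζ 0 m ξ x = v

lemma attempt_result (hl : IsLocal P.h P.a) {ζ : V d → ℕ → α} {G : Finset (V d)} {i : ℕ}
    {s : St P} (h : IdInv ζ G i s) {x : V d} (hx : x ∈ G) (hd : s.dn x = none)
    (hst : 1 ≤ i → Stuck P ζ (i - 1) x) :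
    (((attempt i x s).eval (gI P ζ)).dn x = none → Stuck P ζ i x) ∧
      Fine P ζ i x (((attempt i x s).eval (gI P ζ)).dn x) := by
  rw [attempt_undone _ i hd]
  set s' := (loop (fuel P i) i x s).eval (gI P ζ) with hs'
  have hinv : IdInv ζ G i s' := by
    refine loop_inv (gI P ζ) (IdInv ζ G i) ?_ (fuel P i) s h
    intro s' pc hs' hw
    exact hs'.rd hl hx hw
  have hwn : want s' i x = none := loop_fuel (gI P ζ) (fuel P i) s (card_free_le s i x)
  have hdn : s'.dn x = none := by rw [hs', loop_dn]; exact hd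
  have key : firstCol x (miss s' x) i = none →
      ∀ t' < i + 1, ∀ y ∈ reqd P.h P.a s'.tot {x} t', s'.tot y t' = ζ y t' := by
    intro hfc t' ht' y hy
    exact hinv.tot_eq hx (T := i + 1) (fun t h1 h2 => firstCol_none.1 hfc t h1 (by omega)) ht' hy
  unfold fin
  split_ifs with hc
  · have htot := key hc.1
    refine ⟨by simp, ?_⟩
    intro j v hjv
    simp only [if_true, Option.some.injEq, Prod.mk.injEq] at hjv
    obtain ⟨rfl, rfl⟩ := hjv
    refine ⟨le_rfl, hst, ?_⟩
    intro m hm ξ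
    have e1 := ev_eq hl (A := {x}) (i := i) (ζ := s'.tot) (ζ' := s'.tot) (fun _ _ _ _ => rfl) hc.2
      (i + 1) 0 (by omega) x (by simp) (i + 1) le_rfl (fun _ => P.s0) ξ
    rw [e1]
    have hfr : front P.h P.a ζ {x} (i + 1) = ∅ := by
      rw [front_congr hl htot]; exact hc.2
    have hreq : ∀ t' < i + 1, ∀ y ∈ reqd P.h P.a ζ {x} t', ζ y t' = s'.tot y t' := by
      intro t' ht' y hy
      rw [reqd_congr hl (fun t'' ht'' => htot t'' (by omega))] at hy
      exact (htot t' ht' y hy).symm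
    exact ev_eq hl (A := {x}) (i := i) (ζ := ζ) (ζ' := s'.tot) hreq hfr
      (i + 1) 0 (by omega) x (by simp) m hm ξ ξ
  · refine ⟨fun _ => ?_, ?_⟩
    · rcases want_none hwn with hfc | hfree
      · left
        have hne : front P.h P.a s'.tot {x} (i + 1) ≠ ∅ := fun hh => hc ⟨hfc, hh⟩
        rw [front_congr hl (key hfc)]
        exact Finset.nonempty_iff_ne_empty.2 hne
      · rcases Nat.eq_zero_or_pos i with hi | hi
        · left
          have hfc : firstCol x (miss s' x) i = none := by rw [hi]; rfl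
          have hne : front P.h P.a s'.tot {x} (i + 1) ≠ ∅ := fun hh => hc ⟨hfc, hh⟩
          rw [front_congr hl (key hfc)]
          exact Finset.nonempty_iff_ne_empty.2 hne
        · exact Or.inr ⟨hi, hinv.exhaust hfree⟩
    · intro j v hjv
      rw [hdn] at hjv
      cases hjv

/-- invariant inside round `i`, `D` being the sites whose turn has passed -/
structure RInv (ζ : V d → ℕ → α) (G : Finset (V d)) (i : ℕ) (D : Set (V d)) (s : St P) : Prop where
  id : IdInv ζ G i s
  st : ∀ x ∈ G, s.dn x = none → (x ∈ D → Stuck P ζ i x) ∧ (x ∉ D → 1 ≤ i → Stuck P ζ (i - 1) x)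
  fn : ∀ x ∈ G, Fine P ζ i x (s.dn x)

lemma RInv.attempt (hl : IsLocal P.h P.a) {ζ : V d → ℕ → α} {G : Finset (V d)} {i : ℕ}
    {D : Set (V d)} {s : St P} (h : RInv ζ G i D s) {x : V d} (hx : x ∈ G) (hD : x ∉ D) :
    RInv ζ G i (insert x D) ((attempt i x s).eval (gI P ζ)) := by
  refine ⟨h.id.attempt hl hx, ?_, ?_⟩
  · intro y hy hn
    by_cases hyx : y = x
    · subst hyx
      refine ⟨fun _ => ?_, fun hh => absurd (mem_insert _ _) hh⟩
      cases hdy : s.dn y with
      | some r => rw [attempt_dn_mono _ i s hdy] at hn; cases hn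
      | none => exact (attempt_result hl h.id hy hdy ((h.st y hy hdy).2 hD)).1 hn
    · rw [attempt_dn_ne _ i s hyx] at hn
      obtain ⟨h1, h2⟩ := h.st y hy hn
      refine ⟨fun hh => h1 (hh.resolve_left hyx), fun hh => h2 (fun h3 => hh (Or.inr h3))⟩
  · intro y hy
    by_cases hyx : y = x
    · subst hyx
      cases hdy : s.dn y with
      | some r =>
        rw [attempt_dn_mono _ i s hdy, ← hdy]; exact h.fn y hy
      | none => exact (attempt_result hl h.id hy hdy ((h.st y hy hdy).2 hD)).2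
    · rw [attempt_dn_ne _ i s hyx]; exact h.fn y hy

lemma RInv.round (hl : IsLocal P.h P.a) {ζ : V d → ℕ → α} {G : Finset (V d)} {i : ℕ}
    (L : List (V d)) : ∀ {D : Set (V d)} {s : St P}, RInv ζ G i D s → L.Nodup →
      (∀ x ∈ L, x ∈ G ∧ x ∉ D) →
      RInv ζ G i (D ∪ {x | x ∈ L}) ((roundT i L s).eval (gI P ζ)) := by
  induction L with
  | nil =>
    intro D s h _ _
    have e : D ∪ {x | x ∈ ([] : List (V d))} = D := by ext y; simp
    rw [e]; exact h
  | cons x L ih =>
    intro D s h hnd hL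
    rw [roundT_cons]
    have h1 := h.attempt hl (hL x (by simp)).1 (hL x (by simp)).2
    have h2 := ih h1 (List.nodup_cons.1 hnd).2 ?_
    · have e : insert x D ∪ {x | x ∈ L} = D ∪ {y | y ∈ x :: L} := by
        ext y
        simp only [mem_union, mem_insert_iff, mem_ofPred_eq, List.mem_cons]
        tauto
      rw [← e]; exact h2
    · intro y hy
      refine ⟨(hL y (by simp [hy])).1, ?_⟩
      rintro (hh | hh)
      · exact (List.nodup_cons.1 hnd).1 (hh ▸ hy)
      · exact (hL y (by simp [hy])).2 hh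

lemma RInv.next {ζ : V d → ℕ → α} {G : Finset (V d)} {i : ℕ} {D : Set (V d)} {s : St P}
    (h : RInv ζ G i D s) (hD : ∀ x ∈ G, x ∈ D) : RInv ζ G (i + 1) ∅ s := by
  refine ⟨h.id.mono (by omega), ?_, ?_⟩
  · intro x hx hn
    refine ⟨fun hh => hh.elim, fun _ _ => ?_⟩
    exact (h.st x hx hn).1 (hD x hx)
  · intro x hx j v hjv
    obtain ⟨h1, h2, h3⟩ := h.fn x hx j v hjv
    exact ⟨by omega, h2, h3⟩

/-- the run with true columns: unfinished sites are stuck, finished sites have the right value -/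
theorem ideal_run (hl : IsLocal P.h P.a) (ζ : V d → ℕ → α) {G : Finset (V d)}
    {L0 L : List (V d)} (hL : ∀ x, x ∈ L ↔ x ∈ G) (hnd : L.Nodup)
    (hL0 : ∀ x ∈ G, ∀ u ∈ ball x P.a, u ∈ L0) (N : ℕ) {x : V d} (hx : x ∈ G) :
    (((prog P (N + 1) L0 L).eval (gI P ζ)).dn x = none → Stuck P ζ N x) ∧
      Fine P ζ N x (((prog P (N + 1) L0 L).eval (gI P ζ)).dn x) := by
  rw [prog_eval]
  set s0 := (initT L0 (empt P)).eval (gI P ζ) with hs0
  have hinit : RInv ζ G 0 ∅ s0 := by
    rw [hs0, initT_eval]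
    refine ⟨⟨?_, ?_, ?_⟩, ?_, ?_⟩
    · intro u t b hb
      simp only [empt] at hb
      split_ifs at hb with hc
      rw [hc.2]
      exact (Option.some.inj hb).symm
    · intro y hy u hu
      simp [hL0 y hy u hu]
    · refine ⟨fun _ _ => (0, 0, 0), ?_, ?_⟩
      · intro p m hp; simp [empt] at hp
      · intro p m p' m' hp; simp [empt] at hp
    · intro y hy _
      exact ⟨fun hh => hh.elim, fun _ hh => by omega⟩
    · intro y hy j v hjv
      simp [empt] at hjv
  have hrun : ∀ n, RInv ζ G n ∅ ((runT L n s0).eval (gI P ζ)) ∧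
      RInv ζ G n (∅ ∪ {x | x ∈ L}) ((runT L (n + 1) s0).eval (gI P ζ)) := by
    intro n
    induction n with
    | zero =>
      refine ⟨hinit, ?_⟩
      rw [runT_succ]
      exact RInv.round hl L hinit hnd (fun x hx => ⟨(hL x).1 hx, fun hh => hh.elim⟩)
    | succ n ih =>
      have h1 : RInv ζ G (n + 1) ∅ ((runT L (n + 1) s0).eval (gI P ζ)) :=
        ih.2.next (fun x hx => Or.inr ((hL x).2 hx))
      refine ⟨h1, ?_⟩
      rw [runT_succ]
      exact RInv.round hl L h1 hnd (fun x hx => ⟨(hL x).1 hx, fun hh => hh.elim⟩)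
  have h := (hrun N).2
  exact ⟨fun hn => (h.st x hx hn).1 (Or.inr ((hL x).2 hx)), h.fn x hx⟩

end H64.PCA
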