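import Pool.Agent.H64.PCA.Alg

/-!
# Freshness, locality and equivariance of the algorithm
-/

open Set

namespace H64.PCA

variable {d : ℕ} {α S : Type} {P : Par d α S}

/-! ### Freshness -/

/-- packets used -/
def usedP (s : St P) : Set (V d × Option (Fin P.M)) :=
  {q | (∃ m, q.2 = some m ∧ s.use q.1 m = true) ∨ (q.2 = none ∧ s.col q.1 0 ≠ none)}

/-- columns assigned -/
def asg (s : St P) : Set (V d × ℕ) := {c | s.col c.1 c.2 ≠ none}

lemma want_col {s : St P} {i : ℕ} {x : V d} {pc : (V d × Fin P.M) × (V d × ℕ)}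
    (h : want s i x = some pc) : 1 ≤ pc.2.2 ∧ pc.2.2 ≤ i ∧
      pc.2.1 ∈ reqd P.h P.a s.tot {x} pc.2.2 ∧ s.col pc.2.1 pc.2.2 = none ∧
      ∀ t, 1 ≤ t → t < pc.2.2 → miss s x t = ∅ := by
  obtain ⟨h1, -⟩ := want_some h
  obtain ⟨h2, h3, h4, h5⟩ := firstCol_some h1
  rw [mem_miss] at h4
  exact ⟨h2, h3, h4.1, h4.2, h5⟩

lemma want_near {s : St P} {i : ℕ} {x : V d} {pc : (V d × Fin P.M) × (V d × ℕ)}
    (h : want s i x = some pc) :
    pc.1.1 ∈ ball x (2 * P.a * i) ∧ pc.2.1 ∈ ball x (2 * P.a * i) := by
  obtain ⟨h1, h2, h3, -, -⟩ := want_col h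
  refine ⟨(mem_free.1 (want_some h).2).1, ?_⟩
  obtain ⟨y, hy, hn⟩ := reqd_near h3
  rw [Finset.mem_singleton] at hy
  subst hy
  refine ball_mono ?_ hn
  have : (pc.2.2 + 1) * P.a ≤ (2 * i) * P.a := Nat.mul_le_mul_right _ (by omega)
  calc (pc.2.2 + 1) * P.a ≤ (2 * i) * P.a := this
    _ = 2 * P.a * i := by ring

lemma loop_OK_used (n i : ℕ) (x : V d) (s : St P) :
    (loop n i x s).OK Prod.fst usedP (usedP s) := by
  induction n generalizing s with
  | zero => exact Subset.rfl
  | succ n ih =>
    unfold loop
    cases hw : want s i x with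
    | none => exact Subset.rfl
    | some pc =>
      refine ⟨?_, fun b => (ih _).mono ?_⟩
      · have := (mem_free.1 (want_some hw).2).2
        rintro (⟨m, h1, h2⟩ | ⟨h1, h2⟩)
        · simp only [Option.some.injEq] at h1
          subst h1
          simp only at h2
          rw [this] at h2
          exact absurd h2 (by simp)
        · simp at h1
      · intro q hq
        rcases hq with hq | hq
        · rw [hq]
          exact Or.inl ⟨_, rfl, by simp [St.rd]⟩
        · rcases hq with ⟨m, h1, h2⟩ | ⟨h1, h2⟩
          · refine Or.inl ⟨m, h1, ?_⟩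
            simp only [St.rd]
            split_ifs
            · rfl
            · exact h2
          · refine Or.inr ⟨h1, ?_⟩
            simp only [St.rd]
            split_ifs
            · simp
            · exact h2

lemma loop_OK_asg (n i : ℕ) (x : V d) (s : St P) :
    (loop n i x s).OK Prod.snd asg (asg s) := by
  induction n generalizing s with
  | zero => exact Subset.rfl
  | succ n ih =>
    unfold loop
    cases hw : want s i x with
    | none => exact Subset.rfl
    | some pc =>
      refine ⟨?_, fun b => (ih _).mono ?_⟩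
      · obtain ⟨-, -, -, h4, -⟩ := want_col hw
        simp [asg, h4]
      · intro q hq
        rcases hq with hq | hq
        · rw [hq]
          simp [asg, St.rd]
        · simp only [asg, St.rd, mem_ofPred_eq]
          split_ifs
          · simp
          · exact hq

lemma usedP_fin (s : St P) (i : ℕ) (x : V d) : usedP (fin s i x) = usedP s := by
  unfold fin; split_ifs <;> rfl

lemma asg_fin (s : St P) (i : ℕ) (x : V d) : asg (fin s i x) = asg s := by
  unfold fin; split_ifs <;> rfl

lemma attempt_OK_used (i : ℕ) (x : V d) (s : St P) :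
    (attempt i x s).OK Prod.fst usedP (usedP s) := by
  unfold attempt
  split_ifs
  · exact Subset.rfl
  · refine (loop_OK_used _ i x s).bind fun b => ?_
    show usedP b ⊆ usedP (fin b i x)
    rw [usedP_fin]

lemma attempt_OK_asg (i : ℕ) (x : V d) (s : St P) :
    (attempt i x s).OK Prod.snd asg (asg s) := by
  unfold attempt
  split_ifs
  · exact Subset.rfl
  · refine (loop_OK_asg _ i x s).bind fun b => ?_
    show asg b ⊆ asg (fin b i x)
    rw [asg_fin]

lemma roundT_OK_used (i : ℕ) (L : List (V d)) (s : St P) :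
    (roundT i L s).OK Prod.fst usedP (usedP s) := by
  induction L generalizing s with
  | nil => exact Subset.rfl
  | cons x L ih => exact (attempt_OK_used i x s).bind fun b => ih b

lemma roundT_OK_asg (i : ℕ) (L : List (V d)) (s : St P) :
    (roundT i L s).OK Prod.snd asg (asg s) := by
  induction L generalizing s with
  | nil => exact Subset.rfl
  | cons x L ih => exact (attempt_OK_asg i x s).bind fun b => ih b

lemma runT_OK_used (L : List (V d)) (n : ℕ) (s : St P) :
    (runT L n s).OK Prod.fst usedP (usedP s) := by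
  induction n generalizing s with
  | zero => exact Subset.rfl
  | succ n ih => exact (ih s).bind fun b => roundT_OK_used n L b

lemma runT_OK_asg (L : List (V d)) (n : ℕ) (s : St P) :
    (runT L n s).OK Prod.snd asg (asg s) := by
  induction n generalizing s with
  | zero => exact Subset.rfl
  | succ n ih => exact (ih s).bind fun b => roundT_OK_asg n L b

lemma initT_OK_used {L : List (V d)} (hL : L.Nodup) (s : St P)
    (hs : ∀ u ∈ L, s.col u 0 = none) : (initT L s).OK Prod.fst usedP (usedP s) := by
  induction L generalizing s with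
  | nil => exact Subset.rfl
  | cons u L ih =>
    have hu : u ∉ L := (List.nodup_cons.1 hL).1
    refine ⟨?_, fun b => (ih (List.nodup_cons.1 hL).2 _ ?_).mono ?_⟩
    · rintro (⟨m, h1, h2⟩ | ⟨h1, h2⟩)
      · simp at h1
      · exact h2 (hs u (by simp))
    · intro u' hu'
      have hne : u' ≠ u := fun hh => hu (hh ▸ hu')
      simp only [St.col0, hne, false_and, if_false]
      exact hs u' (by simp [hu'])
    · intro q hq
      rcases hq with hq | hq
      · rw [hq]
        exact Or.inr ⟨rfl, by simp [St.col0]⟩
      · rcases hq with ⟨m, h1, h2⟩ | ⟨h1, h2⟩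
        · exact Or.inl ⟨m, h1, h2⟩
        · refine Or.inr ⟨h1, ?_⟩
          simp only [St.col0]
          split_ifs
          · simp
          · exact h2

lemma initT_OK_asg {L : List (V d)} (hL : L.Nodup) (s : St P)
    (hs : ∀ u ∈ L, s.col u 0 = none) : (initT L s).OK Prod.snd asg (asg s) := by
  induction L generalizing s with
  | nil => exact Subset.rfl
  | cons u L ih =>
    have hu : u ∉ L := (List.nodup_cons.1 hL).1
    refine ⟨?_, fun b => (ih (List.nodup_cons.1 hL).2 _ ?_).mono ?_⟩
    · simp only [asg, mem_ofPred_eq, not_not]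
      exact hs u (by simp)
    · intro u' hu'
      have hne : u' ≠ u := fun hh => hu (hh ▸ hu')
      simp only [St.col0, hne, false_and, if_false]
      exact hs u' (by simp [hu'])
    · intro q hq
      rcases hq with hq | hq
      · rw [hq]
        simp [asg, St.col0]
      · simp only [asg, St.col0, mem_ofPred_eq]
        split_ifs
        · simp
        · exact hq

theorem prog_fresh_fst (N : ℕ) {L0 : List (V d)} (hL0 : L0.Nodup) (L : List (V d)) :
    (prog P N L0 L).Fresh Prod.fst (usedP (empt P)) :=
  ((initT_OK_used hL0 _ (fun _ _ => rfl)).bind fun b => runT_OK_used L N b).fresh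

theorem prog_fresh_snd (N : ℕ) {L0 : List (V d)} (hL0 : L0.Nodup) (L : List (V d)) :
    (prog P N L0 L).Fresh Prod.snd (asg (empt P)) :=
  ((initT_OK_asg hL0 _ (fun _ _ => rfl)).bind fun b => runT_OK_asg L N b).fresh

/-! ### Region read -/

/-- the queries whose packet lies in `R` -/
def reg (P : Par d α S) (R : Set (V d)) : Set (Qy P) := {q | q.1.1 ∈ R}

lemma loop_within (n i : ℕ) (x : V d) (s : St P) {R : Set (V d)}
    (hR : ∀ y ∈ ball x (2 * P.a * i), y ∈ R) : (loop n i x s).Within (reg P R) := by
  induction n generalizing s with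
  | zero => trivial
  | succ n ih =>
    unfold loop
    cases hw : want s i x with
    | none => trivial
    | some pc => exact ⟨hR _ (want_near hw).1, fun b => ih _⟩

lemma attempt_within (i : ℕ) (x : V d) (s : St P) {R : Set (V d)}
    (hR : ∀ y ∈ ball x (2 * P.a * i), y ∈ R) : (attempt i x s).Within (reg P R) := by
  unfold attempt
  split_ifs
  · trivial
  · exact (loop_within _ i x s hR).bind fun b => trivial

lemma roundT_within (i : ℕ) (L : List (V d)) (s : St P) {R : Set (V d)}
    (hR : ∀ x ∈ L, ∀ y ∈ ball x (2 * P.a * i), y ∈ R) : (roundT i L s).Within (reg P R) := by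
  induction L generalizing s with
  | nil => trivial
  | cons x L ih =>
    exact (attempt_within i x s (hR x (by simp))).bind fun b =>
      ih b (fun y hy => hR y (by simp [hy]))

lemma runT_within (L : List (V d)) (n : ℕ) (s : St P) {R : Set (V d)}
    (hR : ∀ x ∈ L, ∀ y ∈ ball x (2 * P.a * n), y ∈ R) : (runT L n s).Within (reg P R) := by
  induction n generalizing s with
  | zero => trivial
  | succ n ih =>
    have hm : 2 * P.a * n ≤ 2 * P.a * (n + 1) := Nat.mul_le_mul_left _ (by omega)
    refine (ih s ?_).bind fun b => roundT_within n L b ?_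
    · intro x hx y hy
      exact hR x hx y (ball_mono hm hy)
    · intro x hx y hy
      exact hR x hx y (ball_mono hm hy)

lemma initT_within (L : List (V d)) (s : St P) {R : Set (V d)}
    (hR : ∀ x ∈ L, x ∈ R) : (initT L s).Within (reg P R) := by
  induction L generalizing s with
  | nil => trivial
  | cons x L ih => exact ⟨hR x (by simp), fun b => ih _ (fun y hy => hR y (by simp [hy]))⟩

theorem prog_within (N : ℕ) (L0 L : List (V d)) {R : Set (V d)}
    (h0 : ∀ x ∈ L0, x ∈ R) (hR : ∀ x ∈ L, ∀ y ∈ ball x (2 * P.a * N), y ∈ R) :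
    (prog P N L0 L).Within (reg P R) :=
  (initT_within L0 _ h0).bind fun b => runT_within L N b hR

/-! ### What a turn changes -/

lemma loop_dn (g : Qy P → α) (n i : ℕ) (x : V d) (s : St P) :
    ((loop n i x s).eval g).dn = s.dn :=
  loop_inv g (fun s' => s'.dn = s.dn) (fun _ _ h _ => h) n s rfl

lemma loop_col_mono (g : Qy P → α) (n i : ℕ) (x : V d) (s : St P) {u : V d} {t : ℕ} {b : α}
    (h : s.col u t = some b) : ((loop n i x s).eval g).col u t = some b := by
  refine loop_inv g (fun s' => s'.col u t = some b) ?_ n s h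
  intro s' pc hs' hw
  obtain ⟨-, -, -, h4, -⟩ := want_col hw
  simp only [St.rd]
  rw [if_neg]
  · exact hs'
  · rintro ⟨h1, h2⟩
    rw [← h1, ← h2, hs'] at h4
    cases h4

lemma loop_col_zero (g : Qy P → α) (n i : ℕ) (x : V d) (s : St P) (u : V d) :
    ((loop n i x s).eval g).col u 0 = s.col u 0 := by
  refine loop_inv g (fun s' => s'.col u 0 = s.col u 0) ?_ n s rfl
  intro s' pc hs' hw
  obtain ⟨h1, -, -, -, -⟩ := want_col hw
  simp only [St.rd]
  rw [if_neg]
  · exact hs'
  · rintro ⟨-, h2⟩
    omega

lemma loop_outside (g : Qy P → α) (n i : ℕ) (x : V d) (s : St P) {u : V d}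
    (hu : u ∉ ball x (2 * P.a * i)) :
    ((loop n i x s).eval g).col u = s.col u ∧ ((loop n i x s).eval g).use u = s.use u := by
  refine loop_inv g (fun s' => s'.col u = s.col u ∧ s'.use u = s.use u) ?_ n s ⟨rfl, rfl⟩
  intro s' pc hs' hw
  obtain ⟨h1, h2⟩ := want_near hw
  have hne1 : u ≠ pc.1.1 := fun hh => hu (hh ▸ h1)
  have hne2 : u ≠ pc.2.1 := fun hh => hu (hh ▸ h2)
  constructor
  · rw [← hs'.1]; funext t; simp [St.rd, hne2]
  · rw [← hs'.2]; funext m; simp [St.rd, hne1]

lemma fin_col (s : St P) (i : ℕ) (x : V d) : (fin s i x).col = s.col := by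
  unfold fin; split_ifs <;> rfl

lemma fin_use (s : St P) (i : ℕ) (x : V d) : (fin s i x).use = s.use := by
  unfold fin; split_ifs <;> rfl

lemma fin_dn_ne (s : St P) (i : ℕ) {x y : V d} (h : y ≠ x) : (fin s i x).dn y = s.dn y := by
  unfold fin; split_ifs
  · simp [h]
  · rfl

lemma attempt_done (g : Qy P → α) (i : ℕ) {x : V d} {s : St P} (h : s.dn x ≠ none) :
    (attempt i x s).eval g = s := by
  unfold attempt
  rw [if_pos (Option.isSome_iff_ne_none.2 h)]
  rfl

lemma attempt_undone (g : Qy P → α) (i : ℕ) {x : V d} {s : St P} (h : s.dn x = none) :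
    (attempt i x s).eval g = fin ((loop (fuel P i) i x s).eval g) i x := by
  unfold attempt
  rw [if_neg (by rw [h]; simp)]
  simp

lemma attempt_dn_ne (g : Qy P → α) (i : ℕ) {x y : V d} (s : St P) (h : y ≠ x) :
    ((attempt i x s).eval g).dn y = s.dn y := by
  by_cases hx : s.dn x = none
  · rw [attempt_undone g i hx, fin_dn_ne _ _ h, loop_dn]
  · rw [attempt_done g i hx]

lemma attempt_dn_mono (g : Qy P → α) (i : ℕ) {x y : V d} (s : St P) {r : ℕ × S}
    (h : s.dn y = some r) : ((attempt i x s).eval g).dn y = some r := by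
  by_cases hy : y = x
  · subst hy
    rw [attempt_done g i (by rw [h]; simp)]; exact h
  · rw [attempt_dn_ne g i s hy]; exact h

lemma attempt_dn_new (g : Qy P → α) (i : ℕ) {x : V d} {s : St P} (h : s.dn x = none) :
    ((attempt i x s).eval g).dn x = none ∨ ∃ v, ((attempt i x s).eval g).dn x = some (i, v) := by
  rw [attempt_undone g i h]
  unfold fin
  split_ifs
  · exact Or.inr ⟨_, if_pos rfl⟩
  · left; rw [loop_dn]; exact h

lemma attempt_col_mono (g : Qy P → α) (i : ℕ) (x : V d) (s : St P) {u : V d} {t : ℕ} {b : α}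
    (h : s.col u t = some b) : ((attempt i x s).eval g).col u t = some b := by
  by_cases hx : s.dn x = none
  · rw [attempt_undone g i hx, fin_col]; exact loop_col_mono g _ i x s h
  · rw [attempt_done g i hx]; exact h

lemma attempt_col_zero (g : Qy P → α) (i : ℕ) (x : V d) (s : St P) (u : V d) :
    ((attempt i x s).eval g).col u 0 = s.col u 0 := by
  by_cases hx : s.dn x = none
  · rw [attempt_undone g i hx, fin_col]; exact loop_col_zero g _ i x s u
  · rw [attempt_done g i hx]

lemma attempt_outside (g : Qy P → α) (i : ℕ) (x : V d) (s : St P) {u : V d}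
    (hu : u ∉ ball x (2 * P.a * i)) :
    ((attempt i x s).eval g).col u = s.col u ∧ ((attempt i x s).eval g).use u = s.use u ∧
      ((attempt i x s).eval g).dn u = s.dn u := by
  have hux : u ≠ x := fun hh => hu (hh ▸ self_mem_ball _ _)
  refine ⟨?_, ?_, attempt_dn_ne g i s hux⟩
  · by_cases hx : s.dn x = none
    · rw [attempt_undone g i hx, fin_col]; exact (loop_outside g _ i x s hu).1
    · rw [attempt_done g i hx]
  · by_cases hx : s.dn x = none
    · rw [attempt_undone g i hx, fin_use]; exact (loop_outside g _ i x s hu).2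
    · rw [attempt_done g i hx]

end H64.PCA
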