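import Pool.Agent.H64.PCA.Prob
import Pool.Agent.H64.PCA.Model

/-!
# Moment estimates for the needed sets
-/

open MeasureTheory ProbabilityTheory Set
open scoped ENNReal NNReal

namespace H64.PCA

variable {d : ℕ} {α S : Type} [Finite α] [MeasurableSpace α] [DiscreteMeasurableSpace α]
  {h : (V d → α) → (V d → S) → S} {a : ℕ}

/-- the field as a function of site and level -/
def cur (X : V d × ℕ → α) : V d → ℕ → α := fun u t => X (u, t)

/-- probability that the global map is not constant at a given site -/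
noncomputable def p1 (h : (V d → α) → (V d → S) → S) (ν : Measure α) : ℝ≥0∞ :=
  (Pr (V d) ν) {w | Bad h w 0}

omit [Finite α] [DiscreteMeasurableSpace α] [MeasurableSpace α] in
lemma bad_dependsOn (hl : IsLocal h a) (u : V d) :
    DependsOn (fun w : V d → α => Bad h w u) (ball u a : Set (V d)) := by
  intro w w' hw
  exact propext (bad_congr hl (fun y hy => hw y hy))

omit [Finite α] [DiscreteMeasurableSpace α] [MeasurableSpace α] in
lemma bad_dependsOn' (hl : IsLocal h a) (t : ℕ) (u : V d) :
    DependsOn (fun X : V d × ℕ → α => Bad h (fun y => cur X y t) u)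
      (((ball u a) ×ˢ {t} : Finset (V d × ℕ)) : Set (V d × ℕ)) := by
  intro X X' hX
  refine propext (bad_congr hl (fun y hy => hX (y, t) ?_))
  simp [hy]

lemma prob_bad (hl : IsLocal h a) (ν : Measure α) [IsProbabilityMeasure ν] (t : ℕ) (u : V d) :
    (Pr (V d × ℕ) ν) {X | Bad h (fun y => cur X y t) u} = p1 h ν := by
  have hinj : Function.Injective (fun y : V d => ((y + u, t) : V d × ℕ)) := by
    intro y y' hyy
    simpa using hyy
  have hmap := Measure.map_infinitePi_infinitePi_of_inj (P := fun _ : V d × ℕ => ν) hinj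
  unfold p1
  have e : (Pr (V d) ν) = (Pr (V d × ℕ) ν).map (fun ω y => ω (y + u, t)) := hmap.symm
  rw [e, Measure.map_apply]
  · congr 1
    ext X
    simp only [mem_ofPred_eq, mem_preimage, cur]
    rw [bad_shift (fun y => X (y, t)) u 0, zero_add]
  · fun_prop
  · exact measurableSet_of_dependsOn (bad_dependsOn hl 0)

/-- indicator of a bad site -/
noncomputable def ib (h : (V d → α) → (V d → S) → S) (X : V d × ℕ → α) (t : ℕ) (u : V d) :
    ℝ≥0∞ := by
  classical
  exact if Bad h (fun y => cur X y t) u then 1 else 0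

omit [Finite α] [DiscreteMeasurableSpace α] [MeasurableSpace α] in
lemma ib_dependsOn (hl : IsLocal h a) (t : ℕ) (u : V d) :
    DependsOn (fun X : V d × ℕ → α => ib h X t u)
      (((ball u a) ×ˢ {t} : Finset (V d × ℕ)) : Set (V d × ℕ)) := by
  intro X X' hX
  have := bad_dependsOn' hl t u hX
  simp only [ib]
  simp only at this
  rw [this]

lemma lintegral_ib (hl : IsLocal h a) (ν : Measure α) [IsProbabilityMeasure ν] (t : ℕ) (u : V d) :
    ∫⁻ X, ib h X t u ∂(Pr (V d × ℕ) ν) = p1 h ν := by
  rw [← prob_bad hl ν t u]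
  have e : ∀ X : V d × ℕ → α, ib h X t u
      = ({X | Bad h (fun y => cur X y t) u} : Set (V d × ℕ → α)).indicator 1 X := by
    intro X
    simp only [ib, indicator, mem_ofPred_eq, Pi.one_apply]
  simp only [e]
  rw [lintegral_indicator_one (measurableSet_of_dependsOn (bad_dependsOn' hl t u))]

open Classical in
/-- number of bad sites in `A` at level `t` -/
noncomputable def nb (h : (V d → α) → (V d → S) → S) (X : V d × ℕ → α) (t : ℕ)
    (A : Finset (V d)) : ℕ := (A.filter (fun u => Bad h (fun y => cur X y t) u)).card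

omit [Finite α] [DiscreteMeasurableSpace α] [MeasurableSpace α] in
lemma nb_eq (X : V d × ℕ → α) (t : ℕ) (A : Finset (V d)) :
    (nb h X t A : ℝ≥0∞) = ∑ u ∈ A, ib h X t u := by
  classical
  unfold nb ib
  rw [Finset.card_filter]
  push_cast
  rfl

omit [Finite α] [DiscreteMeasurableSpace α] [MeasurableSpace α] in
lemma nb_dependsOn (hl : IsLocal h a) (t : ℕ) (A : Finset (V d)) :
    DependsOn (fun X : V d × ℕ → α => nb h X t A)
      (((A.biUnion (fun u => ball u a)) ×ˢ {t} : Finset (V d × ℕ)) : Set (V d × ℕ)) := by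
  classical
  intro X X' hX
  simp only [nb]
  congr 1
  refine Finset.filter_congr fun u hu => ?_
  refine bad_congr hl (fun y hy => hX (y, t) ?_)
  simp only [Finset.coe_product, Finset.coe_biUnion, Finset.mem_coe, Finset.coe_singleton,
    mem_prod, mem_iUnion, mem_singleton_iff, and_true]
  exact ⟨u, hu, hy⟩

/-- first moment of the number of bad sites -/
lemma lintegral_nb (hl : IsLocal h a) (ν : Measure α) [IsProbabilityMeasure ν] (t : ℕ)
    (A : Finset (V d)) :
    ∫⁻ X, (nb h X t A : ℝ≥0∞) ∂(Pr (V d × ℕ) ν) = A.card * p1 h ν := by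
  simp only [nb_eq]
  rw [lintegral_finsetSum]
  · simp [lintegral_ib hl]
  · intro u _
    exact measurable_of_dependsOn (ib_dependsOn hl t u)

/-- exponential moment over a separated set -/
lemma lintegral_two_pow_sep (hl : IsLocal h a) (ν : Measure α) [IsProbabilityMeasure ν] (t : ℕ)
    (A : Finset (V d)) (hA : ∀ u ∈ A, ∀ u' ∈ A, u ≠ u' → Disjoint (ball u a) (ball u' a)) :
    ∫⁻ X, (2 : ℝ≥0∞) ^ nb h X t A ∂(Pr (V d × ℕ) ν) = (1 + p1 h ν) ^ A.card := by
  classical
  induction A using Finset.induction_on with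
  | empty => simp [nb]
  | insert u A hu ih =>
    have e : ∀ X : V d × ℕ → α, (2 : ℝ≥0∞) ^ nb h X t (insert u A)
        = (1 + ib h X t u) * (2 : ℝ≥0∞) ^ nb h X t A := by
      intro X
      simp only [nb, ib]
      rw [Finset.filter_insert]
      split_ifs with hb
      · rw [Finset.card_insert_of_notMem (by simp [hu]), pow_succ, mul_comm]
        norm_num
      · simp
    simp only [e]
    rw [lintegral_mul_of_dependsOn ν (I := (ball u a) ×ˢ {t})
      (J := (A.biUnion (fun u => ball u a)) ×ˢ {t}), ih, lintegral_add_left measurable_const]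
    · rw [lintegral_ib hl, Finset.card_insert_of_notMem hu, pow_succ, mul_comm]
      simp
    · intro u1 h1 u2 h2
      exact hA u1 (by simp [h1]) u2 (by simp [h2])
    · intro X X' hX
      have := ib_dependsOn hl t u hX
      simp only at this ⊢
      rw [this]
    · intro X X' hX
      have := nb_dependsOn hl t A hX
      simp only at this ⊢
      rw [this]
    · rw [Finset.disjoint_product]
      left
      rw [Finset.disjoint_biUnion_right]
      intro u' hu'
      exact hA u (by simp) u' (by simp [hu']) (fun hh => hu (hh ▸ hu'))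

/-! ### Residue classes -/

/-- the class of a site modulo `2a+1` -/
def cls (a : ℕ) (u : V d) : Fin d → ZMod (2 * a + 1) := fun i => (u i : ZMod (2 * a + 1))

lemma disjoint_of_cls {u u' : V d} (hc : cls a u = cls a u') (hne : u ≠ u') :
    Disjoint (ball u a) (ball u' a) := by
  rw [Finset.disjoint_left]
  intro y hy hy'
  apply hne
  funext i
  have h1 := mem_ball.1 hy i
  have h2 := mem_ball.1 hy' i
  have h3 : ((u i - u' i : ℤ) : ZMod (2 * a + 1)) = 0 := by
    have := congrFun hc i
    simp only [cls] at this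
    push_cast
    rw [this, sub_self]
  rw [ZMod.intCast_zmod_eq_zero_iff_dvd] at h3
  have h4 : |u i - u' i| < ((2 * a + 1 : ℕ) : ℤ) := by
    have e : u i - u' i = (y i - u' i) - (y i - u i) := by ring
    rw [e]
    have := abs_sub (y i - u' i) (y i - u i)
    push_cast
    linarith
  have := Int.eq_zero_of_abs_lt_dvd h3 h4
  linarith

lemma amgm {κ : Type} [Fintype κ] [Nonempty κ] (K : κ → ℕ) {z : ℝ≥0}
    (hz : z ^ Fintype.card κ = 2) :
    (Fintype.card κ : ℝ≥0) * z ^ (∑ r, K r) ≤ ∑ r, (2 : ℝ≥0) ^ K r := by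
  have hΔ : (0 : ℝ) < Fintype.card κ := by exact_mod_cast Fintype.card_pos
  have hΔ' : Fintype.card κ ≠ 0 := Fintype.card_ne_zero
  have key := Real.geom_mean_le_arith_mean_weighted (Finset.univ : Finset κ)
    (fun _ => (Fintype.card κ : ℝ)⁻¹) (fun r => (2 : ℝ) ^ K r)
    (fun _ _ => by positivity)
    (by rw [Finset.sum_const, nsmul_eq_mul]; simp [hΔ.ne'])
    (fun _ _ => by positivity)
  have hz' : (z : ℝ) ^ Fintype.card κ = 2 := by exact_mod_cast hz
  have e1 : ∀ r, ((2 : ℝ) ^ K r) ^ ((Fintype.card κ : ℝ)⁻¹) = (z : ℝ) ^ K r := by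
    intro r
    rw [← hz', ← pow_mul, mul_comm, pow_mul]
    exact Real.pow_rpow_inv_natCast (by positivity) hΔ'
  simp only [e1] at key
  rw [Finset.prod_pow_eq_pow_sum, ← Finset.mul_sum] at key
  have h2 : (Fintype.card κ : ℝ) * (z : ℝ) ^ (∑ r, K r) ≤ ∑ r, (2 : ℝ) ^ K r := by
    calc (Fintype.card κ : ℝ) * (z : ℝ) ^ (∑ r, K r)
        ≤ (Fintype.card κ : ℝ) * ((Fintype.card κ : ℝ)⁻¹ * ∑ r, (2 : ℝ) ^ K r) := by gcongr
      _ = ∑ r, (2 : ℝ) ^ K r := by rw [← mul_assoc, mul_inv_cancel₀ hΔ.ne', one_mul]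
  exact_mod_cast h2

/-- exponential moment over an arbitrary set -/
lemma lintegral_pow_nb (hl : IsLocal h a) (ν : Measure α) [IsProbabilityMeasure ν] (t : ℕ)
    (A : Finset (V d)) {z : ℝ≥0} (hz : z ^ ((2 * a + 1) ^ d) = 2) :
    ∫⁻ X, (z : ℝ≥0∞) ^ nb h X t A ∂(Pr (V d × ℕ) ν) ≤ (1 + p1 h ν) ^ A.card := by
  classical
  set κ := Fin d → ZMod (2 * a + 1) with hκ
  have : NeZero (2 * a + 1) := ⟨by omega⟩
  have hcard : Fintype.card κ = (2 * a + 1) ^ d := by simp [hκ, ZMod.card]
  have hsum : ∀ X : V d × ℕ → α,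
      ∑ r : κ, nb h X t (A.filter (fun u => cls a u = r)) = nb h X t A := by
    intro X
    unfold nb
    rw [Finset.card_eq_sum_card_fiberwise (f := cls a) (t := (Finset.univ : Finset κ))
      (fun _ _ => by simp)]
    refine Finset.sum_congr rfl fun r _ => ?_
    congr 1
    ext u
    simp only [Finset.mem_filter]
    tauto
  have hpt : ∀ X : V d × ℕ → α, (Fintype.card κ : ℝ≥0∞) * (z : ℝ≥0∞) ^ nb h X t A
      ≤ ∑ r : κ, (2 : ℝ≥0∞) ^ nb h X t (A.filter (fun u => cls a u = r)) := by
    intro X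
    have := amgm (fun r : κ => nb h X t (A.filter (fun u => cls a u = r)))
      (z := z) (by rw [hcard]; exact hz)
    rw [hsum] at this
    have h2 := ENNReal.coe_le_coe.2 this
    push_cast at h2
    exact h2
  have hint : (Fintype.card κ : ℝ≥0∞) * ∫⁻ X, (z : ℝ≥0∞) ^ nb h X t A ∂(Pr (V d × ℕ) ν)
      ≤ (Fintype.card κ : ℝ≥0∞) * (1 + p1 h ν) ^ A.card := by
    have hmeas : ∀ B : Finset (V d), ∀ c : ℝ≥0∞,
        Measurable (fun X : V d × ℕ → α => c ^ nb h X t B) := by
      intro B c
      refine measurable_of_dependsOn (I := (B.biUnion (fun u => ball u a)) ×ˢ {t}) ?_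
      intro X X' hX
      have := nb_dependsOn hl t B hX
      simp only at this ⊢
      rw [this]
    rw [← lintegral_const_mul _ (hmeas A z)]
    refine (lintegral_mono hpt).trans ?_
    rw [lintegral_finsetSum _ (fun r _ => hmeas _ _)]
    have hb : ∀ r : κ, ∫⁻ X, (2 : ℝ≥0∞) ^ nb h X t (A.filter (fun u => cls a u = r))
        ∂(Pr (V d × ℕ) ν) ≤ (1 + p1 h ν) ^ A.card := by
      intro r
      rw [lintegral_two_pow_sep hl ν t]
      · exact pow_le_pow_right₀ (by simp) (Finset.card_filter_le _ _)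
      · intro u hu u' hu' hne
        rw [Finset.mem_filter] at hu hu'
        exact disjoint_of_cls (hu.2.trans hu'.2.symm) hne
    refine (Finset.sum_le_sum (fun r _ => hb r)).trans ?_
    simp
  have h0 : (Fintype.card κ : ℝ≥0∞) ≠ 0 := by simp
  have h1 : (Fintype.card κ : ℝ≥0∞) ≠ ⊤ := by simp
  exact (ENNReal.mul_le_mul_iff_right h0 h1).1 hint

end H64.PCA
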