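import Pool.Agent.H64.PCA.Moment

/-!
# Moment estimates, several levels
-/

open MeasureTheory ProbabilityTheory Set
open scoped ENNReal NNReal

namespace H64.PCA

variable {d : ℕ} {α S : Type} [Finite α] [MeasurableSpace α] [DiscreteMeasurableSpace α]
  {h : (V d → α) → (V d → S) → S} {a : ℕ}

/-- the coordinates of levels `< T` at distance at most `r` from `A` -/
noncomputable def rg (A : Finset (V d)) (r T : ℕ) : Finset (V d × ℕ) := by
  classical
  exact (A.biUnion (fun x => ball x r)) ×ˢ Finset.range T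

lemma mem_rg {A : Finset (V d)} {r T : ℕ} {q : V d × ℕ} :
    q ∈ rg A r T ↔ (∃ x ∈ A, q.1 ∈ ball x r) ∧ q.2 < T := by
  classical
  simp [rg]

omit [Finite α] [DiscreteMeasurableSpace α] [MeasurableSpace α] in
lemma front_eq_of (hl : IsLocal h a) {t : ℕ} {A : Finset (V d)} {X X' : V d × ℕ → α}
    (hX : ∀ q ∈ rg A (t * a) t, X q = X' q) :
    front h a (cur X) A t = front h a (cur X') A t := by
  refine (front_congr hl ?_).symm
  intro t' ht' y hy
  obtain ⟨x, hx, hn⟩ := reqd_near hy
  refine hX (y, t') (mem_rg.2 ⟨⟨x, hx, ball_mono ?_ hn⟩, ht'⟩)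
  exact Nat.mul_le_mul_right _ (by omega)

omit [Finite α] [DiscreteMeasurableSpace α] [MeasurableSpace α] in
lemma front_subset (X : V d × ℕ → α) (t : ℕ) (A : Finset (V d)) [DecidableEq (V d)] :
    front h a (cur X) A t ⊆ A.biUnion (fun x => ball x (t * a)) := by
  intro u hu
  obtain ⟨x, hx, hn⟩ := front_near hu
  exact Finset.mem_biUnion.2 ⟨x, hx, hn⟩

/-- conditioning on the levels below `t` -/
lemma lintegral_cond (hl : IsLocal h a) (ν : Measure α) [IsProbabilityMeasure ν] (t : ℕ)
    (A : Finset (V d)) {f : (V d × ℕ → α) → ℝ≥0∞} {I : Finset (V d × ℕ)}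
    (hf : DependsOn f (I : Set (V d × ℕ))) (hI : ∀ q ∈ I, q.2 < t)
    {g : Finset (V d) → (V d × ℕ → α) → ℝ≥0∞}
    (hg : ∀ R, ∃ J : Finset (V d × ℕ), DependsOn (g R) (J : Set (V d × ℕ)) ∧ ∀ q ∈ J, q.2 = t)
    {c : Finset (V d) → ℝ≥0∞} (hc : ∀ R, ∫⁻ X, g R X ∂(Pr (V d × ℕ) ν) ≤ c R) :
    ∫⁻ X, f X * g (front h a (cur X) A t) X ∂(Pr (V d × ℕ) ν)
      ≤ ∫⁻ X, f X * c (front h a (cur X) A t) ∂(Pr (V d × ℕ) ν) := by
  classical
  set F : (V d × ℕ → α) → Finset (V d) := fun X => front h a (cur X) A t with hF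
  set Rs : Finset (Finset (V d)) := (A.biUnion (fun x => ball x (t * a))).powerset with hRs
  have hFR : ∀ X, F X ∈ Rs := fun X => Finset.mem_powerset.2 (front_subset X t A)
  set f1 : Finset (V d) → (V d × ℕ → α) → ℝ≥0∞ := fun R X => if F X = R then f X else 0 with hf1
  have hf1d : ∀ R, DependsOn (f1 R) ((I ∪ rg A (t * a) t : Finset (V d × ℕ)) : Set (V d × ℕ)) := by
    intro R X X' hX
    have e1 : F X = F X' := front_eq_of hl (fun q hq => hX q (by simp [hq]))
    have e2 : f X = f X' := hf (fun q hq => hX q (by simp only [Finset.coe_union]; left; exact hq))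
    simp only [hf1, e1, e2]
  have hlt : ∀ q ∈ (I ∪ rg A (t * a) t), q.2 < t := by
    intro q hq
    rw [Finset.mem_union] at hq
    rcases hq with hq | hq
    · exact hI q hq
    · exact (mem_rg.1 hq).2
  have hsplit : ∀ (G : Finset (V d) → (V d × ℕ → α) → ℝ≥0∞) X,
      f X * G (F X) X = ∑ R ∈ Rs, f1 R X * G R X := by
    intro G X
    rw [Finset.sum_eq_single (F X)]
    · simp [hf1]
    · intro R _ hR
      simp [hf1, Ne.symm hR]
    · intro hh; exact absurd (hFR X) hh
  calc ∫⁻ X, f X * g (F X) X ∂(Pr (V d × ℕ) ν)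
      = ∑ R ∈ Rs, ∫⁻ X, f1 R X * g R X ∂(Pr (V d × ℕ) ν) := by
        simp only [hsplit g]
        rw [lintegral_finsetSum]
        intro R _
        obtain ⟨J, hJ, -⟩ := hg R
        exact (measurable_of_dependsOn (hf1d R)).mul (measurable_of_dependsOn hJ)
    _ ≤ ∑ R ∈ Rs, ∫⁻ X, f1 R X * c R ∂(Pr (V d × ℕ) ν) := by
        refine Finset.sum_le_sum fun R _ => ?_
        obtain ⟨J, hJ, hJt⟩ := hg R
        rw [lintegral_mul_of_dependsOn ν (hf1d R) hJ, lintegral_mul_const _
          (measurable_of_dependsOn (hf1d R))]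
        · gcongr
          exact hc R
        · rw [Finset.disjoint_left]
          intro q hq hq'
          have := hlt q hq
          have := hJt q hq'
          omega
    _ = ∫⁻ X, f X * c (F X) ∂(Pr (V d × ℕ) ν) := by
        simp only [hsplit (fun R _ => c R)]
        rw [lintegral_finsetSum]
        intro R _
        exact (measurable_of_dependsOn (hf1d R)).mul measurable_const

omit [Finite α] [DiscreteMeasurableSpace α] [MeasurableSpace α] in
lemma card_front_succ_le (X : V d × ℕ → α) (t : ℕ) (A : Finset (V d)) :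
    (front h a (cur X) A (t + 1)).card
      ≤ (2 * a + 1) ^ d * nb h X t (front h a (cur X) A t) := by
  rw [mul_comm, front, nb]
  refine Finset.card_biUnion_le_card_mul _ (fun u => ball u a) _ ?_
  intro u _
  rw [card_ball]

omit [Finite α] [DiscreteMeasurableSpace α] [MeasurableSpace α] in
lemma card_reqd_le (X : V d × ℕ → α) (t : ℕ) (A : Finset (V d)) :
    (reqd h a (cur X) A t).card ≤ (2 * a + 1) ^ d * (front h a (cur X) A t).card := by
  rw [mul_comm, reqd]
  refine Finset.card_biUnion_le_card_mul _ (fun u => ball u a) _ ?_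
  intro u _
  rw [card_ball]

/-- first moment -/
lemma lintegral_card_front (hl : IsLocal h a) (ν : Measure α) [IsProbabilityMeasure ν]
    (A : Finset (V d)) (t : ℕ) :
    ∫⁻ X, ((front h a (cur X) A t).card : ℝ≥0∞) ∂(Pr (V d × ℕ) ν)
      ≤ (((2 * a + 1) ^ d : ℕ) * p1 h ν) ^ t * A.card := by
  induction t with
  | zero => simp
  | succ t ih =>
    calc ∫⁻ X, ((front h a (cur X) A (t + 1)).card : ℝ≥0∞) ∂(Pr (V d × ℕ) ν)
        ≤ ∫⁻ X, (((2 * a + 1) ^ d : ℕ) : ℝ≥0∞) * (nb h X t (front h a (cur X) A t) : ℝ≥0∞)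
            ∂(Pr (V d × ℕ) ν) := by
          refine lintegral_mono fun X => ?_
          have h2 : (((front h a (cur X) A (t + 1)).card : ℕ) : ℝ≥0∞)
              ≤ (((2 * a + 1) ^ d * nb h X t (front h a (cur X) A t) : ℕ) : ℝ≥0∞) :=
            Nat.cast_le.2 (card_front_succ_le (h := h) (a := a) X t A)
          rw [Nat.cast_mul] at h2
          exact h2
      _ ≤ ∫⁻ X, (((2 * a + 1) ^ d : ℕ) : ℝ≥0∞) * ((front h a (cur X) A t).card * p1 h ν)
            ∂(Pr (V d × ℕ) ν) := by
          refine lintegral_cond (g := fun R X => (nb h X t R : ℝ≥0∞)) hl ν t A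
            (f := fun _ => (((2 * a + 1) ^ d : ℕ) : ℝ≥0∞)) (I := ∅) ?_ (by simp) ?_
            (c := fun R => R.card * p1 h ν) ?_
          · intro _ _ _; rfl
          · intro R
            classical
            refine ⟨(R.biUnion (fun u => ball u a)) ×ˢ {t}, ?_, ?_⟩
            · intro X X' hX
              have := nb_dependsOn hl t R hX
              simp only at this ⊢
              rw [this]
            · intro q hq
              simp only [Finset.mem_product, Finset.mem_singleton] at hq
              exact hq.2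
          · intro R
            exact (lintegral_nb hl ν t R).le
      _ = ((2 * a + 1) ^ d : ℕ) * p1 h ν
            * ∫⁻ X, ((front h a (cur X) A t).card : ℝ≥0∞) ∂(Pr (V d × ℕ) ν) := by
          rw [← lintegral_const_mul]
          · refine lintegral_congr fun X => ?_
            ring
          · refine measurable_of_dependsOn (I := rg A (t * a) t) ?_
            intro X X' hX
            simp only
            rw [front_eq_of hl hX]
      _ ≤ ((2 * a + 1) ^ d : ℕ) * p1 h ν
            * ((((2 * a + 1) ^ d : ℕ) * p1 h ν) ^ t * A.card) := by gcongr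
      _ = (((2 * a + 1) ^ d : ℕ) * p1 h ν) ^ (t + 1) * A.card := by ring

/-- exponential moment -/
lemma lintegral_pow_front (hl : IsLocal h a) (ν : Measure α) [IsProbabilityMeasure ν]
    {v : ℝ≥0} (hv1 : 1 ≤ v) (hv : v ^ (2 * ((2 * a + 1) ^ d) ^ 2) = 2)
    (hp : 1 + p1 h ν ≤ v) (A : Finset (V d)) (i : ℕ) :
    ∫⁻ X, (v : ℝ≥0∞) ^ (∑ t ∈ Finset.Icc 1 i, (front h a (cur X) A t).card)
        * (v : ℝ≥0∞) ^ (front h a (cur X) A i).card ∂(Pr (V d × ℕ) ν) ≤ (v : ℝ≥0∞) ^ A.card := by
  set Δ := (2 * a + 1) ^ d with hΔ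
  have hv1' : (1 : ℝ≥0∞) ≤ v := by exact_mod_cast hv1
  induction i with
  | zero => simp
  | succ i ih =>
    refine le_trans ?_ ih
    calc ∫⁻ X, (v : ℝ≥0∞) ^ (∑ t ∈ Finset.Icc 1 (i + 1), (front h a (cur X) A t).card)
          * (v : ℝ≥0∞) ^ (front h a (cur X) A (i + 1)).card ∂(Pr (V d × ℕ) ν)
        ≤ ∫⁻ X, (v : ℝ≥0∞) ^ (∑ t ∈ Finset.Icc 1 i, (front h a (cur X) A t).card)
          * ((v ^ (2 * Δ) : ℝ≥0) : ℝ≥0∞) ^ nb h X i (front h a (cur X) A i)
            ∂(Pr (V d × ℕ) ν) := by
          refine lintegral_mono fun X => ?_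
          simp only
          rw [Finset.sum_Icc_succ_top (by omega), pow_add, mul_assoc]
          gcongr
          rw [← pow_add, ENNReal.coe_pow, ← pow_mul]
          refine pow_le_pow_right₀ hv1' ?_
          have := card_front_succ_le (h := h) (a := a) X i A
          rw [← hΔ] at this
          calc (front h a (cur X) A (i + 1)).card + (front h a (cur X) A (i + 1)).card
              = 2 * (front h a (cur X) A (i + 1)).card := by ring
            _ ≤ 2 * (Δ * nb h X i (front h a (cur X) A i)) := by omega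
            _ = 2 * Δ * nb h X i (front h a (cur X) A i) := by ring
      _ ≤ ∫⁻ X, (v : ℝ≥0∞) ^ (∑ t ∈ Finset.Icc 1 i, (front h a (cur X) A t).card)
          * (v : ℝ≥0∞) ^ (front h a (cur X) A i).card ∂(Pr (V d × ℕ) ν) := by
          refine lintegral_cond (g := fun R X => ((v ^ (2 * Δ) : ℝ≥0) : ℝ≥0∞) ^ nb h X i R) hl ν i A
            (f := fun X => (v : ℝ≥0∞) ^ (∑ t ∈ Finset.Icc 1 i, (front h a (cur X) A t).card))
            (I := rg A (i * a) i) ?_ (fun q hq => (mem_rg.1 hq).2) ?_
            (c := fun R => (v : ℝ≥0∞) ^ R.card) ?_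
          · intro X X' hX
            simp only
            congr 1
            refine Finset.sum_congr rfl fun t ht => ?_
            rw [Finset.mem_Icc] at ht
            rw [front_eq_of hl]
            intro q hq
            obtain ⟨⟨x, hx, hn⟩, hq2⟩ := mem_rg.1 hq
            exact hX q (mem_rg.2 ⟨⟨x, hx, ball_mono (Nat.mul_le_mul_right _ ht.2) hn⟩, by omega⟩)
          · intro R
            classical
            refine ⟨(R.biUnion (fun u => ball u a)) ×ˢ {i}, ?_, ?_⟩
            · intro X X' hX
              have := nb_dependsOn hl i R hX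
              simp only at this ⊢
              rw [this]
            · intro q hq
              simp only [Finset.mem_product, Finset.mem_singleton] at hq
              exact hq.2
          · intro R
            refine (lintegral_pow_nb hl ν i R (z := v ^ (2 * Δ)) ?_).trans ?_
            · rw [← pow_mul, ← hΔ, ← hv]
              congr 1
              ring
            · exact pow_le_pow_left₀ (by simp) hp _

end H64.PCA
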