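import Mathlib

/-!
# Product measures: functions of finitely many coordinates
-/

open MeasureTheory ProbabilityTheory Set
open scoped ENNReal

namespace H64.PCA

section Prob

variable {ι α : Type*} [Finite α] [MeasurableSpace α] [DiscreteMeasurableSpace α]

/-- the product measure -/
noncomputable abbrev Pr (ι : Type*) {α : Type*} [MeasurableSpace α] (ν : Measure α) :
    Measure (ι → α) := Measure.infinitePi (fun _ : ι => ν)

lemma exists_factor {β : Type*} [Nonempty β] {f : (ι → α) → β} {I : Finset ι}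
    (h : DependsOn f (I : Set ι)) :
    ∃ g : (I → α) → β, ∀ x, f x = g (fun i => x i) := by
  obtain ⟨g, hg⟩ := (dependsOn_iff_exists_comp).1 h
  refine ⟨fun y => g (fun i => y ⟨i.1, i.2⟩), fun x => ?_⟩
  rw [hg]; rfl

lemma measurable_of_dependsOn {β : Type*} [MeasurableSpace β] {f : (ι → α) → β} {I : Finset ι}
    (h : DependsOn f (I : Set ι)) : Measurable f := by
  classical
  rcases isEmpty_or_nonempty β with hβ | hβ
  · have : IsEmpty (ι → α) := ⟨fun x => hβ.false (f x)⟩
    exact measurable_of_empty f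
  obtain ⟨g, hg⟩ := exists_factor h
  have : f = g ∘ (fun x : ι → α => fun i : I => x i) := by
    funext x; exact hg x
  rw [this]
  refine (measurable_of_finite g).comp ?_
  fun_prop

lemma indepFun_of_dependsOn (ν : Measure α) [IsProbabilityMeasure ν]
    {β γ : Type*} [MeasurableSpace β] [MeasurableSpace γ]
    {f : (ι → α) → β} {g : (ι → α) → γ} {I J : Finset ι}
    (hf : DependsOn f (I : Set ι)) (hg : DependsOn g (J : Set ι)) (hIJ : Disjoint I J) :
    IndepFun f g (Pr ι ν) := by
  classical
  have : Nonempty (ι → α) := by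
    by_contra hcon
    rw [not_nonempty_iff] at hcon
    have h1 : (Pr ι ν) Set.univ = 1 := measure_univ
    rw [Set.univ_eq_empty_iff.2 hcon] at h1
    simp at h1
  have : Nonempty β := ⟨f (Classical.arbitrary _)⟩
  have : Nonempty γ := ⟨g (Classical.arbitrary _)⟩
  obtain ⟨f', hf'⟩ := exists_factor hf
  obtain ⟨g', hg'⟩ := exists_factor hg
  have h1 : iIndepFun (fun (i : ι) (ω : ι → α) => ω i) (Pr ι ν) :=
    iIndepFun_infinitePi (X := fun _ ω => ω) (by fun_prop)
  have h2 := h1.indepFun_finset I J hIJ (by fun_prop)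
  have h3 := h2.comp (φ := f') (ψ := g') (measurable_of_finite _) (measurable_of_finite _)
  have e1 : f = f' ∘ (fun (a : ι → α) (i : I) => a i) := by funext x; exact hf' x
  have e2 : g = g' ∘ (fun (a : ι → α) (i : J) => a i) := by funext x; exact hg' x
  rw [e1, e2]
  exact h3

lemma lintegral_mul_of_dependsOn (ν : Measure α) [IsProbabilityMeasure ν]
    {f g : (ι → α) → ℝ≥0∞} {I J : Finset ι}
    (hf : DependsOn f (I : Set ι)) (hg : DependsOn g (J : Set ι)) (hIJ : Disjoint I J) :
    ∫⁻ x, f x * g x ∂(Pr ι ν) = (∫⁻ x, f x ∂(Pr ι ν)) * ∫⁻ x, g x ∂(Pr ι ν) :=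
  lintegral_mul_eq_lintegral_mul_lintegral_of_indepFun (measurable_of_dependsOn hf)
    (measurable_of_dependsOn hg) (indepFun_of_dependsOn ν hf hg hIJ)

lemma measurableSet_of_dependsOn {p : (ι → α) → Prop} {I : Finset ι}
    (h : DependsOn p (I : Set ι)) : MeasurableSet {x | p x} := by
  have : Measurable p := measurable_of_dependsOn h
  exact measurableSet_setOfPred.2 this

lemma measure_and_of_dependsOn (ν : Measure α) [IsProbabilityMeasure ν]
    {p q : (ι → α) → Prop} {I J : Finset ι}
    (hp : DependsOn p (I : Set ι)) (hq : DependsOn q (J : Set ι)) (hIJ : Disjoint I J) :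
    (Pr ι ν) {x | p x ∧ q x} = (Pr ι ν) {x | p x} * (Pr ι ν) {x | q x} := by
  have h := indepFun_of_dependsOn ν hp hq hIJ
  have := h.measure_inter_preimage_eq_mul {True} {True} (MeasurableSet.of_discrete)
    (MeasurableSet.of_discrete)
  have e1 : (p ⁻¹' {True}) = {x | p x} := by ext x; simp
  have e2 : (q ⁻¹' {True}) = {x | q x} := by ext x; simp
  rw [e1, e2] at this
  rw [← this]
  rfl

end Prob

end H64.PCA
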