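import Pool.Agent.H64.PCA.Chain2

/-!
# Extraction of a chain of stuck sites
-/

open Set

namespace H64.PCA

variable {d : ℕ} {α S : Type} {P : Par d α S}

/-- the round in which `x` is finished, or `N + 1` -/
def mk (s : St P) (N : ℕ) (x : V d) : ℕ := (s.dn x).elim (N + 1) Prod.fst

/-- the participating sites -/
noncomputable def GG (P : Par d α S) (N : ℕ) : Finset (V d) := ball 0 (4 * P.a * (N + 1))

/-- the result at the origin is certified by a closed set -/
def Stab (s : St P) (N : ℕ) : Prop :=
  ∃ C : Finset (V d), 0 ∈ C ∧ C ⊆ GG P N ∧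
    ∀ z ∈ C, ∃ r v, s.dn z = some (r, v) ∧ ball z (4 * P.a * r) ⊆ C

lemma mem_ball_zero {x y : V d} : y ∈ ball x 0 ↔ y = x := by
  rw [mem_ball]
  constructor
  · intro h
    funext i
    have := h i
    simp only [Nat.cast_zero, abs_nonpos_iff] at this
    linarith
  · rintro rfl i
    simp

/-- the graph of marked sites -/
def gr (s : St P) (N : ℕ) : SimpleGraph (V d) where
  Adj x y := x ≠ y ∧ (x ∈ GG P N ∧ 1 ≤ mk s N x) ∧ (y ∈ GG P N ∧ 1 ≤ mk s N y) ∧
    x ∈ ball y (5 * P.a * (mk s N x + mk s N y))
  symm := ⟨fun x y ⟨h1, h2, h3, h4⟩ =>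
    ⟨h1.symm, h3, h2, by rw [add_comm]; exact mem_ball_comm.1 h4⟩⟩
  loopless := ⟨fun x h => h.1 rfl⟩

/-- marked sites connected to the origin -/
def TT (s : St P) (N : ℕ) (z : V d) : Prop :=
  (gr s N).Reachable z 0 ∧ z ∈ GG P N ∧ 1 ≤ mk s N z

lemma chain_of_dist (s : St P) (N : ℕ) : ∀ (n : ℕ) (z : V d), TT s N z → (gr s N).dist z 0 = n →
    ∃ rest : List (V d × ℕ), GoodL P.a ((z, mk s N z) :: rest) ∧
      (∀ e ∈ (z, mk s N z) :: rest, e.2 = mk s N e.1 ∧ TT s N e.1) ∧
      (∀ e ∈ rest, (gr s N).dist e.1 0 < n) ∧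
      z ∈ ball 0 (10 * P.a * (rest.map Prod.snd).sum + 5 * P.a * mk s N z) := by
  intro n
  induction n with
  | zero =>
    intro z hz hd
    have h0 : z = 0 := (hz.1.dist_eq_zero_iff).1 hd
    subst h0
    refine ⟨[], ⟨rfl, hz.2.2⟩, ?_, by simp, self_mem_ball _ _⟩
    intro e he
    simp only [List.mem_singleton] at he
    subst he
    exact ⟨rfl, hz⟩
  | succ n ih =>
    intro z hz hd
    obtain ⟨p, hp⟩ := hz.1.exists_walk_length_eq_dist
    rw [hd] at hp
    cases p with
    | nil => simp at hp
    | @cons _ y _ hadj p' =>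
      have hlen : p'.length = n := by simpa using hp
      have hyr : (gr s N).Reachable y 0 := ⟨p'⟩
      have hy : TT s N y := ⟨hyr, hadj.2.2.1⟩
      have hstep : ∀ w : V d, (gr s N).Adj z w → (gr s N).Reachable w 0 →
          n + 1 ≤ (gr s N).dist w 0 + 1 := by
        intro w hw hwr
        obtain ⟨q, hq⟩ := hwr.exists_walk_length_eq_dist
        have := SimpleGraph.dist_le (SimpleGraph.Walk.cons hw q)
        rw [hd] at this
        simpa [hq] using this
      have hyd : (gr s N).dist y 0 = n := by
        have h1 := SimpleGraph.dist_le p'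
        have h2 := hstep y hadj hyr
        omega
      obtain ⟨rest, hg, hmem, hdist, hball⟩ := ih y hy hyd
      refine ⟨(y, mk s N y) :: rest, ⟨hz.2.2, hadj.2.2.2, ?_, hg⟩, ?_, ?_, ?_⟩
      · intro e he hfar
        obtain ⟨he2, heT⟩ := hmem e (by simp [he])
        have hde := hdist e he
        rw [he2] at hfar
        by_cases hze : z = e.1
        · rw [← hze, hd] at hde
          omega
        · have := hstep e.1 ⟨hze, hz.2, heT.2, hfar⟩ heT.1
          omega
      · intro e he
        rcases List.mem_cons.1 he with h1 | h1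
        · subst h1; exact ⟨rfl, hz⟩
        · exact hmem e h1
      · intro e he
        rcases List.mem_cons.1 he with h1 | h1
        · subst h1; simp only; omega
        · have := hdist e h1; omega
      · have h1 := mem_ball_trans hball hadj.2.2.2
        refine ball_mono (le_of_eq ?_) h1
        rw [List.map_cons, List.sum_cons]
        ring

/-- if the result is not certified there is a long chain of marked sites -/
theorem exists_chain (s : St P) (N : ℕ) (h : ¬ Stab s N) :
    ∃ l : List (V d × ℕ), l ≠ [] ∧ GoodL P.a l ∧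
      (∀ e ∈ l, e.2 = mk s N e.1 ∧ e.1 ∈ GG P N) ∧ 4 * (N + 1) ≤ 10 * (l.map Prod.snd).sum := by
  classical
  have h0G : (0 : V d) ∈ GG P N := self_mem_ball _ _
  have hzero : ∀ z, mk s N z = 0 → ∃ v, s.dn z = some (0, v) := by
    intro z hz
    unfold mk at hz
    cases hd : s.dn z with
    | none => rw [hd] at hz; simp at hz
    | some r =>
      rw [hd] at hz
      simp only [Option.elim_some] at hz
      exact ⟨r.2, by rw [← hz]⟩
  have hmk0 : 1 ≤ mk s N 0 := by
    by_contra hcon
    apply h
    obtain ⟨v, hv⟩ := hzero 0 (by omega)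
    refine ⟨{0}, by simp, by simpa using h0G, ?_⟩
    intro z hz
    rw [Finset.mem_singleton] at hz
    subst hz
    refine ⟨0, v, hv, ?_⟩
    intro y hy
    rw [mul_zero, mem_ball_zero] at hy
    simp [hy]
  have hT0 : TT s N 0 := ⟨SimpleGraph.Reachable.refl _, h0G, hmk0⟩
  set C : Finset (V d) := (GG P N).filter (fun z => ∃ y, TT s N y ∧ z ∈ ball y (4 * P.a * mk s N y))
    with hC
  obtain ⟨w, hwT, hw⟩ : ∃ w, TT s N w ∧ (mk s N w = N + 1 ∨
      ∃ u ∈ ball w (4 * P.a * mk s N w), u ∉ GG P N) := by
    by_contra hcon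
    push Not at hcon
    apply h
    refine ⟨C, ?_, Finset.filter_subset _ _, ?_⟩
    · rw [hC, Finset.mem_filter]
      exact ⟨h0G, 0, hT0, self_mem_ball _ _⟩
    · intro z hz
      rw [hC, Finset.mem_filter] at hz
      obtain ⟨hzG, y, hy, hzy⟩ := hz
      by_cases hmz : mk s N z = 0
      · obtain ⟨v, hv⟩ := hzero z hmz
        refine ⟨0, v, hv, ?_⟩
        intro u hu
        rw [mul_zero, mem_ball_zero] at hu
        subst hu
        rw [hC, Finset.mem_filter]
        exact ⟨hzG, y, hy, hzy⟩
      · have hmz1 : 1 ≤ mk s N z := by omega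
        have hzT : TT s N z := by
          by_cases hzey : z = y
          · rw [hzey]; exact hy
          · have hadj : (gr s N).Adj z y := by
              refine ⟨hzey, ⟨hzG, hmz1⟩, hy.2, ?_⟩
              refine ball_mono ?_ hzy
              have : P.a * mk s N y ≤ P.a * (mk s N z + mk s N y) :=
                Nat.mul_le_mul_left _ (by omega)
              calc 4 * P.a * mk s N y = 4 * (P.a * mk s N y) := by ring
                _ ≤ 5 * (P.a * (mk s N z + mk s N y)) := by omega
                _ = 5 * P.a * (mk s N z + mk s N y) := by ring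
            exact ⟨hadj.reachable.trans hy.1, hzG, hmz1⟩
        obtain ⟨h1, h2⟩ := hcon z hzT
        cases hd : s.dn z with
        | none =>
          exfalso
          apply h1
          unfold mk; rw [hd]; rfl
        | some r =>
          have hr : mk s N z = r.1 := by unfold mk; rw [hd]; rfl
          refine ⟨r.1, r.2, rfl, ?_⟩
          intro u hu
          rw [← hr] at hu
          rw [hC, Finset.mem_filter]
          exact ⟨h2 u hu, z, hzT, hu⟩
  obtain ⟨rest, hg, hmem, -, hball⟩ := chain_of_dist s N _ w hwT rfl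
  refine ⟨(w, mk s N w) :: rest, by simp, hg, fun e he => ⟨(hmem e he).1, (hmem e he).2.2.1⟩, ?_⟩
  rw [List.map_cons, List.sum_cons]
  simp only
  rcases hw with hw | ⟨u, hu, huG⟩
  · omega
  · by_contra hcon
    push Not at hcon
    apply huG
    have h1 := mem_ball_trans hball hu
    refine ball_mono ?_ h1
    have h2 : P.a * (10 * (mk s N w + (rest.map Prod.snd).sum)) ≤ P.a * (4 * (N + 1)) :=
      Nat.mul_le_mul_left _ hcon.le
    calc 10 * P.a * (rest.map Prod.snd).sum + 5 * P.a * mk s N w + 4 * P.a * mk s N w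
        ≤ 10 * P.a * (rest.map Prod.snd).sum + 10 * P.a * mk s N w := by
          have : 0 ≤ P.a * mk s N w := Nat.zero_le _
          nlinarith
      _ = P.a * (10 * (mk s N w + (rest.map Prod.snd).sum)) := by ring
      _ ≤ P.a * (4 * (N + 1)) := h2
      _ = 4 * P.a * (N + 1) := by ring

end H64.PCA
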