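import Pool.Agent.H64.PCA.Moment2
import Pool.Agent.H64.PCA.Ideal

/-!
# The probability of being stuck
-/

open MeasureTheory ProbabilityTheory Set
open scoped ENNReal NNReal

namespace H64.PCA

variable {d : ℕ} {α S : Type} [Finite α] [MeasurableSpace α] [DiscreteMeasurableSpace α]
  {P : Par d α S}

omit [Finite α] [DiscreteMeasurableSpace α] [MeasurableSpace α] in
lemma reqd_eq_of (hl : IsLocal P.h P.a) {t : ℕ} {A : Finset (V d)} {X X' : V d × ℕ → α}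
    (hX : ∀ q ∈ rg A (t * P.a) t, X q = X' q) :
    reqd P.h P.a (cur X) A t = reqd P.h P.a (cur X') A t := by
  unfold reqd
  rw [front_eq_of hl hX]

omit [Finite α] [DiscreteMeasurableSpace α] [MeasurableSpace α] in
lemma cnt_eq_of (hl : IsLocal P.h P.a) {i : ℕ} {A : Finset (V d)} {X X' : V d × ℕ → α}
    (hX : ∀ q ∈ rg A (i * P.a) i, X q = X' q) :
    cnt P (cur X) A i = cnt P (cur X') A i := by
  unfold cnt
  refine Finset.sum_congr rfl fun t ht => ?_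
  rw [Finset.mem_Icc] at ht
  rw [reqd_eq_of hl]
  intro q hq
  obtain ⟨⟨x, hx, hn⟩, hq2⟩ := mem_rg.1 hq
  exact hX q (mem_rg.2 ⟨⟨x, hx, ball_mono (Nat.mul_le_mul_right _ ht.2) hn⟩, by omega⟩)

omit [Finite α] [DiscreteMeasurableSpace α] [MeasurableSpace α] in
lemma stuck_dependsOn (hl : IsLocal P.h P.a) (i : ℕ) (x : V d) :
    DependsOn (fun X : V d × ℕ → α => Stuck P (cur X) i x)
      (rg {x} (5 * P.a * (i + 1)) (i + 1) : Set (V d × ℕ)) := by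
  intro X X' hX
  have e1 : front P.h P.a (cur X) {x} (i + 1) = front P.h P.a (cur X') {x} (i + 1) := by
    refine front_eq_of hl fun q hq => hX q ?_
    obtain ⟨⟨y, hy, hn⟩, hq2⟩ := mem_rg.1 hq
    refine mem_rg.2 ⟨⟨y, hy, ball_mono ?_ hn⟩, hq2⟩
    calc (i + 1) * P.a ≤ 5 * ((i + 1) * P.a) := by omega
      _ = 5 * P.a * (i + 1) := by ring
  have e2 : cnt P (cur X) (ball x (4 * P.a * i)) i = cnt P (cur X') (ball x (4 * P.a * i)) i := by
    refine cnt_eq_of hl fun q hq => hX q ?_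
    obtain ⟨⟨y, hy, hn⟩, hq2⟩ := mem_rg.1 hq
    refine mem_rg.2 ⟨⟨x, by simp, ball_mono ?_ (mem_ball_trans hy hn)⟩, by omega⟩
    have : P.a * i ≤ P.a * (i + 1) := Nat.mul_le_mul_left _ (by omega)
    calc 4 * P.a * i + i * P.a = 5 * (P.a * i) := by ring
      _ ≤ 5 * (P.a * (i + 1)) := by omega
      _ = 5 * P.a * (i + 1) := by ring
  simp only [Stuck, e1, e2]

omit [Finite α] [DiscreteMeasurableSpace α] [MeasurableSpace α] in
lemma card_ball_four_le (x : V d) (r : ℕ) :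
    (ball x (2 * r)).card ≤ 2 ^ d * (ball x r).card := by
  rw [card_ball, card_ball, ← mul_pow]
  exact Nat.pow_le_pow_left (by omega) d

omit [Finite α] [DiscreteMeasurableSpace α] [MeasurableSpace α] in
lemma lt_card_ball (hd : 1 ≤ d) (x : V d) (r : ℕ) : r + 1 ≤ (ball x r).card := by
  rw [card_ball]
  calc r + 1 ≤ (2 * r + 1) ^ 1 := by rw [pow_one]; omega
    _ ≤ (2 * r + 1) ^ d := Nat.pow_le_pow_right (by omega) hd

/-- the probability of being stuck in round `i` -/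
theorem prob_stuck (hd : 1 ≤ d) (ha : 1 ≤ P.a) (hl : IsLocal P.h P.a) (ν : Measure α)
    [IsProbabilityMeasure ν] {v : ℝ≥0} (hv1 : 1 ≤ v)
    (hv : v ^ (2 * ((2 * P.a + 1) ^ d) ^ 2) = 2) (hp : 1 + p1 P.h ν ≤ v) {θ : ℝ≥0}
    (hθ1 : θ ≤ 1) (hp2 : (((2 * P.a + 1) ^ d : ℕ) : ℝ≥0∞) * p1 P.h ν ≤ ((θ ^ 2 / 2 : ℝ≥0) : ℝ≥0∞))
    {n : ℕ} (hn : 2 ≤ θ ^ 2 * v ^ n) (hM : P.M = (2 * P.a + 1) ^ d * (2 ^ d + n))
    (i : ℕ) (x : V d) :
    (Pr (V d × ℕ) ν) {X | Stuck P (cur X) i x} ≤ (θ : ℝ≥0∞) ^ (2 * (i + 1)) := by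
  set Δ := (2 * P.a + 1) ^ d with hΔ
  set B := (ball x (2 * P.a * i)).card with hB
  have hθ2 : θ ^ 2 / 2 ≤ 1 := by
    have : θ ^ 2 ≤ 1 := pow_le_one₀ (by positivity) hθ1
    calc θ ^ 2 / 2 ≤ 1 / 2 := by gcongr
      _ ≤ 1 := by
        rw [← NNReal.coe_le_coe]; push_cast; norm_num
  have hBi : i + 1 ≤ B := by
    have h1 := lt_card_ball hd x (2 * P.a * i)
    have h2 : i ≤ 2 * P.a * i := Nat.le_mul_of_pos_left _ (by omega)
    omega
  -- first possibility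
  have h1 : (Pr (V d × ℕ) ν) {X | (front P.h P.a (cur X) {x} (i + 1)).Nonempty}
      ≤ ((θ ^ 2 / 2 : ℝ≥0) : ℝ≥0∞) ^ (i + 1) := by
    have hm := mul_meas_ge_le_lintegral₀ (μ := Pr (V d × ℕ) ν)
      (f := fun X => ((front P.h P.a (cur X) {x} (i + 1)).card : ℝ≥0∞)) ?_ 1
    · rw [one_mul] at hm
      refine le_trans (measure_mono ?_) (hm.trans ((lintegral_card_front hl ν {x} (i + 1)).trans ?_))
      · intro X hX
        simp only [mem_ofPred_eq] at hX ⊢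
        have := Finset.card_pos.2 hX
        exact_mod_cast this
      · rw [Finset.card_singleton, Nat.cast_one, mul_one]
        exact pow_le_pow_left₀ (by simp) hp2 _
    · refine (measurable_of_dependsOn (I := rg {x} ((i + 1) * P.a) (i + 1)) ?_).aemeasurable
      intro X X' hX
      simp only
      rw [front_eq_of hl hX]
  -- second possibility
  have h2 : (Pr (V d × ℕ) ν) {X | P.M * B ≤ cnt P (cur X) (ball x (4 * P.a * i)) i}
      ≤ ((θ ^ 2 / 2 : ℝ≥0) : ℝ≥0∞) ^ (i + 1) := by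
    set A := ball x (4 * P.a * i) with hA
    set f : (V d × ℕ → α) → ℝ≥0∞ := fun X =>
      (v : ℝ≥0∞) ^ (∑ t ∈ Finset.Icc 1 i, (front P.h P.a (cur X) A t).card) with hf
    have hv1' : (1 : ℝ≥0∞) ≤ v := by exact_mod_cast hv1
    have hfint : ∫⁻ X, f X ∂(Pr (V d × ℕ) ν) ≤ (v : ℝ≥0∞) ^ A.card := by
      refine le_trans (lintegral_mono fun X => ?_) (lintegral_pow_front hl ν hv1 hv hp A i)
      calc f X = f X * 1 := (mul_one _).symm
        _ ≤ f X * (v : ℝ≥0∞) ^ (front P.h P.a (cur X) A i).card := by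
          gcongr
          exact one_le_pow₀ hv1'
    have hfm : AEMeasurable f (Pr (V d × ℕ) ν) := by
      refine (measurable_of_dependsOn (I := rg A (i * P.a) i) ?_).aemeasurable
      intro X X' hX
      simp only [hf]
      congr 1
      refine Finset.sum_congr rfl fun t ht => ?_
      rw [Finset.mem_Icc] at ht
      rw [front_eq_of hl]
      intro q hq
      obtain ⟨⟨y, hy, hn⟩, hq2⟩ := mem_rg.1 hq
      exact hX q (mem_rg.2 ⟨⟨y, hy, ball_mono (Nat.mul_le_mul_right _ ht.2) hn⟩, by omega⟩)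
    have hm := mul_meas_ge_le_lintegral₀ hfm ((v : ℝ≥0∞) ^ ((2 ^ d + n) * B))
    have hsub : {X | P.M * B ≤ cnt P (cur X) A i} ⊆ {X | (v : ℝ≥0∞) ^ ((2 ^ d + n) * B) ≤ f X} := by
      intro X hX
      simp only [mem_ofPred_eq] at hX ⊢
      refine pow_le_pow_right₀ hv1' ?_
      have hc : cnt P (cur X) A i
          ≤ Δ * ∑ t ∈ Finset.Icc 1 i, (front P.h P.a (cur X) A t).card := by
        unfold cnt
        rw [Finset.mul_sum]
        exact Finset.sum_le_sum fun t _ => card_reqd_le X t A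
      have h3 : Δ * ((2 ^ d + n) * B)
          ≤ Δ * ∑ t ∈ Finset.Icc 1 i, (front P.h P.a (cur X) A t).card := by
        calc Δ * ((2 ^ d + n) * B) = P.M * B := by rw [hM]; ring
          _ ≤ _ := hX.trans hc
      exact Nat.le_of_mul_le_mul_left h3 (by rw [hΔ]; positivity)
    have hAB : A.card ≤ 2 ^ d * B := by
      have := card_ball_four_le x (2 * P.a * i)
      have e : 2 * (2 * P.a * i) = 4 * P.a * i := by ring
      rw [e] at this
      exact this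
    have h4 : (v : ℝ≥0∞) ^ ((2 ^ d + n) * B)
        * (Pr (V d × ℕ) ν) {X | P.M * B ≤ cnt P (cur X) A i} ≤ (v : ℝ≥0∞) ^ (2 ^ d * B) := by
      calc _ ≤ (v : ℝ≥0∞) ^ ((2 ^ d + n) * B)
            * (Pr (V d × ℕ) ν) {X | (v : ℝ≥0∞) ^ ((2 ^ d + n) * B) ≤ f X} := by gcongr
        _ ≤ (v : ℝ≥0∞) ^ A.card := hm.trans hfint
        _ ≤ _ := pow_le_pow_right₀ hv1' hAB
    -- cancel
    have h5 : (v : ℝ≥0∞) ^ (n * B) * (Pr (V d × ℕ) ν) {X | P.M * B ≤ cnt P (cur X) A i} ≤ 1 := by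
      have e : (v : ℝ≥0∞) ^ ((2 ^ d + n) * B) = (v : ℝ≥0∞) ^ (2 ^ d * B) * (v : ℝ≥0∞) ^ (n * B) := by
        rw [← pow_add]; congr 1; ring
      rw [e, mul_assoc] at h4
      have h0 : (v : ℝ≥0∞) ^ (2 ^ d * B) ≠ 0 := by
        have : (v : ℝ≥0∞) ≠ 0 := (lt_of_lt_of_le zero_lt_one hv1').ne'
        exact pow_ne_zero _ this
      have h1 : (v : ℝ≥0∞) ^ (2 ^ d * B) ≠ ⊤ := by
        rw [← ENNReal.coe_pow]; exact ENNReal.coe_ne_top
      rw [← ENNReal.mul_le_mul_iff_right h0 h1, mul_one]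
      exact h4
    have h6 : (1 : ℝ≥0∞) ≤ ((θ ^ 2 / 2 : ℝ≥0) : ℝ≥0∞) ^ B * (v : ℝ≥0∞) ^ (n * B) := by
      have : (1 : ℝ≥0) ≤ (θ ^ 2 / 2) ^ B * v ^ (n * B) := by
        rw [pow_mul, ← mul_pow]
        refine one_le_pow₀ ?_
        rw [← NNReal.coe_le_coe] at hn ⊢
        push_cast at hn ⊢
        linarith
      exact_mod_cast this
    calc (Pr (V d × ℕ) ν) {X | P.M * B ≤ cnt P (cur X) A i}
        = 1 * (Pr (V d × ℕ) ν) {X | P.M * B ≤ cnt P (cur X) A i} := (one_mul _).symm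
      _ ≤ ((θ ^ 2 / 2 : ℝ≥0) : ℝ≥0∞) ^ B * (v : ℝ≥0∞) ^ (n * B)
            * (Pr (V d × ℕ) ν) {X | P.M * B ≤ cnt P (cur X) A i} := by gcongr
      _ = ((θ ^ 2 / 2 : ℝ≥0) : ℝ≥0∞) ^ B * ((v : ℝ≥0∞) ^ (n * B)
            * (Pr (V d × ℕ) ν) {X | P.M * B ≤ cnt P (cur X) A i}) := by rw [mul_assoc]
      _ ≤ ((θ ^ 2 / 2 : ℝ≥0) : ℝ≥0∞) ^ B * 1 := by gcongr
      _ = ((θ ^ 2 / 2 : ℝ≥0) : ℝ≥0∞) ^ B := mul_one _
      _ ≤ ((θ ^ 2 / 2 : ℝ≥0) : ℝ≥0∞) ^ (i + 1) := by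
        refine pow_le_pow_right_of_le_one' ?_ hBi
        exact_mod_cast hθ2
  have hsub : {X : V d × ℕ → α | Stuck P (cur X) i x} ⊆
      {X | (front P.h P.a (cur X) {x} (i + 1)).Nonempty} ∪
      {X | P.M * B ≤ cnt P (cur X) (ball x (4 * P.a * i)) i} := by
    intro X hX
    rcases hX with h3 | h3
    · exact Or.inl h3
    · exact Or.inr h3.2
  calc (Pr (V d × ℕ) ν) {X | Stuck P (cur X) i x}
      ≤ ((θ ^ 2 / 2 : ℝ≥0) : ℝ≥0∞) ^ (i + 1) + ((θ ^ 2 / 2 : ℝ≥0) : ℝ≥0∞) ^ (i + 1) :=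
        (measure_mono hsub).trans ((measure_union_le _ _).trans (add_le_add h1 h2))
    _ ≤ (θ : ℝ≥0∞) ^ (2 * (i + 1)) := by
      have : (θ ^ 2 / 2) ^ (i + 1) + (θ ^ 2 / 2) ^ (i + 1) ≤ θ ^ (2 * (i + 1)) := by
        have hh : (1 / 2 : ℝ≥0) ^ i ≤ 1 := pow_le_one₀ (by positivity) (by
          rw [← NNReal.coe_le_coe]; push_cast; norm_num)
        calc (θ ^ 2 / 2) ^ (i + 1) + (θ ^ 2 / 2) ^ (i + 1)
            = θ ^ (2 * (i + 1)) * (1 / 2 : ℝ≥0) ^ i := by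
              rw [pow_mul, div_pow, pow_succ (2 : ℝ≥0), one_div, inv_pow]
              field_simp
              ring
          _ ≤ θ ^ (2 * (i + 1)) * 1 := by gcongr
          _ = _ := mul_one _
      exact_mod_cast this

end H64.PCA
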