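import Pool.Agent.H64.PCA.Prob

/-!
# Decision trees reading independent coordinates
-/

open MeasureTheory ProbabilityTheory Set
open scoped ENNReal

namespace H64.PCA

/-- decision trees with queries in `ι`, answers in `α` and results in `β` -/
inductive Tree (ι α β : Type) : Type where
  | ret : β → Tree ι α β
  | read : ι → (α → Tree ι α β) → Tree ι α β

namespace Tree

variable {ι κ α β γ : Type}

/-- run the tree, a query `i` being answered by `g i` -/
def eval (g : ι → α) : Tree ι α β → β
  | ret b => b
  | read i k => (k (g i)).eval g

/-- sequential composition -/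
def bind : Tree ι α β → (β → Tree ι α γ) → Tree ι α γ
  | ret b, f => f b
  | read i k, f => read i (fun a => (k a).bind f)

@[simp] lemma eval_ret (g : ι → α) (b : β) : (ret b : Tree ι α β).eval g = b := rfl

@[simp] lemma eval_read (g : ι → α) (i : ι) (k : α → Tree ι α β) :
    (read i k).eval g = (k (g i)).eval g := rfl

@[simp] lemma eval_bind (g : ι → α) (t : Tree ι α β) (f : β → Tree ι α γ) :
    (t.bind f).eval g = (f (t.eval g)).eval g := by
  induction t with
  | ret b => rfl
  | read i k ih => exact ih _

/-- no query has label (under `π`) in `U`, and no label is queried twice along a branch -/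
def Fresh (π : ι → κ) : Tree ι α β → Set κ → Prop
  | ret _, _ => True
  | read i k, U => π i ∉ U ∧ ∀ a, (k a).Fresh π (insert (π i) U)

/-- the labels queried -/
def supp [DecidableEq κ] [Fintype α] (π : ι → κ) : Tree ι α β → Finset κ
  | ret _ => ∅
  | read i k => insert (π i) (Finset.univ.biUnion fun a => (k a).supp π)

lemma Fresh.mono {π : ι → κ} {t : Tree ι α β} {U U' : Set κ} (h : t.Fresh π U) (hU : U' ⊆ U) :
    t.Fresh π U' := by
  induction t generalizing U U' with
  | ret b => trivial
  | read i k ih =>
    exact ⟨fun hh => h.1 (hU hh), fun a => ih a (h.2 a) (insert_subset_insert hU)⟩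

lemma Fresh.notMem_supp [DecidableEq κ] [Fintype α] {π : ι → κ} {t : Tree ι α β} {U : Set κ}
    (h : t.Fresh π U) {u : κ} (hu : u ∈ U) : u ∉ t.supp π := by
  induction t generalizing U with
  | ret b => simp [supp]
  | read i k ih =>
    simp only [supp, Finset.mem_insert, Finset.mem_biUnion, Finset.mem_univ, true_and, not_or,
      not_exists]
    refine ⟨fun hh => h.1 (hh ▸ hu), fun a => ih a (h.2 a) (mem_insert_of_mem _ hu)⟩

lemma eval_congr [DecidableEq κ] [Fintype α] (π : ι → κ) (t : Tree ι α β) {x y : κ → α}
    (h : ∀ u ∈ t.supp π, x u = y u) :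
    t.eval (fun i => x (π i)) = t.eval (fun i => y (π i)) := by
  induction t with
  | ret b => rfl
  | read i k ih =>
    simp only [eval_read]
    have h1 : x (π i) = y (π i) := h _ (by simp [supp])
    rw [h1]
    refine ih _ (fun u hu => h u ?_)
    simp only [supp, Finset.mem_insert, Finset.mem_biUnion, Finset.mem_univ, true_and]
    exact Or.inr ⟨_, hu⟩

/-- the probability that the result is in `E`, all answers being independent of law `ν` -/
noncomputable def prob [Fintype α] [MeasurableSpace α] (ν : Measure α) (E : Set β) :
    Tree ι α β → ℝ≥0∞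
  | ret b => E.indicator 1 b
  | read _ k => ∑ a, ν {a} * (k a).prob ν E

theorem prob_eq [Fintype α] [MeasurableSpace α] [DiscreteMeasurableSpace α]
    (ν : Measure α) [IsProbabilityMeasure ν] (π : ι → κ) (t : Tree ι α β) {U : Set κ}
    (hfr : t.Fresh π U) (E : Set β) :
    (Pr κ ν) {X | t.eval (fun i => X (π i)) ∈ E} = t.prob ν E := by
  classical
  induction t generalizing U with
  | ret b =>
    by_cases hb : b ∈ E
    · simp [prob, hb]
    · simp [prob, hb]
  | read i k ih =>
    have hsplit : {X : κ → α | (read i k).eval (fun i => X (π i)) ∈ E}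
        = ⋃ a ∈ (Finset.univ : Finset α),
          {X : κ → α | X (π i) = a ∧ (k a).eval (fun i => X (π i)) ∈ E} := by
      ext X
      simp
    rw [hsplit, measure_biUnion_finset]
    · simp only [prob]
      refine Finset.sum_congr rfl fun a _ => ?_
      have hd1 : DependsOn (fun X : κ → α => X (π i) = a) (({π i} : Finset κ) : Set κ) := by
        intro x y hxy
        have := hxy (π i) (by simp)
        simp [this]
      have hd2 : DependsOn (fun X : κ → α => (k a).eval (fun i => X (π i)) ∈ E)
          ((k a).supp π : Set κ) := by
        intro x y hxy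
        have := eval_congr π (k a) (x := x) (y := y) (fun u hu => hxy u hu)
        simp [this]
      have hdisj : Disjoint ({π i} : Finset κ) ((k a).supp π) := by
        rw [Finset.disjoint_singleton_left]
        exact (hfr.2 a).notMem_supp (mem_insert _ _)
      rw [measure_and_of_dependsOn ν hd1 hd2 hdisj, ih a (hfr.2 a)]
      congr 1
      have hmap := Measure.infinitePi_map_eval (fun _ : κ => ν) (π i)
      have : (Pr κ ν) {X : κ → α | X (π i) = a}
          = ((Pr κ ν).map (fun X => X (π i))) {a} := by
        rw [Measure.map_apply (measurable_pi_apply _) (MeasurableSet.of_discrete)]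
        rfl
      rw [this]
      exact congrArg (fun m => m {a}) hmap
    · intro a _ b _ hab
      refine Set.disjoint_left.2 ?_
      intro X hX hX'
      exact hab (hX.1.symm.trans hX'.1)
    · intro a _
      have hd : DependsOn (fun X : κ → α => X (π i) = a ∧ (k a).eval (fun i => X (π i)) ∈ E)
          ((({π i} : Finset κ) ∪ (k a).supp π : Finset κ) : Set κ) := by
        intro x y hxy
        have h1 := hxy (π i) (by simp)
        have h2 := eval_congr π (k a) (x := x) (y := y) (fun u hu => hxy u (by simp [hu]))
        simp [h1, h2]
      exact measurableSet_of_dependsOn hd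

/-- reading through two different fresh labellings gives the same law -/
theorem law_eq {κ' : Type} [Fintype α] [MeasurableSpace α] [DiscreteMeasurableSpace α]
    (ν : Measure α) [IsProbabilityMeasure ν] (π : ι → κ) (π' : ι → κ') (t : Tree ι α β)
    {U : Set κ} {U' : Set κ'} (h : t.Fresh π U) (h' : t.Fresh π' U') (E : Set β) :
    (Pr κ ν) {X | t.eval (fun i => X (π i)) ∈ E}
      = (Pr κ' ν) {X | t.eval (fun i => X (π' i)) ∈ E} := by
  rw [prob_eq ν π t h, prob_eq ν π' t h']

end Tree

end H64.PCA
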